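import Pool.Agent.Helper90.MVD.MQ

/-!
Module MVD-8 (project MV, block D2): the values `Λ_s (e_{S_1} ∧ ... ∧ e_{S_l})`.

* `pf_psl`: `pfL (AS D) (psl N) = G` for `N` even: `psl N = (List.ofFn D.s)`-indexed; by `pfL_map`
  (`psl N = (List.ofFn id).map Sum.inl`, `List.ofFn D.s = (List.ofFn id).map D.s`,
  i.e. `List.finRange N`) it equals `pfL (fun x y => (x-y)/(x+y)) (List.ofFn D.s)`; then `schur_pf`,
  `prs_ofFn`, definition of `D.G`.
* `pf_AS`: `exists_inv` for `A = AS D`, `ψ i = Sum.inl i` gives `Q`; `pfL_schur` with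
  `y a k = ∑_j Q k j * AS D (inl j) a` (`∑_k y a k * σ_ik = ∑_j δ_ij AS (inl j) a`): the new array on
  `Sum.inr a, Sum.inr b` is `0 - ∑_k ∑_j Q k j * bc j a * bc k b`, and
  `bc j a = cc_a * bco a (1/s_j)` (`cc 0 = 1`), so it is `cc_a cc_b * M_ab`, `M_ab = QQ a b (t)` for
  `a > b` by `M_eq_QQ`. `pfL_map` (from the letters to numbers), `pfL_congr` (the list is strictly
  decreasing), `pfL_scale`.
-/

namespace Pool.Agent.Helper90.MVD

open Finset Pool.Agent.Helper60.MV Pool.Agent.Helper52.MVD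

theorem pf_psl {F : Type} [Field F] [Algebra ℝ F] {N : ℕ} (D : DF F N) (hN : Even N) :
    pfL (AS D) (psl N) = D.G := by
  have hc : CharZero F := charZero_of_real F
  have h1 : psl N = (List.ofFn (fun i : Fin N => i)).map Sum.inl := by
    rw [List.map_ofFn]
    rfl
  have h2 : List.ofFn D.s = (List.ofFn (fun i : Fin N => i)).map D.s := by
    rw [List.map_ofFn]
    rfl
  have h3 : pfL (AS D) (psl N) = pfL (fun x y => (x - y) / (x + y)) (List.ofFn D.s) := by
    rw [h1, pfL_map, h2, pfL_map]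
    rfl
  rw [h3, schur_pf _ (by rw [List.length_ofFn]; exact hN) (List.nodup_ofFn.2 (s_inj D)), prs_ofFn]
  · rfl
  · intro x hx
    rw [List.mem_ofFn] at hx
    obtain ⟨i, rfl⟩ := hx
    exact s_ne D i
  · intro x hx y hy
    rw [List.mem_ofFn] at hx hy
    obtain ⟨i, rfl⟩ := hx
    obtain ⟨j, rfl⟩ := hy
    exact s_add_ne D i j

/-- the coefficient `c_n` splits off from the pairing -/
private theorem bc_eq {F : Type} [Field F] [Algebra ℝ F] {N : ℕ} (D : DF F N) (i : Fin N)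
    (n : ℕ) : bc D i n = algebraMap ℝ F (cc n) * bco n (1 / D.s i) := by
  unfold bc bco kap
  split_ifs with h
  · subst h
    rw [mul_one, cc, prod_range_zero, map_one]
  · ring

theorem pf_AS {F : Type} [Field F] [Algebra ℝ F] {N : ℕ} (D : DF F N) (hN : Even N)
    (L : List ℕ) (hL : L.Pairwise (· > ·)) :
    pfL (AS D) (psl N ++ L.map Sum.inr) =
      D.G * (L.map fun n => algebraMap ℝ F (cc n)).prod *
        MvPolynomial.aeval (tval D.s) (pfL QQ L) := by
  have hG : pfL (AS D) (List.ofFn fun i : Fin N => (Sum.inl i : Fin N ⊕ ℕ)) ≠ 0 := by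
    have h := pf_psl D hN
    unfold psl at h
    rw [h]
    exact G_ne D
  obtain ⟨Q, hQ⟩ := exists_inv (AS D) (AS_self D) (AS_symm D)
    (fun i : Fin N => (Sum.inl i : Fin N ⊕ ℕ)) hG
  have h1 := pfL_schur (AS D) (AS_self D) (AS_symm D)
    (fun i : Fin N => (Sum.inl i : Fin N ⊕ ℕ)) (fun a k => ∑ j, Q k j * AS D (Sum.inl j) a)
    (L.map Sum.inr) (by
      intro a _ i
      have h2 : ∀ k, (∑ j, Q k j * AS D (Sum.inl j) a) * AS D (Sum.inl i) (Sum.inl k) =
          ∑ j, (AS D (Sum.inl i) (Sum.inl k) * Q k j) * AS D (Sum.inl j) a := by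
        intro k
        rw [sum_mul]
        refine sum_congr rfl fun j _ => ?_
        ring
      rw [sum_congr rfl fun k _ => h2 k, sum_comm]
      have h3 : ∀ j, ∑ k, (AS D (Sum.inl i) (Sum.inl k) * Q k j) * AS D (Sum.inl j) a =
          if i = j then AS D (Sum.inl j) a else 0 := by
        intro j
        rw [← sum_mul, hQ i j, ite_mul, one_mul, zero_mul]
      rw [sum_congr rfl fun j _ => h3 j, sum_ite_eq, if_pos (mem_univ i)])
  have h4 := pf_psl D hN
  unfold psl at h4 ⊢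
  rw [h1, h4, mul_assoc]
  congr 1
  rw [pfL_map]
  have h5 : MvPolynomial.aeval (tval D.s) (pfL QQ L) =
      pfL (fun a b => MvPolynomial.aeval (tval D.s) (QQ a b)) L :=
    pfL_hom ((MvPolynomial.aeval (tval D.s) : MvPolynomial ℕ ℝ →ₐ[ℝ] F) :
      MvPolynomial ℕ ℝ →+* F) QQ L
  rw [h5, ← pfL_scale (fun n => algebraMap ℝ F (cc n))]
  refine pfL_congr _ _ L (hL.imp ?_)
  intro a b hab
  rw [← M_eq_QQ D hN Q hQ a b hab]
  show 0 - ∑ k, (∑ j, Q k j * bc D j a) * bc D k b = _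
  rw [zero_sub, mul_neg, mul_sum]
  congr 1
  refine sum_congr rfl fun k _ => ?_
  rw [sum_mul, mul_sum]
  refine sum_congr rfl fun j _ => ?_
  rw [bc_eq, bc_eq]
  ring

end Pool.Agent.Helper90.MVD
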