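import Pool.Agent.Helper90.MVD.Defs

/-!
Module MVD-1 (project MV, block D2): elementary facts on `pfL` (recursion along the first entry,
`Pool.Agent.Helper60.MV.pfL`).

Proofs: everything by strong induction on the length of the list with `pfL_cons`
(unfold `pfL`; the definition is by well-founded recursion, use `pfL.eq_2` / `rw [pfL]`).
* `pfL_congr`: `List.Pairwise` of `x :: xs` gives the property of `x` with every entry of `xs`, and
  `List.Pairwise` passes to sublists (`List.eraseIdx_sublist`).
* `pfL_hom`: `map_sum, map_mul, map_pow`.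
* `pfL_map`: `(L.map g).eraseIdx j = (L.eraseIdx j).map g` (the sum over `Fin (xs.map g).length` is
  reindexed by `Fin.cast`; `Fintype.sum_equiv (finCongr (List.length_map ..))`).
* `pfL_scale`: `(xs.map c).prod = c (xs.get j) * ((xs.eraseIdx j).map c).prod` in a commutative
  ring (`List.prod_eq_mul_prod_eraseIdx`-like; or `List.Perm`: `List.getElem_cons_eraseIdx_perm`).
* `pfL_odd`: `xs.eraseIdx j` has length `xs.length - 1`, odd again; length 1: empty sum.
* `pfL_weight`: if `(L.map w).sum ≠ 0` and the term `j` has `w x + w (xs_j) = 0`, then the list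
  `xs.eraseIdx j` has nonzero weight.
* `pfL_deg`: degree bound for power series entries: `coeff k (A a b) = 0` for `k > wt a + wt b`
  implies `coeff k (pfL A L) = 0` for `k > ∑ wt`.
-/

namespace Pool.Agent.Helper90.MVD

open Finset Pool.Agent.Helper60.MV

section

variable {α β R S : Type} [CommRing R] [CommRing S]

theorem pfL_nil (A : α → α → R) : pfL A [] = 1 := by
  rw [pfL]

theorem pfL_cons (A : α → α → R) (x : α) (xs : List α) :
    pfL A (x :: xs) =
      ∑ j : Fin xs.length, (-1) ^ (j : ℕ) * A x (xs.get j) * pfL A (xs.eraseIdx j) := by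
  rw [pfL]

private theorem len_er {α : Type} (x : α) (xs : List α) (j : Fin xs.length) :
    (xs.eraseIdx j).length < (x :: xs).length := by
  rw [List.length_eraseIdx_of_lt j.2, List.length_cons]
  omega

private theorem pf_induction {α : Type} (P : List α → Prop) (h0 : P [])
    (h1 : ∀ x xs, (∀ j : Fin xs.length, P (xs.eraseIdx j)) → P (x :: xs)) : ∀ L, P L := by
  have key : ∀ n : ℕ, ∀ L : List α, L.length < n → P L := by
    intro n
    induction n with
    | zero =>
      intro L hL
      exact absurd hL (Nat.not_lt_zero _)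
    | succ n ih =>
      intro L hL
      cases L with
      | nil => exact h0
      | cons x xs =>
        refine h1 x xs fun j => ih _ ?_
        have := len_er x xs j
        omega
  intro L
  exact key (L.length + 1) L (Nat.lt_succ_self _)

private theorem er_map {α β : Type} (g : β → α) (xs : List β) (j : ℕ) :
    (xs.map g).eraseIdx j = (xs.eraseIdx j).map g := by
  induction xs generalizing j with
  | nil => simp
  | cons x xs ih =>
    cases j with
    | zero => simp
    | succ j => simp [ih]

theorem pfL_pair (A : α → α → R) (x y : α) : pfL A [x, y] = A x y := by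
  rw [pfL_cons]
  simp [pfL_nil]

theorem pfL_congr (A B : α → α → R) (L : List α) (h : L.Pairwise fun a b => A a b = B a b) :
    pfL A L = pfL B L := by
  revert h
  refine pf_induction (fun L => L.Pairwise (fun a b => A a b = B a b) → pfL A L = pfL B L) ?_ ?_ L
  · intro _
    rw [pfL_nil, pfL_nil]
  · intro x xs ih h
    rw [List.pairwise_cons] at h
    rw [pfL_cons, pfL_cons]
    refine Finset.sum_congr rfl fun j _ => ?_
    rw [h.1 _ (List.get_mem xs j), ih j (h.2.sublist (List.eraseIdx_sublist xs j))]

theorem pfL_hom (f : R →+* S) (A : α → α → R) (L : List α) :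
    f (pfL A L) = pfL (fun a b => f (A a b)) L := by
  refine pf_induction (fun L => f (pfL A L) = pfL (fun a b => f (A a b)) L) ?_ ?_ L
  · rw [pfL_nil, pfL_nil, map_one]
  · intro x xs ih
    rw [pfL_cons, pfL_cons, map_sum]
    refine Finset.sum_congr rfl fun j _ => ?_
    rw [map_mul, map_mul, map_pow, map_neg, map_one, ih j]

theorem pfL_map (g : β → α) (A : α → α → R) (L : List β) :
    pfL A (L.map g) = pfL (fun a b => A (g a) (g b)) L := by
  refine pf_induction (fun L => pfL A (L.map g) = pfL (fun a b => A (g a) (g b)) L) ?_ ?_ L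
  · rw [List.map_nil, pfL_nil, pfL_nil]
  · intro x xs ih
    rw [List.map_cons, pfL_cons, pfL_cons]
    refine Fintype.sum_equiv (finCongr (List.length_map g)) _ _ fun j => ?_
    have hj : (j : ℕ) < xs.length := lt_of_lt_of_eq j.2 (List.length_map g)
    have e1 : (xs.map g).get j = g (xs.get ⟨(j : ℕ), hj⟩) := by
      simp
    have e2 : (xs.map g).eraseIdx (j : ℕ) = (xs.eraseIdx (j : ℕ)).map g := er_map g xs j
    rw [e1, e2]
    have e3 := ih ⟨(j : ℕ), hj⟩
    simp only at e3
    rw [e3]
    rfl

theorem pfL_scale (c : α → R) (A : α → α → R) (L : List α) :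
    pfL (fun a b => c a * c b * A a b) L = (L.map c).prod * pfL A L := by
  refine pf_induction
    (fun L => pfL (fun a b => c a * c b * A a b) L = (L.map c).prod * pfL A L) ?_ ?_ L
  · rw [pfL_nil, pfL_nil, List.map_nil, List.prod_nil, one_mul]
  · intro x xs ih
    rw [pfL_cons, pfL_cons, List.map_cons, List.prod_cons, Finset.mul_sum]
    refine Finset.sum_congr rfl fun j _ => ?_
    have hp : (xs.map c).prod = c (xs.get j) * ((xs.eraseIdx j).map c).prod := by
      have h1 := ((List.getElem_cons_eraseIdx_perm j.2).map c).prod_eq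
      rw [List.map_cons, List.prod_cons] at h1
      exact h1.symm
    rw [ih j, hp]
    ring

theorem pfL_odd (A : α → α → R) (L : List α) (h : Odd L.length) : pfL A L = 0 := by
  revert h
  refine pf_induction (fun L => Odd L.length → pfL A L = 0) ?_ ?_ L
  · intro h
    rw [List.length_nil] at h
    exact absurd h (by decide)
  · intro x xs ih h
    rw [pfL_cons]
    refine Finset.sum_eq_zero fun j _ => ?_
    rw [ih j ?_, mul_zero]
    rw [List.length_eraseIdx_of_lt j.2]
    rw [List.length_cons] at h
    have hj := j.2
    obtain ⟨k, hk⟩ := h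
    exact ⟨k - 1, by omega⟩

theorem pfL_weight (w : α → ℤ) (A : α → α → R) (hA : ∀ a b, w a + w b ≠ 0 → A a b = 0)
    (L : List α) (hL : (L.map w).sum ≠ 0) : pfL A L = 0 := by
  revert hL
  refine pf_induction (fun L => (L.map w).sum ≠ 0 → pfL A L = 0) ?_ ?_ L
  · intro h
    exact absurd (by simp) h
  · intro x xs ih h
    rw [pfL_cons]
    refine Finset.sum_eq_zero fun j _ => ?_
    by_cases hj : w x + w (xs.get j) = 0
    · rw [ih j ?_, mul_zero]
      intro h0
      apply h
      have h1 := ((List.getElem_cons_eraseIdx_perm j.2).map w).sum_eq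
      rw [List.map_cons, List.sum_cons] at h1
      rw [List.map_cons, List.sum_cons, ← h1, h0, add_zero]
      exact hj
    · rw [hA _ _ hj, mul_zero, zero_mul]

theorem pfL_deg (wt : α → ℕ) (A : α → α → PowerSeries R)
    (hA : ∀ a b k, wt a + wt b < k → PowerSeries.coeff k (A a b) = 0)
    (L : List α) (k : ℕ) (hk : (L.map wt).sum < k) : PowerSeries.coeff k (pfL A L) = 0 := by
  revert k
  refine pf_induction (fun L => ∀ k : ℕ, (L.map wt).sum < k →
    PowerSeries.coeff k (pfL A L) = 0) ?_ ?_ L
  · intro k hk
    rw [pfL_nil, PowerSeries.coeff_one, if_neg]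
    rw [List.map_nil, List.sum_nil] at hk
    omega
  · intro x xs ih k hk
    rw [pfL_cons, map_sum]
    refine Finset.sum_eq_zero fun j _ => ?_
    have h1 := ((List.getElem_cons_eraseIdx_perm j.2).map wt).sum_eq
    rw [List.map_cons, List.sum_cons] at h1
    rw [List.map_cons, List.sum_cons, ← h1] at hk
    have h2 : PowerSeries.coeff k (A x (xs.get j) * pfL A (xs.eraseIdx j)) = 0 := by
      rw [PowerSeries.coeff_mul]
      refine Finset.sum_eq_zero fun q hq => ?_
      rw [Finset.HasAntidiagonal.mem_antidiagonal] at hq
      by_cases hq1 : wt x + wt (xs.get j) < q.1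
      · rw [hA _ _ _ hq1, zero_mul]
      · rw [ih j q.2 ?_, mul_zero]
        have h3 : wt (xs.get j) = wt xs[(j : ℕ)] := rfl
        rw [h3] at hq1
        omega
    rw [mul_assoc]
    rcases neg_one_pow_eq_or (PowerSeries R) (j : ℕ) with h | h
    · rw [h, one_mul, h2]
    · rw [h, neg_one_mul, map_neg, h2, neg_zero]

end

end Pool.Agent.Helper90.MVD
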