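import Pool.Agent.Helper90.MVD.Fock
import Pool.Agent.Helper90.MVD.PfL

/-!
Module MVD-13 (project MV, block D2): Wick's theorem for strings of neutral fermions.

`vac (str L 1) = pfL zfF L`. Let `a m := cr m` for `m ≥ 0` and `a m := 0` for `m < 0` (creation part).
Then `φ_m 1 = a m 1`, `vac (a m x) = 0`, and `φ_n (a m y) = - a m (φ_n y) + zfF m n • y` for all
`m, n ∈ ℤ` (`m > 0`: `phi_phi`; `m = 0`: `φ_n` with `cr 0`: only `n = 0` contributes, `an 0 (cr 0 y) =
y - cr 0 (an 0 y)`, value `1 = zfF 0 0`; `m < 0`: both sides `0`).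
Claim (induction on the list `L`, `str (n :: L) = str L ∘ φ_n`):
`str L (a m y) = (-1)^|L| a m (str L y) + ∑_j (-1)^j zfF m (L_j) • str (L.eraseIdx j) y`.
Take `vac` with `y = 1` and use strong induction on the length.
-/

namespace Pool.Agent.Helper90.MVD

open Finset Pool.Agent.Helper60.MV

variable (F : Type) [Field F]

/-- creation part of `φ_m` -/
private noncomputable def aM (m : ℤ) : Fk F →ₗ[F] Fk F := if 0 ≤ m then cr F m.natAbs else 0

private theorem phi_one_aM (m : ℤ) : phi F m 1 = aM F m 1 := by
  rcases lt_trichotomy m 0 with h | h | h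
  · rw [phi_one_neg F m h, aM, if_neg (not_le.mpr h), LinearMap.zero_apply]
  · subst h
    rw [phi_zero, an_one, add_zero, aM, if_pos le_rfl, Int.natAbs_zero]
  · obtain ⟨k, rfl⟩ := Int.eq_ofNat_of_zero_le h.le
    have hk : 0 < k := by exact_mod_cast h
    rw [phi_pos F k hk, aM, if_pos h.le, Int.natAbs_natCast]

private theorem vac_aM (m : ℤ) (x : Fk F) : vac F (aM F m x) = 0 := by
  rw [aM]
  split_ifs
  · exact vac_cr F _ x
  · rw [LinearMap.zero_apply, map_zero]

private theorem phi_aM (m n : ℤ) (y : Fk F) :
    phi F n (aM F m y) = - aM F m (phi F n y) + zfF F m n • y := by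
  rcases lt_trichotomy m 0 with h | h | h
  · have h0 : zfF F m n = 0 := by
      rw [zfF]
      split_ifs with h1 h2 h3
      · omega
      · omega
      · rfl
      · rfl
    rw [aM, if_neg (not_le.mpr h), LinearMap.zero_apply, LinearMap.zero_apply, map_zero, h0,
      zero_smul, neg_zero, add_zero]
  · subst h
    rw [aM, if_pos le_rfl, Int.natAbs_zero]
    rcases lt_trichotomy n 0 with h | h | h
    · obtain ⟨k, hk⟩ := Int.eq_ofNat_of_zero_le (show 0 ≤ -n by omega)
      have hn : n = -(k : ℤ) := by
        rw [← hk]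
        ring
      have hk0 : 0 < k := by omega
      have h0 : zfF F 0 n = 0 := by
        rw [zfF, if_neg (by omega)]
      rw [h0, zero_smul, add_zero, hn, phi_neg F k hk0, phi_neg F k hk0, an_cr,
        if_neg (by omega), zero_sub, map_smul, smul_neg]
    · subst h
      have h0 : zfF F 0 0 = 1 := by
        rw [zfF, if_pos (by norm_num), if_pos rfl]
      rw [h0, one_smul, phi_zero, phi_zero, cr_cr_self, zero_add, an_cr, if_pos rfl, map_add,
        cr_cr_self, zero_add]
      abel
    · obtain ⟨k, rfl⟩ := Int.eq_ofNat_of_zero_le h.le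
      have hk0 : 0 < k := by exact_mod_cast h
      have h0 : zfF F 0 (k : ℤ) = 0 := by
        rw [zfF, if_neg (by omega)]
      rw [h0, zero_smul, add_zero, phi_pos F k hk0, phi_pos F k hk0, cr_cr]
  · obtain ⟨k, rfl⟩ := Int.eq_ofNat_of_zero_le h.le
    have hk0 : 0 < k := by exact_mod_cast h
    rw [aM, if_pos h.le, Int.natAbs_natCast, ← phi_pos F k hk0, ← phi_pos F k hk0,
      phi_phi F n (k : ℤ) y]
    have h0 : zfF F (k : ℤ) n = (if n + (k : ℤ) = 0 then 2 * (-1) ^ n.natAbs else 0 : F) := by
      rw [zfF]
      by_cases h1 : (k : ℤ) + n = 0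
      · rw [if_pos h1, if_neg (by omega), if_pos h, if_pos (by omega)]
        have h2 : (k : ℤ).natAbs = n.natAbs := by omega
        rw [h2]
      · rw [if_neg h1, if_neg (by omega)]
    rw [h0]
    abel

private theorem str_aM (m : ℤ) : ∀ (L : List ℤ) (y : Fk F),
    str F L (aM F m y) = ((-1) ^ L.length : F) • aM F m (str F L y) +
      ∑ j : Fin L.length, ((-1) ^ (j : ℕ) * zfF F m (L.get j)) • str F (L.eraseIdx j) y := by
  intro L
  induction L with
  | nil =>
    intro y
    simp [str]
  | cons n L ih =>
    intro y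
    have h1 : ∀ z, str F (n :: L) z = str F L (phi F n z) := fun z => rfl
    rw [h1, h1, phi_aM, map_add, map_neg, ih, map_smul]
    have h2 : ∑ j : Fin (n :: L).length, ((-1) ^ (j : ℕ) * zfF F m ((n :: L).get j)) •
          str F ((n :: L).eraseIdx j) y =
        zfF F m n • str F L y + ∑ j : Fin L.length, (-((-1) ^ (j : ℕ) * zfF F m (L.get j))) •
          str F (L.eraseIdx j) (phi F n y) := by
      rw [show (∑ j : Fin (n :: L).length, ((-1) ^ (j : ℕ) * zfF F m ((n :: L).get j)) •
          str F ((n :: L).eraseIdx j) y) = ∑ j : Fin (L.length + 1),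
            ((-1) ^ (j : ℕ) * zfF F m ((n :: L).get j)) • str F ((n :: L).eraseIdx j) y from rfl,
        Fin.sum_univ_succ]
      congr 1
      · rw [Fin.val_zero, pow_zero, one_mul]
        rfl
      · refine Finset.sum_congr rfl fun j _ => ?_
        have e1 : (n :: L).get j.succ = L.get j := rfl
        have e2 : (n :: L).eraseIdx (j.succ : ℕ) = n :: L.eraseIdx (j : ℕ) := by
          rw [Fin.val_succ]
          rfl
        rw [e1, e2, show str F (n :: L.eraseIdx (j : ℕ)) y = str F (L.eraseIdx (j : ℕ)) (phi F n y) from rfl,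
          Fin.val_succ, pow_succ]
        ring_nf
    rw [h2, List.length_cons, pow_succ]
    have h3 : ∑ j : Fin L.length, (-((-1) ^ (j : ℕ) * zfF F m (L.get j))) •
          str F (L.eraseIdx j) (phi F n y) = - ∑ j : Fin L.length,
            ((-1) ^ (j : ℕ) * zfF F m (L.get j)) • str F (L.eraseIdx j) (phi F n y) := by
      rw [← Finset.sum_neg_distrib]
      refine Finset.sum_congr rfl fun j _ => ?_
      rw [neg_smul]
    rw [h3, mul_neg_one, neg_smul]
    abel

theorem vac_str (L : List ℤ) : vac F (str F L 1) = pfL (zfF F) L := by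
  have key : ∀ n : ℕ, ∀ L : List ℤ, L.length < n → vac F (str F L 1) = pfL (zfF F) L := by
    intro n
    induction n with
    | zero =>
      intro L hL
      exact absurd hL (Nat.not_lt_zero _)
    | succ n ih =>
      intro L hL
      cases L with
      | nil =>
        rw [pfL_nil]
        exact vac_one F
      | cons x xs =>
        have h1 : str F (x :: xs) 1 = str F xs (phi F x 1) := rfl
        rw [h1, phi_one_aM, str_aM, map_add, map_smul, vac_aM, smul_zero, zero_add, map_sum,
          pfL_cons]
        refine Finset.sum_congr rfl fun j _ => ?_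
        rw [map_smul, smul_eq_mul, ih]
        rw [List.length_eraseIdx_of_lt j.2]
        rw [List.length_cons] at hL
        omega
  exact key (L.length + 1) L (Nat.lt_succ_self _)

theorem algebraMap_zf [Algebra ℝ F] (m n : ℤ) : algebraMap ℝ F (zf m n) = zfF F m n := by
  rw [zf, zfF]
  split_ifs
  · exact map_one _
  · rw [map_mul, map_pow, map_neg, map_one]
    congr 1
    exact map_ofNat (algebraMap ℝ F) 2
  · exact map_zero _
  · exact map_zero _

end Pool.Agent.Helper90.MVD
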