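import Pool.Agent.Helper90.MVD.Cur
import Pool.Agent.Helper90.MVD.WickS

/-!
Module MVD-14 (project MV, block D2): moving the currents to the left.

* `str_cur`: `φ_m J_j x = J_j φ_m x - φ_{m+2j+1} x` (`cur_phi`); induction on `L`
  (`str (n :: L) = str L ∘ φ_n`; `Fin.sum_univ_succ`; `(n :: L).set 0 y = y :: L`,
  `(n :: L).set (a+1) y = n :: L.set a y`).
* `vac_str_theta`: induction on the number of factors. First for `ρ = Fin r` (`Fin.prod_univ_succ`,
  `Θ (X j * f) = J j (Θ f)`), with `vac (J j y) = 0` (`vac_cur`, `j ≥ 0`):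
  `vac (str ms (J_k y)) = - ∑_a vac (str (ms + (2k+1) 1_a) y)`; the functions
  `f : Fin (r+1) → Fin l` are pairs `(f 0, f ∘ succ)` (`Fin.consEquiv`/`Fin.insertNthEquiv`,
  `Fintype.sum_equiv`, `Fintype.sum_prod_type`). Then a general `ρ` by `Fintype.equivFin ρ`
  (or use `Fintype.induction_empty_option`).
* `vac_bos`: `2 ((K i - 1)/2) + 1 = K i`; `(-1)^|ρ| = 1`; `vac_str`, `pfL_map`
  (`List.ofFn g = (List.finRange l).map g`), `algebraMap_zf`, `pfL_hom`, and the definitions of `XK`,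
  `asg`. Note `-(2 S_a) + asg = asg - 2 S_a`.
-/

namespace Pool.Agent.Helper90.MVD

open Finset Pool.Agent.Helper60.MV

variable {F : Type} [Field F] [CharZero F] {J : ℤ → Fk F →ₗ[F] Fk F}

theorem str_cur (hJ : IsCur F J) (j : ℤ) (L : List ℤ) (x : Fk F) :
    str F L (J j x) = J j (str F L x) -
      ∑ a : Fin L.length, str F (L.set a (L.get a + (2 * j + 1))) x := by
  induction L generalizing x with
  | nil =>
    simp [str]
  | cons n L ih =>
    have h1 : phi F n (J j x) = J j (phi F n x) - phi F (n + (2 * j + 1)) x := by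
      rw [cur_phi hJ]
      abel
    have h2 : ∀ (m : ℤ) (L' : List ℤ) (y : Fk F), str F (m :: L') y = str F L' (phi F m y) := by
      intro m L' y
      rfl
    rw [h2, h1, map_sub, ih, h2]
    have h3 : ∑ a : Fin (n :: L).length, str F ((n :: L).set a ((n :: L).get a + (2 * j + 1))) x =
        str F L (phi F (n + (2 * j + 1)) x) +
          ∑ a : Fin L.length, str F (L.set a (L.get a + (2 * j + 1))) (phi F n x) := by
      show ∑ a : Fin (L.length + 1), str F ((n :: L).set a ((n :: L).get a + (2 * j + 1))) x = _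
      rw [Fin.sum_univ_succ]
      rfl
    rw [h3]
    abel

omit [CharZero F] in
private theorem set_ofFn {l : ℕ} (ms : Fin l → ℤ) (a : Fin l) (c : ℤ) :
    (List.ofFn ms).set (a : ℕ) (ms a + c) = List.ofFn fun b => ms b + if a = b then c else 0 := by
  apply List.ext_getElem
  · simp
  · intro i h1 h2
    rw [List.getElem_set, List.getElem_ofFn, List.getElem_ofFn]
    by_cases h : (a : ℕ) = i
    · subst h
      simp
    · rw [if_neg h, if_neg, add_zero]
      intro hc
      exact h (congrArg Fin.val hc)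

/-- the same for lists given by a function -/
theorem str_cur_ofFn (hJ : IsCur F J) (j : ℤ) {l : ℕ} (ms : Fin l → ℤ) (x : Fk F) :
    str F (List.ofFn ms) (J j x) = J j (str F (List.ofFn ms) x) -
      ∑ a : Fin l, str F (List.ofFn fun b => ms b + if a = b then 2 * j + 1 else 0) x := by
  rw [str_cur hJ]
  congr 1
  refine Fintype.sum_equiv (finCongr List.length_ofFn) _ _ ?_
  intro a
  have h := set_ofFn ms (finCongr List.length_ofFn a) (2 * j + 1)
  rw [← h]
  have h2 : (List.ofFn ms).get a = ms (finCongr List.length_ofFn a) := by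
    rw [List.get_eq_getElem, List.getElem_ofFn]
    rfl
  rw [h2]
  rfl

private theorem vac_str_theta_fin (hJ : IsCur F J) {Θ : MvPolynomial ℕ F →ₗ[F] Fk F}
    (hΘ : IsTheta F J Θ) {l : ℕ} (r : ℕ) : ∀ (k : Fin r → ℕ) (ms : Fin l → ℤ),
    vac F (str F (List.ofFn ms) (Θ (∏ i, MvPolynomial.X (k i)))) =
      (-1) ^ r * ∑ f : Fin r → Fin l,
        vac F (str F (List.ofFn fun a => ms a + ∑ i, if f i = a then 2 * (k i : ℤ) + 1 else 0)
          1) := by
  induction r with
  | zero =>
    intro k ms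
    rw [Finset.univ_eq_empty, Finset.prod_empty, hΘ.one, pow_zero, one_mul]
    simp
  | succ r ih =>
    intro k ms
    rw [Fin.prod_univ_succ, hΘ.mul, str_cur_ofFn hJ, map_sub, vac_cur hJ _ (Int.natCast_nonneg _),
      zero_sub, map_sum]
    have h1 : ∀ a : Fin l, vac F (str F (List.ofFn fun b => ms b +
        if a = b then 2 * ((k 0 : ℕ) : ℤ) + 1 else 0) (Θ (∏ i : Fin r, MvPolynomial.X (k i.succ))))
        = (-1) ^ r * ∑ g : Fin r → Fin l, vac F (str F (List.ofFn fun b => ms b +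
          ∑ i : Fin (r + 1), if (Fin.cons a g : Fin (r + 1) → Fin l) i = b then
            2 * (k i : ℤ) + 1 else 0) 1) := by
      intro a
      rw [ih (fun i => k i.succ)]
      congr 1
      refine Finset.sum_congr rfl fun g _ => ?_
      congr 4
      funext b
      rw [Fin.sum_univ_succ, Fin.cons_zero, add_assoc]
      simp only [Fin.cons_succ]
    rw [Finset.sum_congr rfl fun a _ => h1 a, ← Finset.mul_sum, pow_succ]
    have h2 : ∑ a : Fin l, ∑ g : Fin r → Fin l, vac F (str F (List.ofFn fun b => ms b +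
          ∑ i : Fin (r + 1), if (Fin.cons a g : Fin (r + 1) → Fin l) i = b then
            2 * (k i : ℤ) + 1 else 0) 1) = ∑ f : Fin (r + 1) → Fin l,
        vac F (str F (List.ofFn fun a => ms a + ∑ i, if f i = a then 2 * (k i : ℤ) + 1 else 0)
          1) := by
      rw [← (Fin.consEquiv fun _ : Fin (r + 1) => Fin l).sum_comp, Fintype.sum_prod_type]
      rfl
    rw [h2]
    ring

theorem vac_str_theta (hJ : IsCur F J) {Θ : MvPolynomial ℕ F →ₗ[F] Fk F} (hΘ : IsTheta F J Θ)
    {ρ : Type} [Fintype ρ] [DecidableEq ρ] (k : ρ → ℕ) {l : ℕ} (ms : Fin l → ℤ) :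
    vac F (str F (List.ofFn ms) (Θ (∏ i, MvPolynomial.X (k i)))) =
      (-1) ^ (Fintype.card ρ) * ∑ f : ρ → Fin l,
        vac F (str F (List.ofFn fun a => ms a + ∑ i, if f i = a then 2 * (k i : ℤ) + 1 else 0)
          1) := by
  have e := Fintype.equivFin ρ
  have h1 := vac_str_theta_fin hJ hΘ (l := l) (Fintype.card ρ) (fun i => k (e.symm i)) ms
  have h2 : ∏ i : ρ, (MvPolynomial.X (k i) : MvPolynomial ℕ F) =
      ∏ i : Fin (Fintype.card ρ), MvPolynomial.X (k (e.symm i)) :=
    (e.symm.prod_comp fun i => (MvPolynomial.X (k i) : MvPolynomial ℕ F)).symm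
  rw [h2, h1]
  congr 1
  refine Fintype.sum_equiv (e.symm.arrowCongr (Equiv.refl (Fin l))) _ _ ?_
  intro f
  congr 4
  funext a
  congr 1
  rw [← e.symm.sum_comp]
  refine Finset.sum_congr rfl fun i _ => ?_
  simp

theorem vac_bos [Algebra ℝ F] (hJ : IsCur F J) {Θ : MvPolynomial ℕ F →ₗ[F] Fk F}
    (hΘ : IsTheta F J Θ) {ρ : Type} [Fintype ρ] (K : ρ → ℕ) (hK : ∀ i, Odd (K i))
    (hρ : Even (Fintype.card ρ)) (S : List ℕ) :
    vac F (str F (S.map fun n => -(2 * (n : ℤ))) (Θ (∏ i, MvPolynomial.X ((K i - 1) / 2)))) =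
      algebraMap ℝ F (XK K S) := by
  classical
  have h0 : (S.map fun n => -(2 * (n : ℤ))) =
      List.map (fun n : ℕ => -(2 * (n : ℤ))) S := by
    rw [bind_pure_comp, List.map_eq_map, List.map_map]
    rfl
  have h1 : List.map (fun n : ℕ => -(2 * (n : ℤ))) S =
      List.ofFn fun a : Fin S.length => -(2 * ((S.get a : ℕ) : ℤ)) := by
    conv_lhs => rw [← List.ofFn_get S]
    rw [List.map_ofFn]
    rfl
  rw [h0, h1, vac_str_theta hJ hΘ, hρ.neg_one_pow, one_mul, XK, map_sum]
  refine Finset.sum_congr rfl fun f _ => ?_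
  rw [vac_str, List.ofFn_eq_map, pfL_map, pfL_hom]
  congr 1
  funext a b
  rw [algebraMap_zf]
  have h2 : ∀ c : Fin S.length, -(2 * ((S.get c : ℕ) : ℤ)) +
      ∑ i, (if f i = c then 2 * (((K i - 1) / 2 : ℕ) : ℤ) + 1 else 0) =
        (asg K f c : ℤ) - 2 * ((S.get c : ℕ) : ℤ) := by
    intro c
    unfold asg
    rw [Nat.cast_sum, neg_add_eq_sub]
    congr 1
    refine Finset.sum_congr rfl fun i _ => ?_
    split_ifs
    · obtain ⟨m, hm⟩ := hK i
      omega
    · rfl
  rw [h2, h2]

/-- weight: `XK K S = 0` unless `2 ∑ S = ∑ K` -/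
theorem XK_eq_zero {ρ : Type} [Fintype ρ] (K : ρ → ℕ) (S : List ℕ)
    (h : ∑ i, K i ≠ 2 * S.sum) : XK K S = 0 := by
  classical
  rw [XK]
  refine Finset.sum_eq_zero fun f _ => ?_
  refine pfL_weight (fun a => (asg K f a : ℤ) - 2 * (S.get a : ℤ)) _ ?_ _ ?_
  · intro a b hab
    rw [zf, if_neg hab]
  · rw [← List.ofFn_eq_map, List.sum_ofFn, Finset.sum_sub_distrib, ← Finset.mul_sum]
    have h1 : ∑ a : Fin S.length, ((S.get a : ℕ) : ℤ) = (S.sum : ℤ) := by
      have h2 : ∑ a : Fin S.length, S.get a = S.sum := by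
        rw [← List.sum_ofFn, List.ofFn_get]
      rw [← h2, Nat.cast_sum]
    have h3 : ∑ a : Fin S.length, ((asg K f a : ℕ) : ℤ) = ((∑ i, K i : ℕ) : ℤ) := by
      rw [← Nat.cast_sum]
      congr 1
      unfold asg
      rw [Finset.sum_comm]
      refine Finset.sum_congr rfl fun i _ => ?_
      rw [Finset.sum_ite_eq, if_pos (Finset.mem_univ _)]
    rw [h1, h3]
    intro hc
    apply h
    omega

end Pool.Agent.Helper90.MVD
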