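import Pool.Agent.Helper90.MVD.Expand
import Pool.Agent.Helper90.MVD.WickJ
import Pool.Agent.Helper90.MVD.D25

/-!
Module MVD-16 (project MV, block D2): the value of `Λ_s ∘ Θ` on `∏ p_{K_i}`.

Let `x = Θ (∏_i X ((K i - 1)/2))`. The number `|ρ|` is even (`∑ K = 2E`, `K` odd). By `expand` (with a
large `B = 2 B'`, `B' > E`) `Λ x = ∑_{T ⊆ range B} vac (ans (sorted T) x) * Λ (prb (sorted T))`.
* If `T` contains an odd number: `Λ (prb _) = 0` (`IsLam.odd`).
* Otherwise `T = {2 n : n ∈ S'}`, `S' ⊆ range B'`; the decreasing list of `T` is the decreasing list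
  of `S'` times 2 (`Finset.sort` of an image under a strictly monotone map; e.g. both are the unique
  strictly decreasing list with these members: `List.eq_of_perm_of_sorted`), and
  `Λ (prb _) = pfL (AS D) (psl N ++ (sorted S').map inr)` (`IsLam.even`), which vanishes for `|S'|`
  odd (`pfL_odd`, `N` even) and is `G * (∏ cc) * aeval (pfL QQ (sorted S'))` (`pf_AS`) in general.
* For `|S'|` even let `S = S'.erase 0`. Then `sorted S' = dl S` (if `0 ∈ S'` then `|S|` is odd and `0`
  is the last entry; otherwise `S = S'` has even cardinality). The map `S' ↦ S` is a bijection from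
  the subsets of `range B'` of even cardinality to the subsets of `Icc 1 (B'-1)` (inverse: add `0`
  when `|S|` is odd). `∏ over dl S of cc = ∏_{a ∈ S} cc a` (`cc 0 = 1`).
* Coefficient: `vac_ans` (the list is strictly decreasing) and `(-1)^{2n} = 1`:
  `vac (ans (sorted T) x) = (1/2)^{|S|} vac (str (...-2n...) x) = (1/2)^{|S|} XK K (dl S)` (`vac_bos`).
* `XK K (dl S) = 0` unless `∑ S = E` (`XK_eq_zero`), and the subsets `S` of `Icc 1 (B'-1)` with sum `E`
  are exactly the members of `stp E` (`S ⊆ Icc 1 E`).
Sum up and compare with the definition of `Rpoly` (`∑ K / 2 = E`; `aeval` of `C`: `algebraMap`).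
-/

namespace Pool.Agent.Helper90.MVD

open Finset Pool.Agent.Helper60.MV Pool.Agent.Helper52.MVD

/-- decreasing list of the doubled set -/
theorem sort_double (S : Finset ℕ) :
    ((S.image fun n => 2 * n).sort (· ≥ ·)) = (S.sort (· ≥ ·)).map fun n => 2 * n := by
  have hinj : Function.Injective (fun n : ℕ => 2 * n) := fun a b h => by
    simp only at h
    omega
  have h1 := Finset.map_sort (⟨fun n => 2 * n, hinj⟩ : ℕ ↪ ℕ) S (· ≥ ·) (· ≥ ·)
    (fun a _ b _ => by
      simp only [Function.Embedding.coeFn_mk, ge_iff_le]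
      constructor <;> intro h <;> omega)
  rw [Finset.map_eq_image] at h1
  exact h1.symm

/-- `dl S` is the decreasing list of `S` (even) or `insert 0 S` (odd) -/
theorem dl_eq_sort (S : Finset ℕ) (h0 : 0 ∉ S) :
    dl S = ((if S.card % 2 = 0 then S else insert 0 S).sort (· ≥ ·)) := by
  unfold dl
  split_ifs with h
  · rw [List.append_nil]
  · have hnd : (S.sort (· ≥ ·) ++ [0]).Nodup := by
      rw [List.nodup_append]
      refine ⟨Finset.sort_nodup _ _, List.nodup_singleton _, ?_⟩
      intro a ha b hb
      rw [Finset.mem_sort] at ha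
      rw [List.mem_singleton] at hb
      subst hb
      intro hab
      subst hab
      exact h0 ha
    have hp : (S.sort (· ≥ ·) ++ [0]).Pairwise (· ≥ ·) := by
      rw [List.pairwise_append]
      refine ⟨Finset.pairwise_sort _ _, List.pairwise_singleton _ _, ?_⟩
      intro a _ b hb
      rw [List.mem_singleton] at hb
      subst hb
      exact Nat.zero_le a
    have h1 := (List.toFinset_sort (· ≥ ·) hnd).2 hp
    have h2 : (S.sort (· ≥ ·) ++ [0]).toFinset = insert 0 S := by
      ext a
      simp only [List.mem_toFinset, List.mem_append, Finset.mem_sort, List.mem_singleton,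
        Finset.mem_insert]
      tauto
    rw [h2] at h1
    exact h1.symm

private theorem prod_sort {M : Type} [CommMonoid M] (S : Finset ℕ) (f : ℕ → M) :
    ((S.sort (· ≥ ·)).map f).prod = ∏ a ∈ S, f a := by
  rw [← Multiset.prod_coe, ← Multiset.map_coe, Finset.sort_eq]
  rfl

private theorem sum_sort (S : Finset ℕ) : (S.sort (· ≥ ·)).sum = ∑ a ∈ S, a := by
  rw [← Multiset.sum_coe, Finset.sort_eq]
  simp

private theorem prod_dl {M : Type} [CommMonoid M] (S : Finset ℕ) (f : ℕ → M) (h0 : f 0 = 1) :
    ((dl S).map f).prod = ∏ a ∈ S, f a := by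
  unfold dl
  rw [List.map_append, List.prod_append, prod_sort]
  split_ifs <;> simp [h0]

private theorem sum_dl (S : Finset ℕ) : (dl S).sum = ∑ a ∈ S, a := by
  unfold dl
  rw [List.sum_append, sum_sort]
  split_ifs <;> simp

private def ins (S : Finset ℕ) : Finset ℕ := if S.card % 2 = 0 then S else insert 0 S

private theorem ins_erase {S : Finset ℕ} (h0 : 0 ∉ S) : (ins S).erase 0 = S := by
  unfold ins
  split_ifs
  · exact Finset.erase_eq_of_notMem h0
  · exact Finset.erase_insert h0

private theorem erase_ins {S : Finset ℕ} (hS : S.card % 2 = 0) : ins (S.erase 0) = S := by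
  unfold ins
  by_cases h : 0 ∈ S
  · have h1 := Finset.card_erase_of_mem h
    have h2 := Finset.card_pos.2 ⟨0, h⟩
    rw [if_neg (by omega)]
    exact Finset.insert_erase h
  · rw [Finset.erase_eq_of_notMem h, if_pos hS]

private theorem card_ins {S : Finset ℕ} (h0 : 0 ∉ S) : (ins S).card % 2 = 0 := by
  unfold ins
  split_ifs with h
  · exact h
  · rw [Finset.card_insert_of_notMem h0]
    omega

private theorem sort_gt (S : Finset ℕ) : (S.sort (· ≥ ·)).Pairwise (· > ·) := by
  have h1 : (S.sort (· ≥ ·)).Pairwise (· ≥ ·) := Finset.pairwise_sort _ _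
  have h2 : (S.sort (· ≥ ·)).Pairwise (· ≠ ·) := Finset.sort_nodup _ _
  exact (h1.and h2).imp (fun {a b} h => lt_of_le_of_ne h.1 (Ne.symm h.2))

theorem lam_bos {F : Type} [Field F] [CharZero F] [Algebra ℝ F] {N : ℕ} (D : DF F N)
    (hN : Even N) {J : ℤ → Fk F →ₗ[F] Fk F} (hJ : IsCur F J)
    {Θ : MvPolynomial ℕ F →ₗ[F] Fk F} (hΘ : IsTheta F J Θ)
    {Λ : Fk F →ₗ[F] F} (hΛ : IsLam D Λ)
    {ρ : Type} [Fintype ρ] (K : ρ → ℕ) (hK : ∀ i, Odd (K i)) (E : ℕ) (hE : ∑ i, K i = 2 * E) :
    Λ (Θ (∏ i, MvPolynomial.X ((K i - 1) / 2))) =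
      D.G * MvPolynomial.aeval (tval D.s) (Rpoly K) := by
  classical
  have hρ : Even (Fintype.card ρ) := by
    have h1 : ∀ i, ∃ k, K i = 2 * k + 1 := fun i => hK i
    choose k hk using h1
    have h2 : ∑ i, K i = 2 * ∑ i, k i + Fintype.card ρ := by
      rw [Finset.sum_congr rfl fun i _ => hk i, Finset.sum_add_distrib, Finset.mul_sum]
      simp
    exact ⟨E - ∑ i, k i, by omega⟩
  set x : Fk F := Θ (∏ i, MvPolynomial.X ((K i - 1) / 2)) with hxdef
  obtain ⟨B₀, hB₀⟩ := expand F x
  set B' : ℕ := B₀ + E + 1 with hB'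
  have hx := hB₀ (2 * B') (by omega)
  set t : Finset ℕ → F := fun T =>
    vac F (ans F (T.sort (· ≥ ·)) x) * Λ (prb F (T.sort (· ≥ ·))) with ht
  have h1 : Λ x = ∑ T ∈ (range (2 * B')).powerset, t T := by
    have h2 := congrArg Λ hx
    rw [h2, map_sum]
    refine Finset.sum_congr rfl fun T _ => ?_
    rw [map_smul, smul_eq_mul]
  -- step 1
  have hdbl : Function.Injective (fun n : ℕ => 2 * n) := fun a b h => by
    simp only at h
    omega
  have hinj1 : Function.Injective (fun S' : Finset ℕ => S'.image fun n => 2 * n) :=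
    Finset.image_injective hdbl
  have h3 : ∑ T ∈ (range (2 * B')).powerset, t T =
      ∑ S' ∈ (range B').powerset, t (S'.image fun n => 2 * n) := by
    rw [← Finset.sum_image (f := t) (g := fun S' : Finset ℕ => S'.image fun n => 2 * n)
      (s := (range B').powerset) (fun a _ b _ hab => hinj1 hab)]
    symm
    refine Finset.sum_subset ?_ ?_
    · intro T hT
      obtain ⟨S', hS', rfl⟩ := Finset.mem_image.1 hT
      rw [Finset.mem_powerset] at hS' ⊢
      intro a ha
      obtain ⟨b, hb, rfl⟩ := Finset.mem_image.1 ha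
      have := Finset.mem_range.1 (hS' hb)
      rw [Finset.mem_range]
      omega
    · intro T hT hT2
      have h4 : ∃ n ∈ T, Odd n := by
        by_contra hcon
        push Not at hcon
        apply hT2
        rw [Finset.mem_image]
        refine ⟨T.image (fun n => n / 2), ?_, ?_⟩
        · rw [Finset.mem_powerset] at hT ⊢
          intro a ha
          obtain ⟨b, hb, rfl⟩ := Finset.mem_image.1 ha
          have := Finset.mem_range.1 (hT hb)
          rw [Finset.mem_range]
          omega
        · rw [Finset.image_image]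
          refine (Finset.image_congr (g := id) ?_).trans Finset.image_id
          intro n hn
          have h5 := hcon n hn
          rw [Nat.not_odd_iff_even] at h5
          obtain ⟨k, hk⟩ := h5
          simp only [Function.comp_apply, id_eq]
          omega
      obtain ⟨n, hn, hno⟩ := h4
      rw [ht]
      simp only
      rw [hΛ.odd _ ⟨n, by rw [Finset.mem_sort]; exact hn, hno⟩, mul_zero]
  -- values of `Λ`
  have hval : ∀ S' : Finset ℕ, Λ (prb F ((S'.image fun n => 2 * n).sort (· ≥ ·))) =
      pfL (AS D) (psl N ++ (S'.sort (· ≥ ·)).map Sum.inr) := by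
    intro S'
    rw [sort_double, hΛ.even]
  have hodd : ∀ S' : Finset ℕ, S'.card % 2 ≠ 0 → t (S'.image fun n => 2 * n) = 0 := by
    intro S' hS'
    rw [ht]
    simp only
    rw [hval, pfL_odd, mul_zero]
    rw [List.length_append, List.length_map, Finset.length_sort]
    unfold psl
    rw [List.length_ofFn]
    rw [Nat.odd_iff]
    rw [Nat.even_iff] at hN
    omega
  -- step 2
  have hno0 : ∀ S ∈ (Icc 1 (B' - 1)).powerset, 0 ∉ S := by
    intro S hS h0
    rw [Finset.mem_powerset] at hS
    have := Finset.mem_Icc.1 (hS h0)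
    omega
  have h6 : ∑ S' ∈ (range B').powerset, t (S'.image fun n => 2 * n) =
      ∑ S ∈ (Icc 1 (B' - 1)).powerset, t ((ins S).image fun n => 2 * n) := by
    rw [← Finset.sum_image (f := fun S' : Finset ℕ => t (S'.image fun n => 2 * n)) (g := ins)
      (s := (Icc 1 (B' - 1)).powerset) (fun a ha b hb hab => by
        rw [← ins_erase (hno0 a ha), ← ins_erase (hno0 b hb), hab])]
    symm
    refine Finset.sum_subset ?_ ?_
    · intro T hT
      obtain ⟨S, hS, rfl⟩ := Finset.mem_image.1 hT
      rw [Finset.mem_powerset] at hS ⊢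
      intro a ha
      unfold ins at ha
      rw [Finset.mem_range]
      split_ifs at ha with hc
      · have := Finset.mem_Icc.1 (hS ha)
        omega
      · rcases Finset.mem_insert.1 ha with ha | ha
        · omega
        · have := Finset.mem_Icc.1 (hS ha)
          omega
    · intro T hT hT2
      refine hodd T fun hcard => hT2 ?_
      rw [Finset.mem_image]
      refine ⟨T.erase 0, ?_, erase_ins hcard⟩
      rw [Finset.mem_powerset] at hT ⊢
      intro a ha
      rw [Finset.mem_erase] at ha
      have := Finset.mem_range.1 (hT ha.2)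
      rw [Finset.mem_Icc]
      omega
  -- the terms
  have hterm : ∀ S ∈ (Icc 1 (B' - 1)).powerset, t ((ins S).image fun n => 2 * n) =
      ((1 / 2 : F) ^ S.card * algebraMap ℝ F (XK K (dl S))) *
        (D.G * (∏ a ∈ S, algebraMap ℝ F (cc a)) *
          MvPolynomial.aeval (tval D.s) (pfL QQ (dl S))) := by
    intro S hS
    have h0 := hno0 S hS
    have hdl : dl S = (ins S).sort (· ≥ ·) := dl_eq_sort S h0
    have hdgt : (dl S).Pairwise (· > ·) := by
      rw [hdl]
      exact sort_gt _
    rw [ht]
    simp only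
    rw [hval, ← hdl, pf_AS D hN _ hdgt, sort_double, ← hdl, vac_ans]
    · rw [prod_dl S _ (by rw [cc, Finset.prod_range_zero, map_one])]
      congr 1
      have hco : ∀ L : List ℕ, ((do
          let a ← L
          pure ((a : ℕ) : ℤ)) : List ℤ) = L.map (fun a : ℕ => (a : ℤ)) := fun L =>
        (List.map_eq_flatMap).symm
      have h13 := vac_bos hJ hΘ K hK hρ (dl S)
      rw [hco, List.map_map] at h13
      have h7 : (List.map (fun t : ℤ => -t) (((dl S).map fun n => 2 * n).map
          (fun a : ℕ => (a : ℤ)))) =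
          (dl S).map ((fun n : ℤ => -(2 * n)) ∘ (fun a : ℕ => (a : ℤ))) := by
        rw [List.map_map, List.map_map]
        refine List.map_congr_left fun n _ => ?_
        simp only [Function.comp_apply]
        push_cast
        ring
      rw [hco, h7, hxdef, h13, List.map_map,
        prod_dl S _ (by simp)]
      congr 1
      have h8 : ∀ a ∈ S, ((fun t : ℕ => if t = 0 then (1 : F) else (1 / 2) * (-1) ^ t) ∘
          fun n => 2 * n) a = 1 / 2 := by
        intro a ha
        have ha0 : a ≠ 0 := fun h => h0 (h ▸ ha)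
        simp only [Function.comp_apply]
        rw [if_neg (by omega), pow_mul, neg_one_sq, one_pow, mul_one]
      rw [Finset.prod_congr rfl h8, Finset.prod_const]
    · rw [List.pairwise_map]
      refine hdgt.imp ?_
      intro a b hab
      omega
  -- step 3
  have hE2 : (∑ i, K i) / 2 = E := by omega
  have h9 : ∑ S ∈ (Icc 1 (B' - 1)).powerset, t ((ins S).image fun n => 2 * n) =
      ∑ S ∈ stp E, t ((ins S).image fun n => 2 * n) := by
    symm
    have hsub : stp E ⊆ (Icc 1 (B' - 1)).powerset := by
      intro S hS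
      unfold stp at hS
      rw [Finset.mem_filter, Finset.mem_powerset] at hS
      rw [Finset.mem_powerset]
      intro a ha
      have := Finset.mem_Icc.1 (hS.1 ha)
      rw [Finset.mem_Icc]
      omega
    refine Finset.sum_subset hsub ?_
    intro S hS hS2
    rw [hterm S hS, XK_eq_zero, map_zero, mul_zero, zero_mul]
    intro hsum
    rw [sum_dl, hE] at hsum
    apply hS2
    unfold stp
    rw [Finset.mem_filter, Finset.mem_powerset]
    have hsE : ∑ a ∈ S, a = E := by omega
    refine ⟨?_, hsE⟩
    intro a ha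
    rw [Finset.mem_powerset] at hS
    have h10 := Finset.mem_Icc.1 (hS ha)
    have h11 : a ≤ ∑ a ∈ S, a := Finset.single_le_sum (f := fun a => a)
      (fun _ _ => Nat.zero_le _) ha
    rw [Finset.mem_Icc]
    omega
  rw [h1, h3, h6, h9]
  unfold Rpoly
  rw [hE2, map_sum, Finset.mul_sum]
  refine Finset.sum_congr rfl fun S hS => ?_
  have hsub : S ∈ (Icc 1 (B' - 1)).powerset := by
    unfold stp at hS
    rw [Finset.mem_filter, Finset.mem_powerset] at hS
    rw [Finset.mem_powerset]
    intro a ha
    have := Finset.mem_Icc.1 (hS.1 ha)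
    rw [Finset.mem_Icc]
    omega
  rw [hterm S hsub, map_mul, MvPolynomial.aeval_C, map_mul, map_mul, map_pow, map_prod]
  have h12 : algebraMap ℝ F (1 / 2) = 1 / 2 := by
    rw [map_div₀, map_one, map_ofNat]
  rw [h12]
  ring

end Pool.Agent.Helper90.MVD
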