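import Pool.Agent.Helper90.MVD.Heis

/-!
Module MVD-12 (project MV, block D2): bosonisation `Θ`.

`Θ (∏ X_j) = ∏ J_j 1`. The operators `J_j` (`j ≥ 0`) commute (`cur_comm`). Construction of the linear
map with `Θ 1 = 1`, `Θ (X j * f) = J j (Θ f)`: the subalgebra `Algebra.adjoin F {J j}` of
`Module.End F (Fk F)` is commutative (`Algebra.adjoinCommRingOfComm`), `MvPolynomial.aeval` into it,
then apply to the vector `1`. (Or on the basis of monomials with `Finset.noncommProd` / lists.)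
`der`: `((2j+1)/2) Θ (∂_j f) = J_{-j-1} (Θ f)` by `MvPolynomial.induction_on`: constants: `cur_one`;
sums; `f * X i` (`= X i * f`): `∂_j (X i f) = δ_ij f + X i ∂_j f` and `cur_heis`:
`J_{-j-1} J_i Θ f = J_i J_{-j-1} Θ f + δ_ij (2i+1)/2 Θ f`.
-/

namespace Pool.Agent.Helper90.MVD

open Finset Pool.Agent.Helper60.MV

variable {F : Type} [Field F] [CharZero F] {J : ℤ → Fk F →ₗ[F] Fk F}

private theorem exists_alg (hJ : IsCur F J) :
    ∃ φ : MvPolynomial ℕ F →ₗ[F] Module.End F (Fk F), φ 1 = 1 ∧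
      ∀ (j : ℕ) f, φ (MvPolynomial.X j * f) = (J j : Module.End F (Fk F)) * φ f := by
  have hcomm : ∀ a ∈ Set.range (fun j : ℕ => (J j : Module.End F (Fk F))),
      ∀ b ∈ Set.range (fun j : ℕ => (J j : Module.End F (Fk F))), a * b = b * a := by
    rintro _ ⟨i, rfl⟩ _ ⟨j, rfl⟩
    apply LinearMap.ext
    intro x
    exact cur_comm hJ i j (Int.natCast_nonneg _) (Int.natCast_nonneg _) x
  let _ : CommRing (Algebra.adjoin F (Set.range (fun j : ℕ => (J j : Module.End F (Fk F))))) :=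
    Algebra.adjoinCommRingOfComm F hcomm
  let ψ : MvPolynomial ℕ F →ₐ[F]
      (Algebra.adjoin F (Set.range (fun j : ℕ => (J j : Module.End F (Fk F))))) :=
    MvPolynomial.aeval (fun j : ℕ => ⟨(J j : Module.End F (Fk F)),
      Algebra.subset_adjoin ⟨j, rfl⟩⟩)
  refine ⟨((Algebra.adjoin F (Set.range
    (fun j : ℕ => (J j : Module.End F (Fk F))))).val.toLinearMap).comp ψ.toLinearMap, ?_, ?_⟩
  · simp
  · intro j f
    simp only [LinearMap.comp_apply, AlgHom.toLinearMap_apply, map_mul]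
    congr 1
    simp [ψ]

theorem exists_theta (hJ : IsCur F J) : ∃ Θ : MvPolynomial ℕ F →ₗ[F] Fk F, IsTheta F J Θ := by
  obtain ⟨φ, h1, h2⟩ := exists_alg hJ
  let Θ : MvPolynomial ℕ F →ₗ[F] Fk F := (LinearMap.applyₗ (1 : Fk F)).comp φ
  have hΘ : ∀ f, Θ f = φ f 1 := fun f => rfl
  have hone : Θ 1 = 1 := by rw [hΘ, h1]; rfl
  have hmul : ∀ (j : ℕ) f, Θ (MvPolynomial.X j * f) = J j (Θ f) := by
    intro j f
    rw [hΘ, h2, hΘ]
    rfl
  refine ⟨Θ, hone, hmul, ?_⟩
  intro j f
  induction f using MvPolynomial.induction_on with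
  | C a =>
    have hC : Θ (MvPolynomial.C a) = a • (1 : Fk F) := by
      rw [← mul_one (MvPolynomial.C a), ← MvPolynomial.smul_eq_C_mul, map_smul, hone]
    rw [MvPolynomial.pderiv_C, map_zero, smul_zero, hC, map_smul, cur_one hJ _ (by omega),
      smul_zero]
  | add p q hp hq => rw [map_add, map_add, map_add, map_add, smul_add, hp, hq]
  | mul_X p i hp =>
    rw [mul_comm p, MvPolynomial.pderiv_mul, map_add, hmul, hmul, cur_heis hJ, smul_add, ← hp,
      MvPolynomial.pderiv_X, map_smul, add_comm]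
    congr 1
    by_cases hij : j = i
    · subst hij
      simp
    · rw [if_neg hij, Pi.single_eq_of_ne (Ne.symm hij), zero_mul, map_zero, smul_zero, zero_smul]

end Pool.Agent.Helper90.MVD
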