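import Pool.Agent.Helper90.MVD.D23
import Pool.Agent.Helper90.MVD.ExpK
import Pool.Agent.Helper90.MVD.Theta

/-!
Module MVD-23 (project MV, block D2): the block theorem.

`L f := Λ (Θ (MvPolynomial.map (algebraMap ℝ F) f))`.
* `IsSol.one`: `lam_one`, `pf_psl`.
* `IsSol.eq`: `x := Θ (map f)` (a real vector, `Rl.theta`). `L (X j * f) = Λ (J_j x)` (`IsTheta.mul`),
  `((2j+1)/2) • An _ (L (∂_j f)) = An _ (Λ (J_{-j-1} x))` (`IsTheta.der`, `MvPolynomial.pderiv_map`,
  `ℝ`-linearity of `An` and the scalar `(2j+1)/2 ∈ ℝ`). In `D23`, `m = ν - j` for `j ≤ ν` and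
  `m = ν + j + 1` for `j ≥ 0` (`J_{ν-m} = J_{-j-1}`); the terms with `j ∉ f.vars` vanish since
  `∂_j f = 0` (`MvPolynomial.pderiv_eq_zero_of_notMem_vars`).
* values: `map (bos K) = ∏ X ((K i - 1)/2)` and `lam_bos`.
-/

namespace Pool.Agent.Helper90.MVD

open Finset Pool.Agent.Helper60.MV Pool.Agent.Helper52.MVD

theorem D2main {F : Type} [Field F] [Algebra ℝ F] {N : ℕ} (D : DF F N) (hN : Even N) :
    ∃ L : MvPolynomial ℕ ℝ →ₗ[ℝ] F, D.IsSol L ∧
    ∀ {ρ : Type} [Fintype ρ] (K : ρ → ℕ) (_ : ∀ i, Odd (K i)) (E : ℕ) (_ : ∑ i, K i = 2 * E),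
      L (bos K) = D.G * MvPolynomial.aeval (tval D.s) (Rpoly K) := by
  have : CharZero F := charZero_of_real F
  obtain ⟨J, hJ⟩ := exists_cur F
  obtain ⟨Θ, hΘ⟩ := exists_theta hJ
  obtain ⟨Λ, hΛ⟩ := exists_lam D
  let L : MvPolynomial ℕ ℝ →ₗ[ℝ] F :=
    { toFun := fun f => Λ (Θ (MvPolynomial.map (algebraMap ℝ F) f))
      map_add' := fun f g => by simp only [map_add]
      map_smul' := fun a f => by
        rw [MvPolynomial.smul_eq_C_mul, map_mul, MvPolynomial.map_C, ← MvPolynomial.smul_eq_C_mul,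
          map_smul, map_smul, smul_eq_mul, RingHom.id_apply, Algebra.smul_def] }
  have hL : ∀ f, L f = Λ (Θ (MvPolynomial.map (algebraMap ℝ F) f)) := fun f => rfl
  refine ⟨L, ⟨?_, ?_⟩, ?_⟩
  · rw [hL, map_one, hΘ.one, lam_one hΛ, pf_psl D hN]
  · intro ν f
    set x : Fk F := Θ (MvPolynomial.map (algebraMap ℝ F) f) with hx
    obtain ⟨B₀, hB₀⟩ := D23 hN hΛ hJ ν x (Rl.theta hJ hΘ f)
    have h1 : ∀ j : ℕ, L (MvPolynomial.X j * f) = Λ (J j x) := fun j => by
      rw [hL, map_mul, MvPolynomial.map_X, hΘ.mul]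
    have h2 : ∀ j : ℕ, ((2 * (j : ℝ) + 1) / 2) • L (MvPolynomial.pderiv j f) =
        Λ (J (-(j : ℤ) - 1) x) := fun j => by
      rw [← hΘ.der, map_smul, MvPolynomial.pderiv_map, ← hL, Algebra.smul_def, smul_eq_mul]
      congr 1
      simp [map_ofNat]
    have h2' : ∀ (j m : ℕ), ((2 * (j : ℝ) + 1) / 2) • D.An m (L (MvPolynomial.pderiv j f)) =
        D.An m (Λ (J (-(j : ℤ) - 1) x)) := fun j m => by
      rw [← h2, map_smul]
    have h3 : ∀ j : ℕ, j ∉ f.vars → Λ (J (-(j : ℤ) - 1) x) = 0 := fun j hj => by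
      rw [← h2, MvPolynomial.pderiv_eq_zero_of_notMem_vars hj, map_zero, smul_zero]
    -- choose a large bound
    obtain ⟨V, hV⟩ : ∃ V : ℕ, ∀ j ∈ f.vars, j < V := by
      refine ⟨f.vars.sup id + 1, fun j hj => ?_⟩
      have := Finset.le_sup (f := id) hj
      simp only [id] at this
      omega
    have hB := hB₀ (ν + 1 + (V + B₀)) (by omega)
    rw [Finset.sum_range_add] at hB
    rw [← hB]
    congr 1
    · rw [← Finset.sum_range_reflect]
      refine Finset.sum_congr rfl fun j hj => ?_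
      rw [Finset.mem_range] at hj
      rw [h1]
      have e1 : ν + 1 - 1 - j = ν - j := by omega
      have e2 : ν - (ν + 1 - 1 - j) = j := by omega
      have e3 : ((ν - j : ℕ) : ℤ) = (ν : ℤ) - j := by omega
      rw [e2, e1, e3]
    · have e3 : ∑ j ∈ f.vars, ((2 * (j : ℝ) + 1) / 2) • D.An (ν + j + 1)
          (L (MvPolynomial.pderiv j f)) =
          ∑ j ∈ f.vars, D.An (ν + j + 1) (Λ (J (-(j : ℤ) - 1) x)) :=
        Finset.sum_congr rfl fun j _ => h2' j _
      rw [e3]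
      have e4 : f.vars ⊆ range (V + B₀) := fun j hj => by
        rw [Finset.mem_range]
        have := hV j hj
        omega
      rw [Finset.sum_subset e4 (fun j _ hj => by rw [h3 j hj, map_zero])]
      refine Finset.sum_congr rfl fun j _ => ?_
      have e5 : ν + j + 1 = ν + 1 + j := by omega
      rw [e5]
      congr 4
      push_cast
      ring
  · intro ρ _ K hK E hE
    have e1 : MvPolynomial.map (algebraMap ℝ F) (bos K) =
        ∏ i, MvPolynomial.X ((K i - 1) / 2) := by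
      rw [bos, map_prod]
      refine Finset.prod_congr rfl fun i _ => ?_
      rw [MvPolynomial.map_X]
    rw [hL, e1]
    exact lam_bos D hN hJ hΘ hΛ K hK E hE

end Pool.Agent.Helper90.MVD
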