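import Pool.Agent.Helper90.MVD.OpA
import Pool.Agent.Helper90.MVD.PfL

/-!
Module MVD-19 (project MV, block D2): the operators act on the entries of a Pfaffian.

Every letter `a` has a variable `v a : Option (Fin N)`; the entry `A a b` only depends on the
variables of `a` and `b` (hypothesis `hc`), the variables of the list are distinct. Then applying all
`𝒜_i` (`i` in the list) to `pfL A L` gives `pfL A' L`, `A' a b = op a (op b (A a b))`.

Proof by strong induction on the length. `L = x :: xs`: `pfL A L = ∑_j ± A x x_j * P_j`,
`P_j = pfL A (xs.eraseIdx j)`. Write `opsL L` for the iterated operator of a list. It only depends on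
the list up to permutation (`act_AA_comm`; `List.Perm.foldr_eq` or an own induction), and it is
additive (`act_add`), and commutes with signs, so
`opsL L (A x x_j * P_j) = op x (op x_j (opsL rest (A x x_j * P_j)))`, `rest = xs.eraseIdx j`.
`A x x_j` is constant for the variables of `rest` (`hc` and distinctness), so (`act_AA_cst`)
`opsL rest (A x x_j * P_j) = A x x_j * opsL rest P_j = A x x_j * pfL A' rest` by induction. And
`pfL A' rest` is constant for the variables of `x` and `x_j`: every entry `A' a b`, `a, b ∈ rest`, is
(`cst_act`: `d k` commutes with the operators of the other variables; `Cst.mul`, `Cst.sum`). So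
`op x (op x_j (A x x_j * Q)) = A' x x_j * Q` (commutativity of the product).
-/

namespace Pool.Agent.Helper90.MVD

open Finset Pool.Agent.Helper60.MV Pool.Agent.Helper52.MVD

variable {F : Type} [Field F] [Algebra ℝ F] {N : ℕ} (D : DF F N)

/-- operator of a variable -/
noncomputable def opv (v : Option (Fin N)) (g : PowerSeries F) : PowerSeries F :=
  match v with
  | some i => act (D.AA i) g
  | none => g

private theorem opv_add (v : Option (Fin N)) (g h : PowerSeries F) :
    opv D v (g + h) = opv D v g + opv D v h := by
  cases v with
  | none => rfl
  | some i => exact act_add _ g h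

private theorem opv_zero (v : Option (Fin N)) : opv D v 0 = 0 := by
  cases v with
  | none => rfl
  | some i => exact act_zero _

private theorem opv_comm (v w : Option (Fin N)) (g : PowerSeries F) :
    opv D v (opv D w g) = opv D w (opv D v g) := by
  cases v with
  | none => rfl
  | some i =>
    cases w with
    | none => rfl
    | some j => exact act_AA_comm D i j g

private theorem opv_cst (v : Option (Fin N)) (g h : PowerSeries F)
    (hg : ∀ k, v = some k → Cst D k g) : opv D v (g * h) = g * opv D v h := by
  cases v with
  | none => rfl
  | some i => exact act_AA_cst D i g h (hg i rfl)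

private theorem cst_opv (v : Option (Fin N)) (k : Fin N) (hv : v ≠ some k) (g : PowerSeries F)
    (hg : Cst D k g) : Cst D k (opv D v g) := by
  cases v with
  | none => exact hg
  | some i => exact cst_act D i k (fun h => hv (by rw [h])) g hg

/-- iterated operator of a list of letters -/
private noncomputable def ops {α : Type} (v : α → Option (Fin N)) (L : List α)
    (g : PowerSeries F) : PowerSeries F :=
  L.foldr (fun a g => opv D (v a) g) g

private theorem ops_eq {α : Type} (v : α → Option (Fin N)) (L : List α) (g : PowerSeries F) :
    (L.filterMap v).foldr (fun i g => act (D.AA i) g) g = ops D v L g := by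
  induction L with
  | nil => rfl
  | cons a L ih =>
    unfold ops at ih ⊢
    rw [List.foldr_cons, ← ih]
    cases h : v a with
    | none => rw [List.filterMap_cons_none h]; rfl
    | some i => rw [List.filterMap_cons_some h]; rfl

private theorem ops_add {α : Type} (v : α → Option (Fin N)) (L : List α) (g h : PowerSeries F) :
    ops D v L (g + h) = ops D v L g + ops D v L h := by
  induction L with
  | nil => rfl
  | cons a L ih =>
    have e : ∀ x, ops D v (a :: L) x = opv D (v a) (ops D v L x) := fun x => rfl
    rw [e, e, e, ih, opv_add]

private theorem ops_zero {α : Type} (v : α → Option (Fin N)) (L : List α) :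
    ops D v L 0 = 0 := by
  induction L with
  | nil => rfl
  | cons a L ih =>
    have e : ∀ x, ops D v (a :: L) x = opv D (v a) (ops D v L x) := fun x => rfl
    rw [e, ih, opv_zero]

private theorem ops_sum {α β : Type} (v : α → Option (Fin N)) (L : List α) (s : Finset β)
    (g : β → PowerSeries F) : ops D v L (∑ b ∈ s, g b) = ∑ b ∈ s, ops D v L (g b) := by
  classical
  induction s using Finset.induction_on with
  | empty => rw [Finset.sum_empty, Finset.sum_empty, ops_zero]
  | insert b s hb ih => rw [Finset.sum_insert hb, Finset.sum_insert hb, ops_add, ih]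

private theorem ops_perm {α : Type} (v : α → Option (Fin N)) {L L' : List α} (h : L.Perm L')
    (g : PowerSeries F) : ops D v L g = ops D v L' g := by
  unfold ops
  have : LeftCommutative (fun (a : α) (g : PowerSeries F) => opv D (v a) g) :=
    ⟨fun a b g => opv_comm D (v a) (v b) g⟩
  exact h.foldr_eq g

private theorem ops_cst {α : Type} (v : α → Option (Fin N)) (L : List α) (g h : PowerSeries F)
    (hg : ∀ a ∈ L, ∀ k, v a = some k → Cst D k g) : ops D v L (g * h) = g * ops D v L h := by
  induction L with
  | nil => rfl
  | cons a L ih =>
    have e : ∀ x, ops D v (a :: L) x = opv D (v a) (ops D v L x) := fun x => rfl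
    rw [e, e, ih (fun b hb => hg b (List.mem_cons_of_mem _ hb)),
      opv_cst D (v a) _ _ (hg a List.mem_cons_self)]

private theorem cst_one (k : Fin N) : Cst D k (1 : PowerSeries F) := by
  have := Cst.X_pow (F := F) D k 0
  rwa [pow_zero] at this

private theorem cst_sign (k : Fin N) (j : ℕ) : Cst D k ((-1) ^ j : PowerSeries F) := by
  induction j with
  | zero => rw [pow_zero]; exact cst_one D k
  | succ j ih => rw [pow_succ]; exact Cst.mul D ih (Cst.neg D (cst_one D k))

private theorem cst_pfL {α : Type} (A : α → α → PowerSeries F) (k : Fin N) (L : List α)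
    (h : L.Pairwise fun a b => Cst D k (A a b)) : Cst D k (pfL A L) := by
  induction hn : L.length using Nat.strong_induction_on generalizing L with
  | _ n ih =>
    cases L with
    | nil => rw [pfL_nil]; exact cst_one D k
    | cons x xs =>
      rw [pfL_cons]
      rw [List.pairwise_cons] at h
      refine Cst.sum D _ _ fun j _ => ?_
      refine Cst.mul D (Cst.mul D (cst_sign D k j) (h.1 _ (List.get_mem xs j))) ?_
      refine ih _ ?_ _ (h.2.sublist (List.eraseIdx_sublist xs j)) rfl
      rw [List.length_eraseIdx_of_lt j.2, ← hn, List.length_cons]
      omega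

private theorem ne_of_nodup {α : Type} (v : α → Option (Fin N)) {a b : α} {l : List α}
    (h : ((a :: l).filterMap v).Nodup) (hb : b ∈ l) {k : Fin N} (hk : v b = some k) :
    v a ≠ some k := by
  intro ha
  rw [List.filterMap_cons_some ha, List.nodup_cons] at h
  exact h.1 (List.mem_filterMap.2 ⟨b, hb, hk⟩)

theorem act_pfL {α : Type} (v : α → Option (Fin N)) (A A' : α → α → PowerSeries F)
    (hc : ∀ a b k, v a ≠ some k → v b ≠ some k → Cst D k (A a b))
    (L : List α) (hnd : (L.filterMap v).Nodup)
    (hA : L.Pairwise fun a b => A' a b = opv D (v a) (opv D (v b) (A a b))) :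
    (L.filterMap v).foldr (fun i g => act (D.AA i) g) (pfL A L) = pfL A' L := by
  rw [ops_eq]
  induction hn : L.length using Nat.strong_induction_on generalizing L with
  | _ n ih =>
    cases L with
    | nil => rw [pfL_nil, pfL_nil]; rfl
    | cons x xs =>
      rw [pfL_cons, pfL_cons, ops_sum]
      refine Finset.sum_congr rfl fun j _ => ?_
      have hperm : (x :: xs).Perm (x :: xs.get j :: xs.eraseIdx j) := by
        refine List.Perm.cons x ?_
        have := List.getElem_cons_eraseIdx_perm (l := xs) (n := (j : ℕ)) j.2
        exact this.symm
      have hnd2 : ((x :: xs.get j :: xs.eraseIdx j).filterMap v).Nodup :=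
        (hperm.filterMap v).nodup_iff.1 hnd
      have hnd3 : ((xs.get j :: xs.eraseIdx j).filterMap v).Nodup :=
        hnd2.sublist ((List.sublist_cons_self x _).filterMap v)
      have hnd4 : ((xs.eraseIdx j).filterMap v).Nodup :=
        hnd3.sublist ((List.sublist_cons_self _ _).filterMap v)
      rw [List.pairwise_cons] at hA
      have hA2 := hA.2.sublist (List.eraseIdx_sublist xs j)
      have hlen : (xs.eraseIdx (j : ℕ)).length < n := by
        rw [List.length_eraseIdx_of_lt j.2, ← hn, List.length_cons]
        omega
      have hih := ih _ hlen (xs.eraseIdx j) hnd4 hA2 rfl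
      rw [ops_perm D v hperm]
      have e : ∀ g, ops D v (x :: xs.get j :: xs.eraseIdx j) g =
        opv D (v x) (opv D (v (xs.get j)) (ops D v (xs.eraseIdx j) g)) := fun g => rfl
      rw [e, ops_cst D v (xs.eraseIdx j) ((-1) ^ (j : ℕ) * A x (xs.get j)) (pfL A (xs.eraseIdx j))
        ?_, hih]
      · -- the remaining pfaffian is constant for the two variables
        have hQ : ∀ k, (v x = some k ∨ v (xs.get j) = some k) →
            Cst D k (pfL A' (xs.eraseIdx j)) := by
          intro k hk
          have hne : ∀ a ∈ xs.eraseIdx j, v a ≠ some k := by
            intro a ha hak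
            rcases hk with hk | hk
            · exact ne_of_nodup v hnd2 (List.mem_cons_of_mem _ ha) hak hk
            · exact ne_of_nodup v hnd3 ha hak hk
          refine cst_pfL D A' k _ ?_
          refine hA2.imp_of_mem ?_
          intro a b ha hb hab
          rw [hab]
          exact cst_opv D _ k (hne a ha) _ (cst_opv D _ k (hne b hb) _
            (hc a b k (hne a ha) (hne b hb)))
        rw [mul_comm ((-1) ^ (j : ℕ) * A x (xs.get j)) (pfL A' (xs.eraseIdx j)),
          opv_cst D (v (xs.get j)) _ _ (fun k hk => hQ k (Or.inr hk)),
          opv_cst D (v x) _ _ (fun k hk => hQ k (Or.inl hk)),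
          opv_cst D (v (xs.get j)) _ _ (fun k _ => cst_sign D k j),
          opv_cst D (v x) _ _ (fun k _ => cst_sign D k j),
          ← hA.1 _ (List.get_mem xs j)]
        ring
      · intro a ha k hk
        exact Cst.mul D (cst_sign D k j) (hc _ _ k
          (ne_of_nodup v hnd2 (List.mem_cons_of_mem _ ha) hk) (ne_of_nodup v hnd3 ha hk))

end Pool.Agent.Helper90.MVD
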