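import Pool.Agent.Helper90.MVD.Defs

/-!
Project MV, block D2: the array with the extra letter `E`.

Letters `Option (Fin N ⊕ ℕ)`, `none` is the extra letter `E`. `W = PowerSeries.X`.
Array `Ahat` (power series; the column `e_n` is multiplied by `W^n`): on `some`-letters
`Ahat = w a * w b * C (AS a b)`, `w ψ_i = 1`, `w e_n = W^n`; `Ahat E ψ_i = 1 - 2 k_i`,
`Ahat E e_n = bt n` (`bt 0 = 1`, `bt n = 2` for `n ≥ 1`), antisymmetric, `Ahat E E = 0`.
-/

namespace Pool.Agent.Helper90.MVD

open Finset Pool.Agent.Helper60.MV Pool.Agent.Helper52.MVD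

variable {F : Type} [Field F] [Algebra ℝ F] {N : ℕ} (D : DF F N)

/-- `1` for `n = 0`, `2` for `n ≥ 1` -/
noncomputable def bt (F : Type) [Field F] (n : ℕ) : PowerSeries F := if n = 0 then 1 else 2

/-- the array with the extra letter `E = none` -/
noncomputable def Ahat : Option (Fin N ⊕ ℕ) → Option (Fin N ⊕ ℕ) → PowerSeries F
  | some (Sum.inl i), some (Sum.inl j) => PowerSeries.C (sig D i j)
  | some (Sum.inl i), some (Sum.inr n) => PowerSeries.X ^ n * PowerSeries.C (bc D i n)
  | some (Sum.inr n), some (Sum.inl i) => - (PowerSeries.X ^ n * PowerSeries.C (bc D i n))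
  | some (Sum.inr _), some (Sum.inr _) => 0
  | none, some (Sum.inl i) => 1 - 2 * kser D i
  | some (Sum.inl i), none => 2 * kser D i - 1
  | none, some (Sum.inr n) => bt F n
  | some (Sum.inr n), none => - bt F n
  | none, none => 0

/-- the list `E, ψ_1, ..., ψ_N, e_{n_1}, ..., e_{n_m}` -/
def Elist (N : ℕ) (ns : List ℕ) : List (Option (Fin N ⊕ ℕ)) :=
  none :: (psl N ++ ns.map Sum.inr).map some

end Pool.Agent.Helper90.MVD
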