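import Pool.Agent.Helper90.MVD.Defs

/-!
Module MVD-9 (project MV, block D2): relations of the neutral fermions.

All from `ctr_ι_mul`, `ctr_one`, `ctr_ctr`, `ctr_comm`, `ExteriorAlgebra.ι_sq_zero`,
`ExteriorAlgebra.ι_add_mul_swap`.
* `phi_phi` (canonical anticommutation relations
  `φ_m φ_n + φ_n φ_m = 2 (-1)^m δ_{m+n,0}`): case distinction on the signs of `m`, `n`;
  `φ_0 φ_0 = (cr 0 + an 0)^2 = 1`; for `m > 0 > n`: `2 (-1)^n (cr m (an |n| x) + an |n| (cr m x)) =
  2 (-1)^n δ x`.
* `an_fin`, `phi_fin`: local finiteness, induction on `x` (`CliffordAlgebra.left_induction` or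
  `prb_span` + `Submodule.span_induction`): for `ι v * x` with `v` finitely supported.
* `prb_span`: the products of basis vectors span (`CliffordAlgebra.left_induction`: `v` is a linear
  combination of basis vectors).
* `phi_ind`: induction principle. Let `S` be the span of `{str L 1}`. `S` is stable under all
  `phi n`. It is stable under `cr n`, `n > 0` (`= phi n`), and under `cr 0`: `2 cr 0 = phi 0 + g`,
  `g := cr 0 - an 0`, and `g` anticommutes with every `phi n` (for `n = 0`:
  `(a-b)(a+b) + (a+b)(a-b) = 2a² - 2b² = 0`), `g 1 = cr 0 1 = phi 0 1`; so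
  `g (str L 1) = ± str L (phi 0 1) ∈ S` (`str (n :: L) = str L ∘ phi n`). Hence `S` contains all
  products of basis vectors. Then prove `C` on `S`.
* `cr_an_decomp`: `x = cr n (an n x) + an n (cr n x)`.
-/

namespace Pool.Agent.Helper90.MVD

open Finset Pool.Agent.Helper60.MV

variable (F : Type) [Field F]

theorem vac_one : vac F 1 = 1 := by
  unfold vac
  simp

theorem vac_cr (n : ℕ) (x : Fk F) : vac F (cr F n x) = 0 := by
  unfold vac cr
  simp [ExteriorAlgebra.algebraMapInv]

theorem an_one (n : ℕ) : an F n 1 = 0 := by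
  exact ctr_one _

theorem an_cr (m n : ℕ) (x : Fk F) :
    an F m (cr F n x) = (if m = n then x else 0) - cr F n (an F m x) := by
  unfold an cr
  rw [LinearMap.mulLeft_apply, LinearMap.mulLeft_apply, ctr_ι_mul]
  congr 1
  by_cases h : m = n
  · subst h
    simp
  · simp [h, Finsupp.single_apply, Ne.symm h]

theorem an_an (m n : ℕ) (x : Fk F) : an F m (an F n x) = - an F n (an F m x) := by
  exact ctr_comm _ _ x

theorem an_an_self (n : ℕ) (x : Fk F) : an F n (an F n x) = 0 := by
  exact ctr_ctr _ x

theorem cr_cr (m n : ℕ) (x : Fk F) : cr F m (cr F n x) = - cr F n (cr F m x) := by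
  unfold cr
  simp only [LinearMap.mulLeft_apply]
  rw [← mul_assoc, ← mul_assoc, eq_neg_iff_add_eq_zero, ← add_mul,
    ExteriorAlgebra.ι_add_mul_swap, zero_mul]

theorem cr_cr_self (n : ℕ) (x : Fk F) : cr F n (cr F n x) = 0 := by
  unfold cr
  simp only [LinearMap.mulLeft_apply]
  rw [← mul_assoc, ExteriorAlgebra.ι_sq_zero, zero_mul]

theorem cr_an_decomp (n : ℕ) (x : Fk F) : x = cr F n (an F n x) + an F n (cr F n x) := by
  rw [an_cr, if_pos rfl]
  abel

theorem phi_pos (n : ℕ) (hn : 0 < n) (x : Fk F) : phi F n x = cr F n x := by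
  unfold phi
  rw [if_pos (by exact_mod_cast hn), Int.natAbs_natCast]

theorem phi_zero (x : Fk F) : phi F 0 x = cr F 0 x + an F 0 x := by
  unfold phi
  rw [if_neg (lt_irrefl _), if_pos rfl, LinearMap.add_apply]

theorem phi_neg (n : ℕ) (hn : 0 < n) (x : Fk F) :
    phi F (-(n : ℤ)) x = (2 * (-1) ^ n : F) • an F n x := by
  unfold phi
  rw [if_neg (by omega), if_neg (by omega), LinearMap.smul_apply, Int.natAbs_neg,
    Int.natAbs_natCast]

theorem phi_phi (m n : ℤ) (x : Fk F) :
    phi F m (phi F n x) =
      (if m + n = 0 then 2 * (-1) ^ m.natAbs else 0 : F) • x - phi F n (phi F m x) := by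
  have hm : (∃ a : ℕ, 0 < a ∧ m = a) ∨ m = 0 ∨ (∃ a : ℕ, 0 < a ∧ m = -(a : ℤ)) := by
    rcases lt_trichotomy m 0 with h | h | h
    · exact Or.inr (Or.inr ⟨m.natAbs, by omega, by omega⟩)
    · exact Or.inr (Or.inl h)
    · exact Or.inl ⟨m.natAbs, by omega, by omega⟩
  have hn : (∃ a : ℕ, 0 < a ∧ n = a) ∨ n = 0 ∨ (∃ a : ℕ, 0 < a ∧ n = -(a : ℤ)) := by
    rcases lt_trichotomy n 0 with h | h | h
    · exact Or.inr (Or.inr ⟨n.natAbs, by omega, by omega⟩)
    · exact Or.inr (Or.inl h)
    · exact Or.inl ⟨n.natAbs, by omega, by omega⟩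
  rcases hm with ⟨a, ha, rfl⟩ | rfl | ⟨a, ha, rfl⟩ <;>
    rcases hn with ⟨b, hb, rfl⟩ | rfl | ⟨b, hb, rfl⟩
  · rw [if_neg (by omega), zero_smul, zero_sub, phi_pos F a ha, phi_pos F b hb,
      phi_pos F b hb, phi_pos F a ha, cr_cr]
  · rw [if_neg (by omega), zero_smul, zero_sub, phi_pos F a ha, phi_zero, phi_zero,
      phi_pos F a ha, map_add, cr_cr, an_cr, if_neg (by omega)]
    abel
  · rw [phi_pos F a ha, phi_neg F b hb, phi_neg F b hb, phi_pos F a ha, map_smul, an_cr]
    by_cases hab : a = b
    · subst hab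
      rw [if_pos (by omega), if_pos rfl, Int.natAbs_natCast, smul_sub]
      abel
    · rw [if_neg (by omega), if_neg (by omega), zero_smul, smul_sub, smul_zero]
      abel
  · rw [if_neg (by omega), zero_smul, zero_sub, phi_pos F b hb, phi_zero, phi_zero,
      phi_pos F b hb, map_add, cr_cr, an_cr, if_neg (by omega)]
    abel
  · rw [if_pos (by omega), phi_zero, phi_zero, map_add, map_add, cr_cr_self, an_an_self, an_cr,
      if_pos rfl, Int.natAbs_zero, pow_zero, mul_one, two_smul]
    abel
  · rw [if_neg (by omega), zero_smul, zero_sub, phi_neg F b hb, phi_zero, phi_zero,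
      phi_neg F b hb, map_add, map_smul, map_smul, an_cr, if_neg (by omega), an_an F b 0, ← smul_add,
      ← smul_neg]
    congr 1
    abel
  · rw [phi_neg F a ha, phi_pos F b hb, phi_pos F b hb, phi_neg F a ha, map_smul, an_cr]
    by_cases hab : a = b
    · subst hab
      rw [if_pos (by omega), if_pos (by omega), Int.natAbs_neg, Int.natAbs_natCast, smul_sub]
    · rw [if_neg (by omega), if_neg (by omega), zero_smul, smul_sub, smul_zero]
  · rw [if_neg (by omega), zero_smul, zero_sub, phi_neg F a ha, phi_zero, phi_zero,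
      phi_neg F a ha, map_add, map_smul, map_smul, an_cr, if_neg (by omega), an_an F a 0, ← smul_add,
      ← smul_neg]
    congr 1
    abel
  · rw [if_neg (by omega), zero_smul, zero_sub, phi_neg F a ha, phi_neg F b hb, phi_neg F b hb,
      phi_neg F a ha, map_smul, map_smul, an_an F a b, smul_neg, smul_neg, smul_comm]

/-- the creation part of `phi m` (zero for `m < 0`) -/
theorem phi_one_neg (n : ℤ) (hn : n < 0) : phi F n 1 = 0 := by
  obtain ⟨a, ha, rfl⟩ : ∃ a : ℕ, 0 < a ∧ n = -(a : ℤ) := ⟨n.natAbs, by omega, by omega⟩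
  rw [phi_neg F a ha, an_one, smul_zero]

theorem prb_nil : prb F [] = 1 := by
  rfl

theorem prb_cons (n : ℕ) (L : List ℕ) : prb F (n :: L) = cr F n (prb F L) := by
  unfold prb wdg cr
  rw [List.map_cons, List.map_cons, List.prod_cons, LinearMap.mulLeft_apply]

theorem prb_span : Submodule.span F (Set.range (prb F)) = ⊤ := by
  rw [eq_top_iff]
  intro x _
  refine CliffordAlgebra.left_induction
    (P := fun x => x ∈ Submodule.span F (Set.range (prb F))) _ ?_ ?_ ?_ x
  · intro r
    rw [Algebra.algebraMap_eq_smul_one]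
    exact Submodule.smul_mem _ _ (Submodule.subset_span ⟨[], prb_nil F⟩)
  · intro x y hx hy
    exact Submodule.add_mem _ hx hy
  · intro x v hx
    have hcr : ∀ (n : ℕ) (y : Fk F), y ∈ Submodule.span F (Set.range (prb F)) →
        cr F n y ∈ Submodule.span F (Set.range (prb F)) := by
      intro n y hy
      induction hy using Submodule.span_induction with
      | mem z hz =>
        obtain ⟨L, rfl⟩ := hz
        exact Submodule.subset_span ⟨n :: L, prb_cons F n L⟩
      | zero =>
        rw [map_zero]
        exact Submodule.zero_mem _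
      | add a b _ _ ha hb =>
        rw [map_add]
        exact Submodule.add_mem _ ha hb
      | smul c a _ ha =>
        rw [map_smul]
        exact Submodule.smul_mem _ _ ha
    change ExteriorAlgebra.ι F v * x ∈ Submodule.span F (Set.range (prb F))
    induction v using Finsupp.induction_linear with
    | zero =>
      rw [map_zero, zero_mul]
      exact Submodule.zero_mem _
    | add a b ha hb =>
      rw [map_add, add_mul]
      exact Submodule.add_mem _ ha hb
    | single n c =>
      have h1 : (Finsupp.single n c : ℕ →₀ F) = c • Finsupp.single n (1 : F) := by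
        simp
      rw [h1, map_smul, smul_mul_assoc]
      exact Submodule.smul_mem _ _ (hcr n x hx)

theorem an_fin (x : Fk F) : ∃ B : ℕ, ∀ n, B ≤ n → an F n x = 0 := by
  have hx : x ∈ Submodule.span F (Set.range (prb F)) := by
    rw [prb_span]
    exact Submodule.mem_top
  induction hx using Submodule.span_induction with
  | mem z hz =>
    obtain ⟨L, rfl⟩ := hz
    induction L with
    | nil => exact ⟨0, fun n _ => by rw [prb_nil, an_one]⟩
    | cons k L ih =>
      obtain ⟨B, hB⟩ := ih
      refine ⟨max B (k + 1), fun n hn => ?_⟩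
      rw [prb_cons, an_cr, hB n (le_trans (le_max_left _ _) hn), map_zero, if_neg, sub_zero]
      have := le_trans (le_max_right _ _) hn
      omega
  | zero => exact ⟨0, fun n _ => map_zero _⟩
  | add a b _ _ ha hb =>
    obtain ⟨B, hB⟩ := ha
    obtain ⟨B', hB'⟩ := hb
    refine ⟨max B B', fun n hn => ?_⟩
    rw [map_add, hB n (le_trans (le_max_left _ _) hn), hB' n (le_trans (le_max_right _ _) hn),
      add_zero]
  | smul c a _ ha =>
    obtain ⟨B, hB⟩ := ha
    exact ⟨B, fun n hn => by rw [map_smul, hB n hn, smul_zero]⟩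

theorem phi_fin (x : Fk F) : ∃ B : ℕ, ∀ n : ℤ, n ≤ -(B : ℤ) → phi F n x = 0 := by
  obtain ⟨B, hB⟩ := an_fin F x
  refine ⟨B + 1, fun n hn => ?_⟩
  obtain ⟨a, ha, haB, rfl⟩ : ∃ a : ℕ, 0 < a ∧ B ≤ a ∧ n = -(a : ℤ) :=
    ⟨n.natAbs, by omega, by omega, by omega⟩
  rw [phi_neg F a ha, hB a haB, smul_zero]

private noncomputable def gg : Fk F →ₗ[F] Fk F := cr F 0 - an F 0

private theorem gg_apply (x : Fk F) : gg F x = cr F 0 x - an F 0 x := by
  unfold gg
  rw [LinearMap.sub_apply]

private theorem gg_phi (n : ℤ) (x : Fk F) : gg F (phi F n x) = - phi F n (gg F x) := by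
  rcases lt_trichotomy n 0 with h | h | h
  · obtain ⟨a, ha, rfl⟩ : ∃ a : ℕ, 0 < a ∧ n = -(a : ℤ) := ⟨n.natAbs, by omega, by omega⟩
    rw [phi_neg F a ha, phi_neg F a ha, map_smul, gg_apply, gg_apply, map_sub, an_cr,
      if_neg (by omega), an_an F a 0, ← smul_neg]
    congr 1
    abel
  · subst h
    rw [phi_zero, phi_zero, gg_apply, gg_apply, map_add, map_add, map_sub, map_sub, cr_cr_self,
      an_an_self, an_cr, if_pos rfl]
    abel
  · obtain ⟨a, ha, rfl⟩ : ∃ a : ℕ, 0 < a ∧ n = (a : ℤ) := ⟨n.natAbs, by omega, by omega⟩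
    rw [phi_pos F a ha, phi_pos F a ha, gg_apply, gg_apply, map_sub, an_cr, if_neg (by omega),
      cr_cr F 0 a]
    abel

private theorem gg_one : gg F 1 = phi F 0 1 := by
  rw [gg_apply, phi_zero, an_one, sub_zero, add_zero]

private theorem str_append (L : List ℤ) (n : ℤ) (x : Fk F) :
    str F (L ++ [n]) x = phi F n (str F L x) := by
  induction L generalizing x with
  | nil => rfl
  | cons k L ih =>
    change str F (L ++ [n]) (phi F k x) = phi F n (str F L (phi F k x))
    exact ih _

private theorem gg_str (L : List ℤ) (x : Fk F) :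
    gg F (str F L x) = ((-1) ^ L.length : F) • str F L (gg F x) := by
  induction L generalizing x with
  | nil =>
    change gg F x = ((-1) ^ 0 : F) • gg F x
    rw [pow_zero, one_smul]
  | cons k L ih =>
    change gg F (str F L (phi F k x)) = _ • str F L (phi F k (gg F x))
    rw [ih, gg_phi, map_neg, smul_neg, List.length_cons, pow_succ, mul_neg, mul_one, neg_smul]

theorem phi_ind [CharZero F] (C : Fk F → Prop) (h1 : C 1) (hadd : ∀ x y, C x → C y → C (x + y))
    (hsmul : ∀ (c : F) x, C x → C (c • x)) (hphi : ∀ (n : ℤ) x, C x → C (phi F n x)) :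
    ∀ x, C x := by
  set S : Submodule F (Fk F) := Submodule.span F (Set.range (fun L => str F L 1)) with hS
  have hphiS : ∀ (n : ℤ) x, x ∈ S → phi F n x ∈ S := by
    intro n x hx
    induction hx using Submodule.span_induction with
    | mem z hz =>
      obtain ⟨L, rfl⟩ := hz
      exact Submodule.subset_span ⟨L ++ [n], str_append F L n 1⟩
    | zero =>
      rw [map_zero]
      exact Submodule.zero_mem _
    | add a b _ _ ha hb =>
      rw [map_add]
      exact Submodule.add_mem _ ha hb
    | smul c a _ ha =>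
      rw [map_smul]
      exact Submodule.smul_mem _ _ ha
  have hgS : ∀ x, x ∈ S → gg F x ∈ S := by
    intro x hx
    induction hx using Submodule.span_induction with
    | mem z hz =>
      obtain ⟨L, rfl⟩ := hz
      change gg F (str F L 1) ∈ S
      rw [gg_str, gg_one]
      exact Submodule.smul_mem _ _ (Submodule.subset_span ⟨0 :: L, rfl⟩)
    | zero =>
      rw [map_zero]
      exact Submodule.zero_mem _
    | add a b _ _ ha hb =>
      rw [map_add]
      exact Submodule.add_mem _ ha hb
    | smul c a _ ha =>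
      rw [map_smul]
      exact Submodule.smul_mem _ _ ha
  have hcrS : ∀ (n : ℕ) x, x ∈ S → cr F n x ∈ S := by
    intro n x hx
    rcases Nat.eq_zero_or_pos n with h | h
    · subst h
      have h2 : cr F 0 x = (1 / 2 : F) • (phi F 0 x + gg F x) := by
        rw [phi_zero, gg_apply]
        have : cr F 0 x + an F 0 x + (cr F 0 x - an F 0 x) = (2 : F) • cr F 0 x := by
          rw [two_smul]
          abel
        rw [this, smul_smul]
        norm_num
      rw [h2]
      exact Submodule.smul_mem _ _ (Submodule.add_mem _ (hphiS 0 x hx) (hgS x hx))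
    · rw [← phi_pos F n h]
      exact hphiS n x hx
  have hprb : ∀ L : List ℕ, prb F L ∈ S := by
    intro L
    induction L with
    | nil => exact Submodule.subset_span ⟨[], rfl⟩
    | cons k L ih =>
      rw [prb_cons]
      exact hcrS k _ ih
  have hStop : ∀ x, x ∈ S := by
    intro x
    have hx : x ∈ Submodule.span F (Set.range (prb F)) := by
      rw [prb_span]
      exact Submodule.mem_top
    refine (Submodule.span_le.2 ?_) hx
    rintro _ ⟨L, rfl⟩
    exact hprb L
  have hstr : ∀ (L : List ℤ) x, C x → C (str F L x) := by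
    intro L
    induction L with
    | nil =>
      intro x hx
      exact hx
    | cons k L ih =>
      intro x hx
      exact ih _ (hphi k x hx)
  intro x
  have hx := hStop x
  induction hx using Submodule.span_induction with
  | mem z hz =>
    obtain ⟨L, rfl⟩ := hz
    exact hstr L 1 h1
  | zero =>
    have := hsmul 0 1 h1
    rwa [zero_smul] at this
  | add a b _ _ ha hb => exact hadd a b ha hb
  | smul c a _ ha => exact hsmul c a ha

end Pool.Agent.Helper90.MVD
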