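import Pool.Agent.Helper90.MVD.Defs

/-!
Module MVD-2 (project MV, block D2): the Pfaffian functional on the exterior algebra.

Proofs.
* `exists_Pf`: Mathlib's `CliffordAlgebra.changeForm` with `B := -ω` (`B v v = 0`, so
  `B.toQuadraticMap = 0 - 0`), composed with `ExteriorAlgebra.algebraMapInv`:
  `changeForm (ι v * x) = ι v * changeForm x + ω v ⌋ changeForm x`, the scalar part of `ι v * y` is
  `0`, and `changeForm (d ⌋ x) = d ⌋ changeForm x` (`CliffordAlgebra.changeForm_contractLeft`).
  (Or directly with `CliffordAlgebra.foldr`.)
* `ctr_wdg_mul`: induction on `L` with `ctr_ι_mul`; the sum over `Fin (v :: L).length` is split with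
  `Fin.sum_univ_succ`.
* `IsPf.wdg_eq`: strong induction on the length with `IsPf.mul` and `ctr_wdg_mul` (x = 1).
* `omA_alt`: `v = ∑ v_a e_a`; `∑_{a,b} v_a v_b A a b = 0` since the terms `(a,b)`, `(b,a)` cancel
  and the diagonal vanishes (e.g. `Finset.sum_involution` with `Prod.swap`, or induction on `v` with
  `Finsupp.induction_linear`/additivity: prove `omA A v w = - omA A w v` and `omA A (v+w) (v+w) =
  omA A v v + omA A w w`).
-/

namespace Pool.Agent.Helper90.MVD

open Finset Pool.Agent.Helper60.MV

section

variable {R M : Type} [CommRing R] [AddCommGroup M] [Module R M]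

theorem exists_Pf (ω : M →ₗ[R] Module.Dual R M) (h : ∀ v, ω v v = 0) :
    ∃ P : ExteriorAlgebra R M →ₗ[R] R, IsPf ω P := by
  have hB : LinearMap.BilinMap.toQuadraticMap (-ω : LinearMap.BilinForm R M) =
      (0 : QuadraticForm R M) - (0 : QuadraticForm R M) := by
    ext v
    simp [h v]
  refine ⟨(ExteriorAlgebra.algebraMapInv (R := R) (M := M)).toLinearMap ∘ₗ
    (CliffordAlgebra.changeForm hB), ?_, ?_⟩
  · rw [LinearMap.comp_apply]
    erw [CliffordAlgebra.changeForm_one]
    simp
  · intro v x
    rw [LinearMap.comp_apply, LinearMap.comp_apply]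
    have e1 : CliffordAlgebra.changeForm hB (ExteriorAlgebra.ι R v * x) =
        ExteriorAlgebra.ι R v * CliffordAlgebra.changeForm hB x +
          ctr (ω v) (CliffordAlgebra.changeForm hB x) := by
      have := CliffordAlgebra.changeForm_ι_mul hB v x
      refine this.trans ?_
      rw [sub_eq_add_neg]
      congr 1
      unfold ctr
      simp
    have e2 : CliffordAlgebra.changeForm hB (ctr (ω v) x) =
        ctr (ω v) (CliffordAlgebra.changeForm hB x) :=
      CliffordAlgebra.changeForm_contractLeft hB (ω v) x
    rw [e1, e2]
    simp [ExteriorAlgebra.algebraMapInv]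

theorem wdg_nil : wdg ([] : List M) = (1 : ExteriorAlgebra R M) := by
  simp [wdg]

theorem wdg_cons (v : M) (L : List M) :
    (wdg (v :: L) : ExteriorAlgebra R M) = ExteriorAlgebra.ι R v * wdg L := by
  simp [wdg]

theorem wdg_append (L L' : List M) :
    (wdg (L ++ L') : ExteriorAlgebra R M) = wdg L * wdg L' := by
  simp [wdg]

theorem ctr_wdg_mul (d : Module.Dual R M) (L : List M) (x : ExteriorAlgebra R M) :
    ctr d (wdg L * x) = ∑ j : Fin L.length,
      ((-1) ^ (j : ℕ) * d (L.get j)) • (wdg (L.eraseIdx j) * x) +
      ((-1) ^ L.length : R) • (wdg L * ctr d x) := by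
  induction L with
  | nil => simp [wdg_nil]
  | cons v L ih =>
    rw [wdg_cons, mul_assoc, ctr_ι_mul, ih]
    simp only [List.length_cons]
    rw [Fin.sum_univ_succ]
    simp only [Fin.val_zero, pow_zero, one_mul, List.get_eq_getElem, List.getElem_cons_zero,
      List.eraseIdx_zero, List.tail_cons, Fin.val_succ, List.getElem_cons_succ,
      List.eraseIdx_cons_succ, wdg_cons, mul_add, mul_assoc, Finset.mul_sum, mul_smul_comm]
    rw [sub_eq_add_neg, neg_add, ← Finset.sum_neg_distrib, add_assoc]
    congr 1
    congr 1
    · apply Finset.sum_congr rfl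
      intro j _
      rw [pow_succ, ← neg_smul]
      congr 1
      ring
    · rw [pow_succ, ← neg_smul]
      congr 1
      ring

theorem IsPf.wdg_eq {ω : M →ₗ[R] Module.Dual R M} {P : ExteriorAlgebra R M →ₗ[R] R}
    (hP : IsPf ω P) (L : List M) : P (wdg L) = pfL (fun a b => ω a b) L := by
  induction hn : L.length using Nat.strong_induction_on generalizing L with
  | _ n ih =>
    cases L with
    | nil => rw [wdg_nil, hP.one, pfL]
    | cons v L =>
      rw [wdg_cons, hP.mul, pfL]
      have h := ctr_wdg_mul (ω v) L (1 : ExteriorAlgebra R M)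
      rw [mul_one, ctr_one, mul_zero, smul_zero, add_zero] at h
      rw [h, map_sum]
      apply Finset.sum_congr rfl
      intro j _
      rw [mul_one, map_smul, smul_eq_mul]
      congr 1
      apply ih _ _ _ rfl
      rw [List.length_eraseIdx]
      simp only [List.length_cons] at hn
      split_ifs <;> omega

end

section

variable {α R : Type} [CommRing R]

theorem omA_single (A : α → α → R) (a b : α) :
    omA A (Finsupp.single a 1) (Finsupp.single b 1) = A a b := by
  simp [omA]

theorem omA_alt (A : α → α → R) (h0 : ∀ a, A a a = 0) (h : ∀ a b, A a b = - A b a)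
    (v : α →₀ R) : omA A v v = 0 := by
  have hanti : ∀ v w : α →₀ R, omA A v w = - omA A w v := by
    intro v w
    induction v using Finsupp.induction_linear with
    | zero => simp
    | add v1 v2 h1 h2 => rw [map_add, LinearMap.add_apply, h1, h2, map_add]; ring
    | single a r =>
      induction w using Finsupp.induction_linear with
      | zero => simp
      | add w1 w2 h1 h2 => rw [map_add, h1, h2, map_add, LinearMap.add_apply]; ring
      | single b r' =>
        simp only [omA, Finsupp.linearCombination_single, LinearMap.smul_apply, smul_eq_mul]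
        rw [h a b]
        ring
  induction v using Finsupp.induction_linear with
  | zero => simp
  | add v1 v2 h1 h2 =>
    rw [map_add, map_add, LinearMap.add_apply, LinearMap.add_apply, h1, h2, hanti v1 v2]
    ring
  | single a r =>
    simp only [omA, Finsupp.linearCombination_single, LinearMap.smul_apply, smul_eq_mul]
    rw [h0 a]
    ring

private theorem pfL_map_single (A : α → α → R) (L : List α) :
    pfL (fun a b : α →₀ R => omA A a b) (L.map fun a => Finsupp.single a 1) = pfL A L := by
  induction hn : L.length using Nat.strong_induction_on generalizing L with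
  | _ n ih =>
    cases L with
    | nil => rw [List.map_nil, pfL, pfL]
    | cons v L =>
      rw [List.map_cons, pfL, pfL]
      have hlen : (L.map fun a => (Finsupp.single a 1 : α →₀ R)).length = L.length :=
        List.length_map _
      rw [← (finCongr hlen).sum_comp]
      apply Finset.sum_congr rfl
      intro j _
      have hj : (j : ℕ) < L.length := hlen ▸ j.2
      have e1 : (L.map fun a => (Finsupp.single a 1 : α →₀ R)).get j =
          Finsupp.single (L.get (finCongr hlen j)) 1 := by
        simp
      have e2 : (L.map fun a => (Finsupp.single a 1 : α →₀ R)).eraseIdx j =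
          (L.eraseIdx (finCongr hlen j : Fin L.length)).map fun a => Finsupp.single a 1 := by
        rw [← List.eraseIdx_map]
        rfl
      rw [e1, e2, omA_single]
      congr 1
      apply ih _ _ _ rfl
      rw [List.length_eraseIdx]
      simp only [List.length_cons] at hn
      split_ifs <;> omega

theorem exists_PfA (A : α → α → R) (h0 : ∀ a, A a a = 0) (h : ∀ a b, A a b = - A b a) :
    ∃ P : ExteriorAlgebra R (α →₀ R) →ₗ[R] R, IsPf (omA A) P ∧
      ∀ L : List α, P (wdg (L.map fun a => Finsupp.single a 1)) = pfL A L := by
  obtain ⟨P, hP⟩ := exists_Pf (omA A) (omA_alt A h0 h)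
  refine ⟨P, hP, ?_⟩
  intro L
  rw [hP.wdg_eq]
  exact pfL_map_single A L

end

end Pool.Agent.Helper90.MVD
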