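import Pool.Agent.Helper90.MVD.PfL
import Pool.Agent.Helper90.MVD.PfE

/-!
Module MVD-5 (project MV, block D2): a nonzero Pfaffian gives an invertible matrix; elementary facts
on the differential field.

`exists_inv`: let `Sg i k := A (ψ i) (ψ k)`. The linear map `y ↦ (∑_k Sg i k y_k)_i` of
`Fin N → K` is injective: suppose `∑_k A (ψ i)(ψ k) y_k = 0` for all `i`, `y_m ≠ 0`. In the exterior
algebra of `α →₀ K` let `e a := single a 1`, `v := ∑_k y_k e (ψ k)`, `P` as in `exists_PfA`. Then
`ι v * wdg (ψ-list without m) = ± y_m * wdg (ψ-list)` (the terms `k ≠ m` vanish: repeated vector) so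
`P (ι v * wdg ...) = ± y_m pfL A (ofFn ψ) ≠ 0`, but `P (ι v * x) = P (ctr (ω v) x)` and `ω v` vanishes
on all `e (ψ i)` (`ω v (e (ψ i)) = ∑_k y_k A (ψ k)(ψ i) = - ∑_k y_k A (ψ i)(ψ k) = 0`), hence
`ctr (ω v) (wdg ...) = 0` by `ctr_wdg_mul`. Contradiction. An injective endomorphism of a finite
dimensional space is bijective: choose `Q k j` with `∑_k Sg i k Q k j = δ_ij`.
(Alternatively use `Matrix` with `Matrix.exists_mulVec_eq_zero_iff`.)
-/

namespace Pool.Agent.Helper90.MVD

open Finset Pool.Agent.Helper60.MV Pool.Agent.Helper52.MVD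

/-- the functional kills a product which starts with a vector orthogonal to all the others -/
private theorem P_orth {K M : Type} [Field K] [AddCommGroup M] [Module K M]
    {ω : M →ₗ[K] Module.Dual K M} {P : ExteriorAlgebra K M →ₗ[K] K} (hP : IsPf ω P) (v : M)
    (L : List M) (h : ∀ w ∈ L, ω v w = 0) : P (ExteriorAlgebra.ι K v * wdg L) = 0 := by
  rw [hP.mul]
  have h1 := ctr_wdg_mul (ω v) L (1 : ExteriorAlgebra K M)
  rw [mul_one, ctr_one, mul_zero, smul_zero, add_zero] at h1
  rw [h1, Finset.sum_eq_zero, map_zero]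
  intro j _
  rw [h _ (List.get_mem L j), mul_zero, zero_smul]

private theorem F_orth {K M : Type} [Field K] [AddCommGroup M] [Module K M]
    {ω : M →ₗ[K] Module.Dual K M} {P : ExteriorAlgebra K M →ₗ[K] K} (hP : IsPf ω P) {n : ℕ}
    (u : Fin (n + 1) → M) (h : ∀ j : Fin n, ω (u 0) (u j.succ) = 0) :
    P (ExteriorAlgebra.ιMulti K (n + 1) u) = 0 := by
  rw [ExteriorAlgebra.ιMulti_apply, List.ofFn_succ, List.prod_cons]
  have h2 : (List.ofFn fun i : Fin n => ExteriorAlgebra.ι K (u i.succ)).prod =
      wdg (List.ofFn fun i : Fin n => u i.succ) := by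
    unfold wdg
    rw [List.map_ofFn]
    rfl
  rw [h2]
  refine P_orth hP _ _ ?_
  intro w hw
  rw [List.mem_ofFn] at hw
  obtain ⟨j, rfl⟩ := hw
  exact h j

theorem exists_inv {K α : Type} [Field K] (A : α → α → K) (h0 : ∀ a, A a a = 0)
    (h : ∀ a b, A a b = - A b a) {N : ℕ} (ψ : Fin N → α) (hne : pfL A (List.ofFn ψ) ≠ 0) :
    ∃ Q : Fin N → Fin N → K, ∀ i j, ∑ k, A (ψ i) (ψ k) * Q k j = if i = j then 1 else 0 := by
  classical
  obtain ⟨P, hP, hPL⟩ := exists_PfA A h0 h
  let S : Matrix (Fin N) (Fin N) K := fun i k => A (ψ i) (ψ k)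
  have hdet : S.det ≠ 0 := by
    intro hd
    obtain ⟨y, hy, hSy⟩ := Matrix.exists_mulVec_eq_zero_iff.2 hd
    obtain ⟨m, hm⟩ : ∃ m, y m ≠ 0 := by
      by_contra hc
      push Not at hc
      exact hy (funext hc)
    obtain ⟨n, rfl⟩ : ∃ n, N = n + 1 := ⟨N - 1, by have := m.2; omega⟩
    have hSy' : ∀ i, ∑ k, A (ψ i) (ψ k) * y k = 0 := fun i => congrFun hSy i
    let w : Fin (n + 1) → (α →₀ K) := fun i => Finsupp.single (ψ i) 1
    let v : α →₀ K := ∑ k, y k • w k
    let F : (α →₀ K) [⋀^Fin (n + 1)]→ₗ[K] K :=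
      P.compAlternatingMap (ExteriorAlgebra.ιMulti K (n + 1))
    have hF : ∀ u, F u = P (ExteriorAlgebra.ιMulti K (n + 1) u) := fun u => rfl
    have h1 : F w = pfL A (List.ofFn ψ) := by
      rw [hF, ExteriorAlgebra.ιMulti_apply, ← hPL]
      congr 1
      unfold wdg
      rw [List.map_ofFn, List.map_ofFn]
      rfl
    have h2 : F (Function.update w m v) = y m * F w := by
      have h3 : F (Function.update w m v) = ∑ k, y k * F (Function.update w m (w k)) := by
        show F (Function.update w m (∑ k, y k • w k)) = _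
        rw [F.map_update_sum]
        refine Finset.sum_congr rfl fun k _ => ?_
        rw [F.map_update_smul]
        rfl
      rw [h3, Finset.sum_eq_single m]
      · rw [Function.update_eq_self]
      · intro k _ hk
        rw [F.map_update_self w hk.symm, mul_zero]
      · intro hmem
        exact absurd (Finset.mem_univ m) hmem
    have h4 : ∀ i, omA A v (w i) = 0 := by
      intro i
      show omA A (∑ k, y k • w k) (w i) = 0
      rw [map_sum, LinearMap.sum_apply]
      have h5 : ∀ k ∈ (Finset.univ : Finset (Fin (n + 1))), (omA A (y k • w k)) (w i) =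
          - (A (ψ i) (ψ k) * y k) := by
        intro k _
        rw [map_smul, LinearMap.smul_apply]
        show y k • omA A (Finsupp.single (ψ k) 1) (Finsupp.single (ψ i) 1) = _
        rw [omA_single, h (ψ k) (ψ i), smul_eq_mul]
        ring
      rw [Finset.sum_congr rfl h5, Finset.sum_neg_distrib, hSy' i, neg_zero]
    have h6 : F (Function.update w m v) = 0 := by
      by_cases hm0 : m = 0
      · subst hm0
        rw [hF]
        refine F_orth hP _ ?_
        intro j
        rw [Function.update_self, Function.update_of_ne (Fin.succ_ne_zero j)]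
        exact h4 _
      · have h7 : F (Function.update w m v ∘ Equiv.swap 0 m) = 0 := by
          rw [hF]
          refine F_orth hP _ ?_
          intro j
          rw [Function.comp_apply, Function.comp_apply, Equiv.swap_apply_left,
            Function.update_self, Function.update_of_ne]
          · exact h4 _
          · intro hc
            have := congrArg (Equiv.swap 0 m) hc
            rw [Equiv.swap_apply_self, Equiv.swap_apply_right] at this
            exact Fin.succ_ne_zero j this
        rw [F.map_swap _ (Ne.symm hm0)] at h7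
        exact neg_eq_zero.1 h7
    rw [h2, h1] at h6
    rcases mul_eq_zero.1 h6 with h7 | h7
    · exact hm h7
    · exact hne h7
  refine ⟨(S⁻¹ : Matrix (Fin N) (Fin N) K), fun i j => ?_⟩
  have h1 : S * S⁻¹ = 1 := Matrix.mul_nonsing_inv S (isUnit_iff_ne_zero.2 hdet)
  have h2 := congrFun (congrFun h1 i) j
  rw [Matrix.mul_apply, Matrix.one_apply] at h2
  exact h2

section

variable {F : Type} [Field F] [Algebra ℝ F] {N : ℕ} (D : DF F N)

theorem charZero_of_real (F : Type) [Field F] [Algebra ℝ F] : CharZero F :=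
  charZero_of_injective_algebraMap (algebraMap ℝ F).injective

/-- `d i (s i) = 1 ≠ 0` -/
theorem s_ne (i : Fin N) : D.s i ≠ 0 := by
  intro h
  have h1 := D.ds i i
  rw [h, map_zero, if_pos rfl] at h1
  exact zero_ne_one h1

/-- `d i (s i + s j) = 1` or `2` -/
theorem s_add_ne (i j : Fin N) : D.s i + D.s j ≠ 0 := by
  intro h
  have : CharZero F := charZero_of_real F
  have h1 : D.d i (D.s i + D.s j) = 0 := by rw [h, map_zero]
  rw [map_add, D.ds, D.ds, if_pos rfl] at h1
  by_cases hij : i = j
  · rw [if_pos hij] at h1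
    norm_num at h1
  · rw [if_neg hij, add_zero] at h1
    exact one_ne_zero h1

theorem s_inj : Function.Injective D.s := by
  intro i j h
  have h1 := D.ds i i
  rw [h, D.ds, if_pos rfl] at h1
  by_contra hij
  rw [if_neg hij] at h1
  exact zero_ne_one h1

theorem G_ne : D.G ≠ 0 := by
  unfold DF.G
  refine Finset.prod_ne_zero_iff.2 fun i _ => Finset.prod_ne_zero_iff.2 fun j hj => ?_
  refine div_ne_zero ?_ (s_add_ne D i j)
  rw [sub_ne_zero]
  intro h
  have h1 := s_inj D h
  rw [Finset.mem_Ioi] at hj
  exact (ne_of_lt hj) h1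

theorem sig_self (i : Fin N) : sig D i i = 0 := by
  simp [sig]

theorem sig_symm (i j : Fin N) : sig D i j = - sig D j i := by
  unfold sig
  rw [← neg_div, neg_sub, add_comm]

theorem AS_self (a : Fin N ⊕ ℕ) : AS D a a = 0 := by
  cases a with
  | inl i => exact sig_self D i
  | inr n => rfl

theorem AS_symm (a b : Fin N ⊕ ℕ) : AS D a b = - AS D b a := by
  cases a with
  | inl i =>
    cases b with
    | inl j => exact sig_symm D i j
    | inr n => exact (neg_neg _).symm
  | inr n =>
    cases b with
    | inl j => rfl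
    | inr m => exact neg_zero.symm

end

end Pool.Agent.Helper90.MVD
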