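import Pool.Agent.Helper90.MVD.PfL
import Pool.Agent.Helper90.MVD.PfE
import Pool.Agent.Helper90.MVD.Inv
import Pool.Agent.Helper90.MVD.Fock

/-!
Module MVD-21 (project MV, block D2): existence of `Λ_s`.

`exists_PfA (AS D) (AS_self D) (AS_symm D)` gives `P` on the exterior algebra of
`(Fin N ⊕ ℕ) →₀ F`. Let `g : (ℕ →₀ F) →ₗ ((Fin N ⊕ ℕ) →₀ F)` send the basis vector `2n` to
`single (inr n) 1` and the odd ones to `0` (`Finsupp.linearCombination`), and
`Λ x := P (wdg ((psl N).map single) * ExteriorAlgebra.map g x)`.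
`ExteriorAlgebra.map g` is an algebra homomorphism with `ι v ↦ ι (g v)`.
* odd: one factor is `ι 0 = 0`.
* even: `ExteriorAlgebra.map g (prb (2 L)) = wdg ((L.map inr).map single)`, `wdg_append`,
  `exists_PfA`.
Consequences: `Λ` of `cr`/`an` on products (also used in D22):
* `lam_cr_odd`: `Λ (cr n x) = 0` for odd `n` (on `prb` by `IsLam.odd`, then `prb_span`).
* `lam_one`: `Λ 1 = pfL (AS D) (psl N)`.
-/

namespace Pool.Agent.Helper90.MVD

open Finset Pool.Agent.Helper60.MV Pool.Agent.Helper52.MVD

variable {F : Type} [Field F] [Algebra ℝ F] {N : ℕ} (D : DF F N)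

/-- even modes to the letters `inr`, odd modes to zero -/
private noncomputable def gmap (F : Type) [Field F] (N : ℕ) : (ℕ →₀ F) →ₗ[F] ((Fin N ⊕ ℕ) →₀ F) :=
  Finsupp.linearCombination F
    (fun n => if Even n then (Finsupp.single (Sum.inr (n / 2)) 1 : (Fin N ⊕ ℕ) →₀ F) else 0)

private theorem gmap_even (n : ℕ) :
    gmap F N (Finsupp.single (2 * n) 1) = Finsupp.single (Sum.inr n) 1 := by
  unfold gmap
  rw [Finsupp.linearCombination_single, one_smul, if_pos (even_two_mul n),
    Nat.mul_div_cancel_left _ (by norm_num : 0 < 2)]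

private theorem gmap_odd (n : ℕ) (hn : Odd n) : gmap F N (Finsupp.single n 1) = 0 := by
  unfold gmap
  rw [Finsupp.linearCombination_single, one_smul, if_neg (Nat.not_even_iff_odd.mpr hn)]

private theorem map_prb (L : List ℕ) :
    ExteriorAlgebra.map (gmap F N) (prb F L) =
      wdg (L.map fun n => gmap F N (Finsupp.single n 1)) := by
  induction L with
  | nil => simp [prb, wdg]
  | cons n L ih =>
    rw [List.map_cons, wdg_cons, ← ih]
    have h1 : prb F (n :: L) = ExteriorAlgebra.ι F (Finsupp.single n (1 : F)) * prb F L := by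
      unfold prb
      rw [List.map_cons, wdg_cons]
    rw [h1, map_mul, ExteriorAlgebra.map_apply_ι]

theorem exists_lam : ∃ Λ : Fk F →ₗ[F] F, IsLam D Λ := by
  obtain ⟨P, hP, hPL⟩ := exists_PfA (AS D) (AS_self D) (AS_symm D)
  refine ⟨P ∘ₗ (LinearMap.mulLeft F (wdg ((psl N).map fun a => Finsupp.single a 1))) ∘ₗ
    (ExteriorAlgebra.map (gmap F N)).toLinearMap, ?_, ?_⟩
  · rintro L ⟨n, hn, hodd⟩
    rw [LinearMap.comp_apply, LinearMap.comp_apply, AlgHom.toLinearMap_apply, map_prb,
      LinearMap.mulLeft_apply]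
    have h0 : (wdg (L.map fun n => gmap F N (Finsupp.single n 1)) :
        ExteriorAlgebra F ((Fin N ⊕ ℕ) →₀ F)) = 0 := by
      unfold wdg
      apply List.prod_eq_zero
      rw [List.map_map, List.mem_map]
      refine ⟨n, hn, ?_⟩
      rw [Function.comp_apply, gmap_odd n hodd, map_zero]
    rw [h0, mul_zero, map_zero]
  · intro L
    rw [LinearMap.comp_apply, LinearMap.comp_apply, AlgHom.toLinearMap_apply, map_prb,
      LinearMap.mulLeft_apply, ← wdg_append, ← hPL, List.map_append, List.map_map, List.map_map]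
    congr 3
    apply List.map_congr_left
    intro n _
    rw [Function.comp_apply, Function.comp_apply, gmap_even]

variable {D} {Λ : Fk F →ₗ[F] F}

theorem lam_cr_odd (hΛ : IsLam D Λ) (n : ℕ) (hn : Odd n) (x : Fk F) : Λ (cr F n x) = 0 := by
  have hx : x ∈ Submodule.span F (Set.range (prb F)) := by
    rw [prb_span]
    exact Submodule.mem_top
  induction hx using Submodule.span_induction with
  | mem z hz =>
    obtain ⟨L, rfl⟩ := hz
    rw [← prb_cons]
    exact hΛ.odd _ ⟨n, List.mem_cons_self, hn⟩
  | zero => simp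
  | add a b _ _ ha hb => rw [map_add, map_add, ha, hb, add_zero]
  | smul c a _ ha => rw [map_smul, map_smul, ha, smul_zero]

theorem lam_one (hΛ : IsLam D Λ) : Λ 1 = pfL (AS D) (psl N) := by
  have h := hΛ.even []
  rw [List.map_nil, List.map_nil, prb_nil, List.append_nil] at h
  exact h

/-- contraction of a product of basis vectors -/
theorem an_prb (n : ℕ) (L : List ℕ) :
    an F n (prb F L) = ∑ j : Fin L.length,
      ((-1) ^ (j : ℕ) * (if L.get j = n then 1 else 0) : F) • prb F (L.eraseIdx j) := by
  induction L with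
  | nil => rw [prb_nil, an_one]; simp
  | cons m L ih =>
    rw [prb_cons, an_cr, ih, map_sum]
    simp only [List.length_cons]
    rw [Fin.sum_univ_succ, sub_eq_add_neg, ← Finset.sum_neg_distrib]
    congr 1
    · simp only [Fin.val_zero, pow_zero, one_mul, List.get_eq_getElem, List.getElem_cons_zero,
        List.eraseIdx_zero, List.tail_cons]
      by_cases h : n = m
      · rw [if_pos h, if_pos h.symm, one_smul]
      · rw [if_neg h, if_neg (fun e => h e.symm), zero_smul]
    · apply Finset.sum_congr rfl
      intro j _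
      simp only [Fin.val_succ, List.get_eq_getElem, List.getElem_cons_succ,
        List.eraseIdx_cons_succ, prb_cons, map_smul]
      rw [← neg_smul]
      congr 1
      rw [pow_succ]
      ring

end Pool.Agent.Helper90.MVD
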