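import Pool.Agent.Helper90.MVD.PfL
import Pool.Agent.Helper90.MVD.PfE

/-!
Module MVD-3 (project MV, block D2): row operations, moving an entry, Schur complement for `pfL`.

Let `P` be the functional of `exists_PfA`, `e a := single a 1`, `ω := omA A`, and recall
`IsPf.wdg_eq` (value on a product of arbitrary vectors of `α →₀ R`).

* `pfL_rowop`: vectors `v a := e a + c a • e E`; `ω (v a) (v b) = A a b + c b A a E + c a A E b`
  (`A E E = 0`), `v E = e E`. In the exterior algebra `ι (e E) * ∏ ι (v a) = ι (e E) * ∏ ι (e a)`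
  (induction on the list; `ι(E) * x = ι(E) * y` implies `ι(E) * (ι v * x) = ι(E) * (ι v * y)` by
  anticommutation, and `ι(E) * (ι(E) * x) = 0`). So both sides are `P` of the same element; use
  `pfL_map` to pass from `pfL (fun u w => ω u w) (L.map v)` to arrays on `α`.
* `pfL_move`: `wdg P * ι v = (-1)^|P| ι v * wdg P`.
* `pfL_schur`: `v a := e a - ∑_k y a k • e (ψ k)` for `a ∈ L`. Then `ω (e (ψ i)) (v a) = 0`, hence
  `ω (v a) (v b) = ω (v a) (e b) = A a b - ∑_k y a k * A (ψ k) b`. With `Ψ := wdg (ψ-list)`: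
  `Ψ * wdg (L.map v) = Ψ * wdg (L.map e)` since `Ψ * ι (e (ψ k)) = 0` and vectors anticommute.
  Claim: `P (wdg Q * wdg L') = P (wdg Q) * P (wdg L')` whenever every vector of `Q` is orthogonal
  (`ω q w = 0`) to every vector `w` of `L'` (strong induction on the length of `Q`: `IsPf.mul`,
  `ctr_wdg_mul` twice: the contraction of `wdg L'` by `ω q` vanishes).
-/

namespace Pool.Agent.Helper90.MVD

open Finset Pool.Agent.Helper60.MV

variable {α R : Type} [CommRing R]

section aux

variable {M : Type} [AddCommGroup M] [Module R M]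

private theorem ι_swap (u v : M) : (ExteriorAlgebra.ι R u * ExteriorAlgebra.ι R v)
    = -(ExteriorAlgebra.ι R v * ExteriorAlgebra.ι R u) :=
  eq_neg_of_add_eq_zero_left (ExteriorAlgebra.ι_add_mul_swap u v)

private theorem wdg_mul_ι (Q : List M) (u : M) :
    (wdg Q : ExteriorAlgebra R M) * ExteriorAlgebra.ι R u
      = (-1 : ExteriorAlgebra R M) ^ Q.length * (ExteriorAlgebra.ι R u * wdg Q) := by
  induction Q with
  | nil => simp [wdg_nil]
  | cons q Q ih =>
    rw [wdg_cons, mul_assoc, ih, List.length_cons, pow_succ]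
    have h1 : Commute (ExteriorAlgebra.ι R q) ((-1 : ExteriorAlgebra R M) ^ Q.length) :=
      (Commute.neg_one_right _).pow_right _
    rw [← mul_assoc, h1.eq, mul_assoc, ← mul_assoc (ExteriorAlgebra.ι R q), ι_swap q u]
    rw [neg_mul, mul_neg, mul_neg_one, neg_mul, mul_assoc]

private theorem wdg_mul_mem (Q : List M) (q : M) (hq : q ∈ Q) :
    (wdg Q : ExteriorAlgebra R M) * ExteriorAlgebra.ι R q = 0 := by
  induction Q with
  | nil => simp at hq
  | cons p Q ih =>
    rw [wdg_cons, mul_assoc]
    rcases List.mem_cons.mp hq with h | h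
    · rw [wdg_mul_ι, ← h]
      have h1 : Commute (ExteriorAlgebra.ι R q) ((-1 : ExteriorAlgebra R M) ^ Q.length) :=
        (Commute.neg_one_right _).pow_right _
      rw [← mul_assoc, h1.eq, mul_assoc, ← mul_assoc (ExteriorAlgebra.ι R q),
        ExteriorAlgebra.ι_sq_zero, zero_mul, mul_zero]
    · rw [ih h, mul_zero]

private theorem wdg_repl {β : Type} (Q : List M) (v e : β → M) (L : List β)
    (h : ∀ a ∈ L, (wdg Q : ExteriorAlgebra R M) * ExteriorAlgebra.ι R (v a)
      = wdg Q * ExteriorAlgebra.ι R (e a)) :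
    (wdg Q : ExteriorAlgebra R M) * wdg (L.map v) = wdg Q * wdg (L.map e) := by
  induction L with
  | nil => rfl
  | cons a L ih =>
    have ih' := ih (fun b hb => h b (List.mem_cons_of_mem a hb))
    rw [List.map_cons, List.map_cons, wdg_cons, wdg_cons, ← mul_assoc, ← mul_assoc,
      h a List.mem_cons_self, wdg_mul_ι, mul_assoc, mul_assoc, mul_assoc, mul_assoc, ih']

private theorem ctr_wdg_zero (d : Module.Dual R M) (L : List M) (h : ∀ w ∈ L, d w = 0) :
    ctr d (wdg L) = 0 := by
  have h1 := ctr_wdg_mul d L 1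
  rw [mul_one, ctr_one, mul_zero, smul_zero, add_zero] at h1
  rw [h1]
  apply Finset.sum_eq_zero
  intro j _
  rw [h _ (List.get_mem L j), mul_zero, zero_smul]

private theorem pf_orth {ω : M →ₗ[R] Module.Dual R M} {P : ExteriorAlgebra R M →ₗ[R] R}
    (hP : IsPf ω P) (L : List M) : ∀ (n : ℕ) (Q : List M), Q.length = n →
    (∀ q ∈ Q, ∀ w ∈ L, ω q w = 0) → P (wdg Q * wdg L) = P (wdg Q) * P (wdg L) := by
  intro n
  induction n using Nat.strong_induction_on with
  | _ n ih =>
    intro Q hQ horth
    match Q, hQ, horth with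
    | [], _, _ => rw [wdg_nil, one_mul, hP.one, one_mul]
    | q :: Q, hQ, horth =>
      have hq : ctr (ω q) (wdg L) = 0 :=
        ctr_wdg_zero (ω q) L (horth q List.mem_cons_self)
      have e1 : P (wdg (q :: Q)) = ∑ j : Fin Q.length,
          ((-1) ^ (j : ℕ) * ω q (Q.get j)) * P (wdg (Q.eraseIdx j)) := by
        have h2 := ctr_wdg_mul (ω q) Q 1
        rw [mul_one, ctr_one, mul_zero, smul_zero, add_zero] at h2
        rw [wdg_cons, hP.mul, h2, map_sum]
        apply Finset.sum_congr rfl
        intro j _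
        rw [map_smul, mul_one, smul_eq_mul]
      have e2 : P (wdg (q :: Q) * wdg L) = ∑ j : Fin Q.length,
          ((-1) ^ (j : ℕ) * ω q (Q.get j)) * P (wdg (Q.eraseIdx j) * wdg L) := by
        rw [wdg_cons, mul_assoc, hP.mul, ctr_wdg_mul, hq, mul_zero, smul_zero, add_zero, map_sum]
        apply Finset.sum_congr rfl
        intro j _
        rw [map_smul, smul_eq_mul]
      rw [e2, e1, Finset.sum_mul]
      apply Finset.sum_congr rfl
      intro j _
      have hlen : (Q.eraseIdx j).length = Q.length - 1 := by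
        rw [List.length_eraseIdx, if_pos j.2]
      have hlt : Q.length - 1 < n := by
        rw [← hQ, List.length_cons]
        omega
      rw [ih (Q.length - 1) hlt (Q.eraseIdx j) hlen (fun q' hq' w hw =>
        horth q' (List.mem_cons_of_mem q (List.mem_of_mem_eraseIdx hq')) w hw)]
      ring

end aux

theorem pfL_rowop (A : α → α → R) (h0 : ∀ a, A a a = 0) (h : ∀ a b, A a b = - A b a)
    (E : α) (c : α → R) (hc : c E = 0) (L : List α) :
    pfL (fun a b => A a b + c b * A a E + c a * A E b) (E :: L) = pfL A (E :: L) := by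
  obtain ⟨P, hP, hPL⟩ := exists_PfA A h0 h
  set v : α → (α →₀ R) := fun a => Finsupp.single a 1 + c a • Finsupp.single E 1 with hv
  have e1 : (fun a b => A a b + c b * A a E + c a * A E b)
      = (fun a b => (fun u w : α →₀ R => omA A u w) (v a) (v b)) := by
    funext a b
    simp only [hv, map_add, map_smul, LinearMap.add_apply, LinearMap.smul_apply, omA_single,
      smul_eq_mul, h0 E]
    ring
  rw [e1, ← pfL_map v (fun u w : α →₀ R => omA A u w) (E :: L)]
  rw [← hP.wdg_eq, ← hPL (E :: L)]
  congr 1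
  have hvE : v E = Finsupp.single E 1 := by
    simp only [hv, hc, zero_smul, add_zero]
  rw [List.map_cons, List.map_cons, wdg_cons, wdg_cons, hvE]
  have h2 := wdg_repl (R := R) [Finsupp.single E (1 : R)] v (fun a => Finsupp.single a 1) L (by
    intro a _
    simp only [hv, map_add, map_smul, mul_add, mul_smul_comm]
    rw [wdg_mul_mem _ _ (List.mem_singleton.mpr rfl), smul_zero, add_zero])
  rw [wdg_cons, wdg_nil, mul_one] at h2
  exact h2

theorem pfL_move (A : α → α → R) (h0 : ∀ a, A a a = 0) (h : ∀ a b, A a b = - A b a)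
    (E : α) (P L : List α) (hP : Even P.length) :
    pfL A (P ++ E :: L) = pfL A (E :: (P ++ L)) := by
  obtain ⟨F, hF, hFL⟩ := exists_PfA A h0 h
  rw [← hFL, ← hFL]
  congr 1
  rw [List.map_append, List.map_cons, List.map_cons, List.map_append, wdg_append, wdg_cons,
    wdg_cons, wdg_append, ← mul_assoc, wdg_mul_ι, List.length_map, hP.neg_one_pow, one_mul,
    mul_assoc]

theorem pfL_schur (A : α → α → R) (h0 : ∀ a, A a a = 0) (h : ∀ a b, A a b = - A b a)
    {N : ℕ} (ψ : Fin N → α) (y : α → Fin N → R) (L : List α)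
    (hy : ∀ a ∈ L, ∀ i, A (ψ i) a = ∑ k, y a k * A (ψ i) (ψ k)) :
    pfL A (List.ofFn ψ ++ L) =
      pfL A (List.ofFn ψ) * pfL (fun a b => A a b - ∑ k, y a k * A (ψ k) b) L := by
  obtain ⟨P, hP, hPL⟩ := exists_PfA A h0 h
  set e : α → (α →₀ R) := fun a => Finsupp.single a 1 with he
  set v : α → (α →₀ R) := fun a => e a - ∑ k, y a k • e (ψ k) with hv
  have hωv : ∀ a b, omA A (v a) (e b) = A a b - ∑ k, y a k * A (ψ k) b := by
    intro a b
    simp only [hv, he, map_sub, map_sum, map_smul, LinearMap.sub_apply, LinearMap.sum_apply,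
      LinearMap.smul_apply, omA_single, smul_eq_mul]
  have hωe : ∀ a ∈ L, ∀ i, omA A (e (ψ i)) (v a) = 0 := by
    intro a ha i
    simp only [hv, he, map_sub, map_sum, map_smul, omA_single, smul_eq_mul]
    rw [hy a ha i, sub_self]
  have hanti : ∀ u w, omA A u w = - omA A w u := by
    intro u w
    have h1 := omA_alt A h0 h (u + w)
    simp only [map_add, LinearMap.add_apply] at h1
    rw [omA_alt A h0 h u, omA_alt A h0 h w] at h1
    rw [eq_neg_iff_add_eq_zero]
    linear_combination h1
  have hωvv : ∀ a ∈ L, ∀ b ∈ L, omA A (v a) (v b) = A a b - ∑ k, y a k * A (ψ k) b := by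
    intro a ha b hb
    have h1 : omA A (v a) (v b) = omA A (v a) (e b) - ∑ k, y b k * omA A (v a) (e (ψ k)) := by
      have h2 : v b = e b - ∑ k, y b k • e (ψ k) := rfl
      rw [h2, map_sub, map_sum]
      simp only [map_smul, smul_eq_mul]
    rw [h1, hωv a b]
    have h2 : ∑ k, y b k * omA A (v a) (e (ψ k)) = 0 := by
      apply Finset.sum_eq_zero
      intro k _
      rw [hanti, hωe a ha k, neg_zero, mul_zero]
    rw [h2, sub_zero]
  rw [← hPL, List.map_append, wdg_append]
  have e1 : (wdg ((List.ofFn ψ).map e) : ExteriorAlgebra R (α →₀ R)) * wdg (L.map e)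
      = wdg ((List.ofFn ψ).map e) * wdg (L.map v) := by
    symm
    apply wdg_repl
    intro a _
    simp only [hv, map_sub, map_sum, map_smul, mul_sub, Finset.mul_sum, mul_smul_comm]
    rw [sub_eq_self]
    apply Finset.sum_eq_zero
    intro k _
    rw [wdg_mul_mem _ _ (List.mem_map_of_mem (List.mem_ofFn.mpr ⟨k, rfl⟩)), smul_zero]
  rw [e1, pf_orth hP (L.map v) _ _ rfl, hPL, hP.wdg_eq, pfL_map]
  · congr 1
    apply pfL_congr
    apply List.pairwise_of_forall_mem_list
    intro a ha b hb
    exact hωvv a ha b hb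
  · intro q hq w hw
    obtain ⟨x, hx, rfl⟩ := List.mem_map.mp hq
    obtain ⟨i, rfl⟩ := List.mem_ofFn.mp hx
    obtain ⟨a, ha, rfl⟩ := List.mem_map.mp hw
    exact hωe a ha i

end Pool.Agent.Helper90.MVD
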