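import Pool.Agent.Helper90.MVD.AhatDef
import Pool.Agent.Helper90.MVD.PfRow
import Pool.Agent.Helper90.MVD.LamEx

/-!
Module MVD-20a (project MV, block D2): coefficients of the Pfaffian with the letter `E`
(`AhatDef.lean`).

`coeff_Ahat`. Let `L0 = psl N ++ ns.map inr`, `S = ns.sum`. For an integer `R` with `0 ≤ R + S`:
  `coeff (R+S) (pfL Ahat (none :: L0.map some)) = Λ (φ_{2R} (prb (2 ns)))`.
  Left side (`pfL_cons`, `pfL_map`, `pfL_scale`, `pfL_hom` for `C`): `∑_j (-1)^j Ahat E (L0_j) *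
  W^(S - w(L0_j)) * C (pfL (AS D) (L0.eraseIdx j))`, where `w ψ_i = 0`, `w e_n = n`
  (`Ahat (some a) (some b) = W^(w a) * W^(w b) * C (AS a b)`; equivalently
  `W^(w(L0_j)) * ∏ over the erased list of W^w = W^S`).
  * `R > 0`: the `e`-letters do not contribute (`coeff_{R+S}` of `bt n W^{S-n}` is `0`), the letter `ψ_i`
    contributes `(-1)^j (-2 κ_R(i))`. Right side: `Λ (prb (2 (R :: ns))) = pfL AS (psl N ++ inr R :: ..)`
    `= pfL AS (inr R :: L0)` (`pfL_move`, `N` even) and `AS (inr R) (inl i) = - 2 κ_R(i)`,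
    `AS (inr R) (inr n) = 0`.
  * `R = 0`: `φ_0 x = cr 0 x + an 0 x`; `cr 0` gives the letters `ψ_i` with `-1` (`coeff_0 (1 - 2k_i) = -1`,
    and again `Λ (prb (0 :: 2 ns)) = pfL AS (inr 0 :: L0)`);
    `an 0` (`an_prb`, note `2 n = 0 ↔ n = 0`) gives the letters `e_0` with sign `(-1)^j` (position in
    `ns`), and the position in `L0` is `N + j`, `N` even.
  * `R < 0`: `φ_{2R} = 2 an_{2|R|}` (`phi_neg`); letters `e_n`, `n = |R|`: `coeff_{S-n}` of `2 W^{S-n}`;
    letters `ψ_i`: `coeff_{R+S} ((1 - 2k_i) W^S) = 0`.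
  (It is convenient to prove first the formula
  `∑_j (-1)^j dR (L0_j) * pfL AS (L0.eraseIdx j)` for both sides, where `dR (inl i)` is the coefficient
  of `W^R` in `1 - 2 k_i` (`0` for `R < 0`) and `dR (inr n) = [R = -n] * (1 or 2)`.)
-/

namespace Pool.Agent.Helper90.MVD

open Finset Pool.Agent.Helper60.MV Pool.Agent.Helper52.MVD

variable {F : Type} [Field F] [Algebra ℝ F] {N : ℕ} (D : DF F N)

section aux

private theorem pfL_cons2 {α R : Type} [CommRing R] (A : α → α → R) (x : α) (xs : List α) :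
    pfL A (x :: xs) =
      ∑ j ∈ range xs.length, (-1) ^ j * (xs[j]?.elim 0 (A x)) * pfL A (xs.eraseIdx j) := by
  rw [pfL_cons, Finset.sum_range]
  refine Finset.sum_congr rfl fun j _ => ?_
  rw [List.getElem?_eq_getElem j.2]
  rfl

private noncomputable def ts (D : DF F N) (δ : Fin N ⊕ ℕ → F) (L : List (Fin N ⊕ ℕ)) : F :=
  ∑ j ∈ range L.length, (-1) ^ j * (L[j]?.elim 0 δ) * pfL (AS D) (L.eraseIdx j)

private theorem ts_congr (δ δ' : Fin N ⊕ ℕ → F) (L : List (Fin N ⊕ ℕ))
    (h : ∀ a ∈ L, δ a = δ' a) : ts D δ L = ts D δ' L := by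
  unfold ts
  refine Finset.sum_congr rfl fun j hj => ?_
  have hj' := Finset.mem_range.1 hj
  rw [List.getElem?_eq_getElem hj']
  simp only [Option.elim_some]
  rw [h _ (List.getElem_mem hj')]

private theorem ts_add (δ δ' : Fin N ⊕ ℕ → F) (L : List (Fin N ⊕ ℕ)) :
    ts D (fun a => δ a + δ' a) L = ts D δ L + ts D δ' L := by
  unfold ts
  rw [← Finset.sum_add_distrib]
  refine Finset.sum_congr rfl fun j hj => ?_
  have hj' := Finset.mem_range.1 hj
  rw [List.getElem?_eq_getElem hj']
  simp only [Option.elim_some]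
  ring

private theorem ts_smul (c : F) (δ : Fin N ⊕ ℕ → F) (L : List (Fin N ⊕ ℕ)) :
    ts D (fun a => c * δ a) L = c * ts D δ L := by
  unfold ts
  rw [Finset.mul_sum]
  refine Finset.sum_congr rfl fun j hj => ?_
  have hj' := Finset.mem_range.1 hj
  rw [List.getElem?_eq_getElem hj']
  simp only [Option.elim_some]
  ring

private theorem ts_cr (hN : Even N) {Λ : Fk F →ₗ[F] F} (hΛ : IsLam D Λ) (ns : List ℕ) (r : ℕ) :
    Λ (cr F (2 * r) (prb F (ns.map fun n => 2 * n))) =
      ts D (AS D (Sum.inr r)) (psl N ++ ns.map Sum.inr) := by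
  have h1 : cr F (2 * r) (prb F (ns.map fun n => 2 * n)) =
      prb F ((r :: ns).map fun n => 2 * n) := by
    rw [List.map_cons, prb_cons]
  rw [h1, hΛ.even, List.map_cons,
    pfL_move (AS D) (AS_self D) (AS_symm D) _ _ _ (by simpa [psl] using hN), pfL_cons2]
  rfl

private theorem ts_an (hN : Even N) {Λ : Fk F →ₗ[F] F} (hΛ : IsLam D Λ) (ns : List ℕ) (n : ℕ) :
    Λ (an F (2 * n) (prb F (ns.map fun n => 2 * n))) =
      ts D (fun a => if a = Sum.inr n then 1 else 0) (psl N ++ ns.map Sum.inr) := by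
  have hlen : (psl N).length = N := by simp [psl]
  unfold ts
  rw [List.length_append, hlen, Finset.sum_range_add]
  have h1 : ∑ x ∈ range N, (-1 : F) ^ x * ((psl N ++ ns.map Sum.inr)[x]?.elim 0
      (fun a => if a = Sum.inr n then 1 else 0)) *
      pfL (AS D) ((psl N ++ ns.map Sum.inr).eraseIdx x) = 0 := by
    apply Finset.sum_eq_zero
    intro x hx
    have hx' := Finset.mem_range.1 hx
    rw [List.getElem?_append_left (by rw [hlen]; exact hx')]
    have h2 : (psl N)[x]? = some (Sum.inl ⟨x, hx'⟩) := by simp [psl, hx']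
    rw [h2]
    simp
  rw [h1, zero_add, an_prb, map_sum, Finset.sum_range]
  refine Fintype.sum_equiv (finCongr (by rw [List.length_map, List.length_map])) _ _ fun j => ?_
  have hj : (j : ℕ) < ns.length := lt_of_lt_of_eq j.2 (List.length_map _)
  rw [map_smul, List.eraseIdx_map, hΛ.even, finCongr_apply, Fin.val_cast, pow_add, hN.neg_one_pow,
    one_mul, List.getElem?_append_right (by rw [hlen]; omega), hlen, Nat.add_sub_cancel_left,
    List.getElem?_map, List.getElem?_eq_getElem hj,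
    List.eraseIdx_append_of_length_le (by rw [hlen]; omega), hlen, Nat.add_sub_cancel_left,
    List.eraseIdx_map, smul_eq_mul]
  simp only [Option.map_some, Option.elim_some, List.get_eq_getElem, List.getElem_map,
    Sum.inr.injEq, Nat.mul_left_cancel_iff (show 0 < 2 by norm_num)]

private def wt : Fin N ⊕ ℕ → ℕ
  | Sum.inl _ => 0
  | Sum.inr n => n

private theorem Ahat_some (a b : Fin N ⊕ ℕ) : Ahat D (some a) (some b) =
    PowerSeries.X ^ wt a * PowerSeries.X ^ wt b * PowerSeries.C (AS D a b) := by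
  cases a <;> cases b <;> simp [Ahat, AS, wt]

private theorem pf_some (L : List (Fin N ⊕ ℕ)) : pfL (Ahat D) (L.map some) =
    PowerSeries.X ^ (L.map wt).sum * PowerSeries.C (pfL (AS D) L) := by
  rw [pfL_map]
  have h1 : (fun a b => Ahat D (some a) (some b)) = fun a b => PowerSeries.X ^ wt a *
      PowerSeries.X ^ wt b * (fun a b => PowerSeries.C (AS D a b)) a b := by
    funext a b
    exact Ahat_some D a b
  rw [h1, pfL_scale (fun a => PowerSeries.X ^ wt a), pfL_hom]
  congr 1
  clear h1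
  induction L with
  | nil => simp
  | cons a L ih => rw [List.map_cons, List.prod_cons, ih, List.map_cons, List.sum_cons, pow_add]

private theorem wt_erase (L : List (Fin N ⊕ ℕ)) (j : ℕ) (hj : j < L.length) :
    ((L.eraseIdx j).map wt).sum = (L.map wt).sum - wt L[j] := by
  have h1 := ((List.getElem_cons_eraseIdx_perm hj).map wt).sum_eq
  rw [List.map_cons, List.sum_cons] at h1
  omega

private theorem wt_L0 (ns : List ℕ) : ((psl N ++ ns.map Sum.inr).map wt).sum = ns.sum := by
  rw [List.map_append, List.sum_append, List.map_map]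
  have h1 : ((psl N).map wt).sum = 0 := by
    rw [psl, List.map_ofFn, List.sum_ofFn]
    exact Finset.sum_eq_zero fun i _ => rfl
  have h2 : (ns.map (wt ∘ (Sum.inr : ℕ → Fin N ⊕ ℕ))) = ns := by
    have h3 : (wt ∘ (Sum.inr : ℕ → Fin N ⊕ ℕ)) = id := by
      funext n
      rfl
    rw [h3, List.map_id]
  rw [h1, h2, zero_add]

private theorem coeff_pf (ns : List ℕ) (k : ℕ) :
    PowerSeries.coeff k (pfL (Ahat D) (Elist N ns)) =
      ts D (fun a => PowerSeries.coeff k (Ahat D none (some a) *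
        PowerSeries.X ^ (ns.sum - wt a))) (psl N ++ ns.map Sum.inr) := by
  unfold Elist ts
  rw [pfL_cons2, map_sum, List.length_map]
  refine Finset.sum_congr rfl fun j hj => ?_
  have hj' := Finset.mem_range.1 hj
  rw [List.getElem?_map, List.getElem?_eq_getElem hj', List.eraseIdx_map, pf_some, wt_erase _ _ hj',
    wt_L0]
  simp only [Option.map_some, Option.elim_some]
  have h1 : (-1 : PowerSeries F) ^ j = PowerSeries.C ((-1) ^ j) := by
    rw [map_pow, map_neg, map_one]
  rw [h1, mul_assoc, PowerSeries.coeff_C_mul, ← mul_assoc, PowerSeries.coeff_mul_C, mul_assoc]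

private theorem coeff_bt (n m : ℕ) : PowerSeries.coeff m (bt F n) =
    if m = 0 then (if n = 0 then 1 else 2) else 0 := by
  unfold bt
  have h2 : (2 : PowerSeries F) = PowerSeries.C 2 := by
    rw [map_ofNat]
  by_cases h1 : n = 0
  · rw [if_pos h1, if_pos h1, PowerSeries.coeff_one]
  · rw [if_neg h1, if_neg h1, h2, PowerSeries.coeff_C]

private theorem coeff_kk (i : Fin N) (m : ℕ) : PowerSeries.coeff m (1 - 2 * kser D i) =
    - bc D i m := by
  have h2 : (2 : PowerSeries F) = PowerSeries.C 2 := by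
    rw [map_ofNat]
  rw [h2, map_sub, PowerSeries.coeff_C_mul, PowerSeries.coeff_one]
  unfold kser bc
  rw [PowerSeries.coeff_mk]
  split_ifs with h
  · subst h
    have h3 : kap D i 0 = 1 := by
      simp [kap, cc]
    rw [h3]
    norm_num
  · rw [zero_sub]

private theorem wt_le (ns : List ℕ) (n : ℕ) (h : n ∈ ns) : n ≤ ns.sum :=
  List.single_le_sum (by simp) n h

end aux

theorem coeff_Ahat (hN : Even N) {Λ : Fk F →ₗ[F] F} (hΛ : IsLam D Λ) (ns : List ℕ) (R : ℤ)
    (k : ℕ) (hk : (k : ℤ) = R + ns.sum) :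
    PowerSeries.coeff k (pfL (Ahat D) (Elist N ns)) =
      Λ (phi F (2 * R) (prb F (ns.map fun n => 2 * n))) := by
  rw [coeff_pf]
  have hinl : ∀ i : Fin N, PowerSeries.coeff k (Ahat D none (some (Sum.inl i)) *
      PowerSeries.X ^ (ns.sum - wt (Sum.inl i : Fin N ⊕ ℕ))) =
      if ns.sum ≤ k then - bc D i (k - ns.sum) else 0 := by
    intro i
    rw [PowerSeries.coeff_mul_X_pow']
    simp only [Ahat, wt, Nat.sub_zero, coeff_kk]
  have hinr : ∀ n : ℕ, n ≤ ns.sum → PowerSeries.coeff k (Ahat D none (some (Sum.inr n)) *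
      PowerSeries.X ^ (ns.sum - wt (Sum.inr n : Fin N ⊕ ℕ))) =
      if (R : ℤ) = -(n : ℤ) then (if n = 0 then 1 else 2) else 0 := by
    intro n hn
    rw [PowerSeries.coeff_mul_X_pow']
    simp only [Ahat, wt, coeff_bt]
    by_cases h1 : (R : ℤ) = -(n : ℤ)
    · rw [if_pos h1, if_pos (by omega), if_pos (by omega)]
    · rw [if_neg h1]
      by_cases h2 : ns.sum - n ≤ k
      · rw [if_pos h2, if_neg (by omega)]
      · rw [if_neg h2]
  have hmem : ∀ a ∈ psl N ++ ns.map Sum.inr, (∃ i, a = Sum.inl i) ∨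
      (∃ n, n ≤ ns.sum ∧ a = Sum.inr n) := by
    intro a ha
    rcases a with i | n
    · exact Or.inl ⟨i, rfl⟩
    · refine Or.inr ⟨n, ?_, rfl⟩
      rcases List.mem_append.1 ha with h | h
      · simp [psl] at h
      · obtain ⟨m, hm, hmn⟩ := List.mem_map.1 h
        have : m = n := by simpa using hmn
        subst this
        exact wt_le ns m hm
  rcases lt_trichotomy R 0 with hR | hR | hR
  · obtain ⟨n, hn0, rfl⟩ : ∃ n : ℕ, 0 < n ∧ R = -(n : ℤ) := ⟨R.natAbs, by omega, by omega⟩
    have h1 : (2 * -(n : ℤ)) = -((2 * n : ℕ) : ℤ) := by push_cast; ring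
    rw [h1, phi_neg F (2 * n) (by omega), map_smul, ts_an D hN hΛ, smul_eq_mul, pow_mul]
    have h2 : (2 * ((-1) ^ 2) ^ n : F) = 2 := by simp
    rw [h2, ← ts_smul]
    refine ts_congr D _ _ _ fun a ha => ?_
    rcases hmem a ha with ⟨i, rfl⟩ | ⟨m, hm, rfl⟩
    · rw [hinl, if_neg (by omega)]
      simp
    · rw [hinr m hm]
      by_cases hmn : m = n
      · subst hmn
        rw [if_pos rfl, if_neg (by omega), if_pos rfl, mul_one]
      · rw [if_neg (by omega), if_neg (by simpa using hmn), mul_zero]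
  · subst hR
    rw [mul_zero, phi_zero, map_add]
    have h1 := ts_cr D hN hΛ ns 0
    have h2 := ts_an D hN hΛ ns 0
    rw [mul_zero] at h1 h2
    rw [h1, h2, ← ts_add]
    refine ts_congr D _ _ _ fun a ha => ?_
    rcases hmem a ha with ⟨i, rfl⟩ | ⟨m, hm, rfl⟩
    · rw [hinl, if_pos (by omega)]
      have h3 : k - ns.sum = 0 := by omega
      rw [h3]
      simp [AS]
    · rw [hinr m hm]
      by_cases hm0 : m = 0
      · subst hm0
        simp [AS]
      · rw [if_neg (by omega)]
        simp [AS, hm0]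
  · obtain ⟨r, hr0, rfl⟩ : ∃ r : ℕ, 0 < r ∧ R = (r : ℤ) := ⟨R.natAbs, by omega, by omega⟩
    have h1 : (2 * (r : ℤ)) = ((2 * r : ℕ) : ℤ) := by push_cast; ring
    rw [h1, phi_pos F (2 * r) (by omega), ts_cr D hN hΛ]
    refine ts_congr D _ _ _ fun a ha => ?_
    rcases hmem a ha with ⟨i, rfl⟩ | ⟨m, hm, rfl⟩
    · rw [hinl, if_pos (by omega)]
      have h3 : k - ns.sum = r := by omega
      rw [h3]
      rfl
    · rw [hinr m hm, if_neg (by omega)]
      rfl

end Pool.Agent.Helper90.MVD
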