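import Pool.Agent.Helper90.MVD.Fock

/-!
Module MVD-10 (project MV, block D2): the currents `J_j = α_{-(2j+1)} = ½ ∑_r φ_{2j+1-2r} φ_{2r}`.

Let `κ = 2j+1`. Local finiteness: if `φ_n x = 0` for `n ≤ -B` (`phi_fin`), then
`φ_{κ-2r} φ_{2r} x = 0` for `2r ≤ -B`, and, since `(κ-2r) + 2r = κ ≠ 0` so that
`φ_{κ-2r} φ_{2r} x = - φ_{2r} φ_{κ-2r} x` (`phi_phi`), also for `κ - 2r ≤ -B`. So the sums over
`Icc (-B) B` are eventually constant.
* `exists_cur`: define `J j x` as `½ ∑ᶠ r` (or as the eventual value, or `limUnder`); additivity and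
  homogeneity because the sums over `Icc (-B) B` are additive and eventually constant.
* `cur_phi`: for `B` large, `J j (φ_n x) - φ_n (J j x) = ½ ∑_{|r| ≤ B} [φ_{κ-2r} φ_{2r}, φ_n] x`, and
  `[ab, c] = a{b,c} - {a,c}b`, `{φ_m,φ_n} = 2 (-1)^m δ_{m+n,0}`. If `n` is even only
  `{φ_{2r}, φ_n}` can be nonzero (`r = -n/2`): the bracket is `2 φ_{κ+n}`; if `n` is odd only
  `{φ_{κ-2r}, φ_n}` (`2r = κ+n`): `-(2 (-1)^{κ-2r}) φ_{2r} = 2 φ_{κ+n}`. In both cases `½ · 2 φ_{κ+n}`.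
* `vac_cur` (`j ≥ 0`): each term: if `κ - 2r > 0` then `φ_{κ-2r}` is `cr` on the left and `vac = 0`;
  else `r > 0` and `φ_{κ-2r} φ_{2r} x = - φ_{2r} φ_{κ-2r} x` starts with `cr (2r)`.
* `cur_one` (`j < 0`, `κ < 0`): `r < 0`: `φ_{2r} 1 = 0`; `r ≥ 0`: `κ - 2r < 0` and
  `φ_{κ-2r} φ_{2r} 1 = - φ_{2r} φ_{κ-2r} 1 = 0`.
* `cur_fin`: `J j x = 0` for `j ≪ 0`: with `B` as above, `2r ≤ -B` or `κ - 2r ≤ -B` as soon as
  `κ ≤ -2B`.
-/

namespace Pool.Agent.Helper90.MVD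

open Finset Pool.Agent.Helper60.MV

variable (F : Type) [Field F] [CharZero F]

/-- the term of the current -/
noncomputable def curT (j r : ℤ) : Fk F →ₗ[F] Fk F :=
  (phi F (2 * j + 1 - 2 * r)).comp (phi F (2 * r))

/-- the partial sum of the current -/
noncomputable def curS (j : ℤ) (B : ℕ) : Fk F →ₗ[F] Fk F :=
  ∑ r ∈ Icc (-(B : ℤ)) B, curT F j r

theorem curS_apply (j : ℤ) (B : ℕ) (x : Fk F) :
    curS F j B x = ∑ r ∈ Icc (-(B : ℤ)) B, phi F (2 * j + 1 - 2 * r) (phi F (2 * r) x) := by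
  unfold curS
  rw [LinearMap.sum_apply]
  rfl

theorem curT_swap (j r : ℤ) (x : Fk F) :
    curT F j r x = - phi F (2 * r) (phi F (2 * j + 1 - 2 * r) x) := by
  have h := phi_phi F (2 * j + 1 - 2 * r) (2 * r) x
  rw [if_neg (by omega), zero_smul, zero_sub] at h
  exact h

theorem curT_zero (j r : ℤ) (x : Fk F) (B : ℕ) (hx : ∀ n : ℤ, n ≤ -(B : ℤ) → phi F n x = 0)
    (h : 2 * r ≤ -(B : ℤ) ∨ 2 * j + 1 - 2 * r ≤ -(B : ℤ)) : curT F j r x = 0 := by
  rcases h with h | h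
  · unfold curT
    rw [LinearMap.comp_apply, hx _ h, map_zero]
  · rw [curT_swap, hx _ h, map_zero, neg_zero]

theorem curS_stable (j : ℤ) (x : Fk F) (B₁ : ℕ)
    (hx : ∀ n : ℤ, n ≤ -(B₁ : ℤ) → phi F n x = 0) (B B' : ℕ)
    (hB : B₁ + (2 * j + 1).natAbs ≤ B) (hB' : B ≤ B') : curS F j B' x = curS F j B x := by
  unfold curS
  rw [LinearMap.sum_apply, LinearMap.sum_apply]
  symm
  apply Finset.sum_subset
  · intro r hr
    rw [Finset.mem_Icc] at hr ⊢
    omega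
  · intro r _ hr
    apply curT_zero F j r x B₁ hx
    rw [Finset.mem_Icc] at hr
    omega

theorem curS_stable' (j : ℤ) (x : Fk F) :
    ∃ B₀ : ℕ, ∀ B : ℕ, B₀ ≤ B → curS F j B x = curS F j B₀ x := by
  obtain ⟨B₁, h1⟩ := phi_fin F x
  exact ⟨B₁ + (2 * j + 1).natAbs, fun B hB => curS_stable F j x B₁ h1 _ _ le_rfl hB⟩

theorem exists_cur : ∃ J : ℤ → Fk F →ₗ[F] Fk F, IsCur F J := by
  choose B₀ hB₀ using fun (j : ℤ) (x : Fk F) => curS_stable' F j x
  refine ⟨fun j =>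
    { toFun := fun x => (1 / 2 : F) • curS F j (B₀ j x) x
      map_add' := fun x y => ?_
      map_smul' := fun c x => ?_ }, fun j x => ?_⟩
  · set B := B₀ j x + B₀ j y + B₀ j (x + y) with hB
    rw [← hB₀ j x B (by omega), ← hB₀ j y B (by omega), ← hB₀ j (x + y) B (by omega), map_add,
      smul_add]
  · set B := B₀ j x + B₀ j (c • x) with hB
    rw [← hB₀ j x B (by omega), ← hB₀ j (c • x) B (by omega), map_smul, RingHom.id_apply,
      smul_comm]
  · refine ⟨B₀ j x, fun B hB => ?_⟩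
    change (1 / 2 : F) • curS F j (B₀ j x) x = _
    rw [← hB₀ j x B hB, curS_apply]

variable {F} {J : ℤ → Fk F →ₗ[F] Fk F}

theorem cur_eq (hJ : IsCur F J) (j : ℤ) (x : Fk F) (B₁ : ℕ)
    (hx : ∀ n : ℤ, n ≤ -(B₁ : ℤ) → phi F n x = 0) (B : ℕ)
    (hB : B₁ + (2 * j + 1).natAbs ≤ B) : J j x = (1 / 2 : F) • curS F j B x := by
  obtain ⟨B₀, h0⟩ := hJ j x
  rw [h0 (B₀ + B) (by omega), ← curS_apply, curS_stable F j x B₁ hx B (B₀ + B) hB (by omega)]

theorem curT_phi (j r n : ℤ) (x : Fk F) :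
    curT F j r (phi F n x) - phi F n (curT F j r x) =
      (if 2 * r + n = 0 then 2 * (-1) ^ (2 * r).natAbs else 0 : F) • phi F (2 * j + 1 - 2 * r) x -
      (if 2 * j + 1 - 2 * r + n = 0 then 2 * (-1) ^ (2 * j + 1 - 2 * r).natAbs else 0 : F) •
        phi F (2 * r) x := by
  have h1 := phi_phi F (2 * r) n x
  have h2 := phi_phi F (2 * j + 1 - 2 * r) n (phi F (2 * r) x)
  unfold curT
  rw [LinearMap.comp_apply, LinearMap.comp_apply, h1, map_sub, map_smul, h2]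
  abel

theorem cur_phi (hJ : IsCur F J) (j n : ℤ) (x : Fk F) :
    J j (phi F n x) = phi F n (J j x) + phi F (n + (2 * j + 1)) x := by
  obtain ⟨B₁, h1⟩ := phi_fin F x
  obtain ⟨B₂, h2⟩ := phi_fin F (phi F n x)
  have h1' : ∀ m : ℤ, m ≤ -((B₁ + B₂ : ℕ) : ℤ) → phi F m x = 0 := fun m hm => h1 m (by omega)
  have h2' : ∀ m : ℤ, m ≤ -((B₁ + B₂ : ℕ) : ℤ) → phi F m (phi F n x) = 0 :=
    fun m hm => h2 m (by omega)
  set B := B₁ + B₂ + (2 * j + 1).natAbs + n.natAbs with hB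
  rw [cur_eq hJ j x (B₁ + B₂) h1' B (by omega), cur_eq hJ j (phi F n x) (B₁ + B₂) h2' B (by omega),
    map_smul]
  have h3 : curS F j B (phi F n x) - phi F n (curS F j B x) =
      (2 : F) • phi F (n + (2 * j + 1)) x := by
    unfold curS
    rw [LinearMap.sum_apply, LinearMap.sum_apply, map_sum, ← Finset.sum_sub_distrib,
      Finset.sum_congr rfl fun r _ => curT_phi j r n x]
    rcases Int.even_or_odd' n with ⟨k, hk | hk⟩
    · rw [Finset.sum_eq_single (-k)]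
      · rw [if_pos (by omega), if_neg (by omega), zero_smul, sub_zero]
        have h4 : (2 * -k).natAbs = 2 * k.natAbs := by omega
        have h5 : 2 * j + 1 - 2 * -k = n + (2 * j + 1) := by omega
        rw [h4, h5, pow_mul, neg_one_sq, one_pow, mul_one]
      · intro r _ hr
        rw [if_neg (by omega), if_neg (by omega), zero_smul, zero_smul, sub_zero]
      · intro h
        exact absurd (Finset.mem_Icc.2 (by omega)) h
    · rw [Finset.sum_eq_single (j + k + 1)]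
      · rw [if_neg (by omega), if_pos (by omega), zero_smul, zero_sub]
        have h4 : Odd (2 * j + 1 - 2 * (j + k + 1)).natAbs := by
          rw [Int.natAbs_odd]
          exact ⟨-k - 1, by ring⟩
        have h5 : 2 * (j + k + 1) = n + (2 * j + 1) := by omega
        rw [h4.neg_one_pow, h5, ← neg_smul]
        congr 1
        ring
      · intro r _ hr
        rw [if_neg (by omega), if_neg (by omega), zero_smul, zero_smul, sub_zero]
      · intro h
        exact absurd (Finset.mem_Icc.2 (by omega)) h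
  have h4 : curS F j B (phi F n x) = phi F n (curS F j B x) + (2 : F) • phi F (n + (2 * j + 1)) x := by
    rw [← h3]
    abel
  rw [h4, smul_add, smul_smul]
  norm_num

theorem vac_cur (hJ : IsCur F J) (j : ℤ) (hj : 0 ≤ j) (x : Fk F) : vac F (J j x) = 0 := by
  obtain ⟨B₁, h1⟩ := phi_fin F x
  rw [cur_eq hJ j x B₁ h1 _ le_rfl, map_smul]
  unfold curS
  rw [LinearMap.sum_apply, map_sum, Finset.sum_eq_zero, smul_zero]
  intro r _
  have key : ∀ (m : ℤ) (y : Fk F), 0 < m → vac F (phi F m y) = 0 := by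
    intro m y hm
    obtain ⟨m', rfl⟩ := Int.eq_ofNat_of_zero_le hm.le
    have := phi_pos F m' (by omega) y
    rw [show ((m' : ℕ) : ℤ) = (m' : ℤ) from rfl] at *
    rw [this, vac_cr]
  by_cases h : 0 < 2 * j + 1 - 2 * r
  · exact key _ _ h
  · rw [curT_swap, map_neg, key _ _ (by omega), neg_zero]

theorem cur_one (hJ : IsCur F J) (j : ℤ) (hj : j < 0) : J j 1 = 0 := by
  obtain ⟨B₁, h1⟩ := phi_fin F (1 : Fk F)
  rw [cur_eq hJ j 1 B₁ h1 _ le_rfl]
  unfold curS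
  rw [LinearMap.sum_apply, Finset.sum_eq_zero, smul_zero]
  intro r _
  by_cases h : r < 0
  · unfold curT
    rw [LinearMap.comp_apply, phi_one_neg F (2 * r) (by omega), map_zero]
  · rw [curT_swap, phi_one_neg F (2 * j + 1 - 2 * r) (by omega), map_zero, neg_zero]

theorem cur_fin (hJ : IsCur F J) (x : Fk F) : ∃ B : ℕ, ∀ j : ℤ, j ≤ -(B : ℤ) → J j x = 0 := by
  obtain ⟨B₁, h1⟩ := phi_fin F x
  refine ⟨B₁ + 1, fun j hj => ?_⟩
  rw [cur_eq hJ j x B₁ h1 _ le_rfl]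
  unfold curS
  rw [LinearMap.sum_apply, Finset.sum_eq_zero, smul_zero]
  intro r _
  exact curT_zero F j r x B₁ h1 (by omega)

end Pool.Agent.Helper90.MVD
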