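import Pool.Agent.Helper90.MVD.OpA

/-!
Module MVD-18 (project MV, block D2): the operator `𝒜_i` on the entries of the Pfaffians (D2.1).

Notation: `W = PowerSeries.X`, `κ_n = kap D i n = c_n s^{-n}`, `k = kser D i = ∑ W^n κ_n`,
`𝒟 = dD D i` (coefficientwise `D_i = ∂_i - 1/(2 s_i)`), `K = act (KK i)`, so `K g = h ↔ h + W 𝒟h = g`.
* `D_i κ_n = - κ_{n+1}` (`c_{n+1} = (n + 1/2) c_n`, `∂_i s^{-n} = -n s^{-n-1}`).
* Hence `k + W 𝒟k = ∑ W^n κ_n - ∑ W^{n+1} κ_{n+1} = 1`: `K 1 = k`.
* `act_E`: `K k = h` where `W h = (1/2) W k + s (k - 1)`, i.e. `h = k/2 + s (k-1)/W`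
  (`h_n = κ_n/2 + s κ_{n+1} = (n+1) κ_n`). Check of `h + W 𝒟h = k` coefficientwise:
  `h_{n+1} + D_i h_n = (n+2) κ_{n+1} - [(n+1) κ_{n+1}] = κ_{n+1}` (`h_n = (n+1) κ_n` since
  `s κ_{n+1} = (n+1/2) κ_n`), `h_0 = κ_0 = 1 = k_0`.
  Then `𝒜(2k-1) = 2k - 1 - W s^{-1} (2 K k - K 1) = 2k - 1 - W s^{-1} (2h - k)`, and coefficient
  `n+1`: `2 κ_{n+1} - s^{-1} (2(n+1) - 1) κ_n = 2 κ_{n+1} - 2 s^{-1} (n+1/2) κ_n = 0`; coefficient `0`:
  `2 - 1 = 1`. So `𝒜(2k-1) = 1`.
* `act_kap`: `K (C κ_n) = ∑_m W^m κ_{n+m}` (check `+ W 𝒟`), so `W^n K (C κ_n) = k - ∑_{m<n} W^m κ_m`, and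
  `W^n 𝒜 (C κ_n) = W^n κ_n - W s^{-1} (k - ∑_{m<n} W^m κ_m) = (1 - W s^{-1} k) + rem`,
  `rem = W^n κ_n - 1 + ∑_{m<n} W^{m+1} s^{-1} κ_m`.
* `act_sig`: `K_1 K_2 σ =: x`, `K_1 σ = x + W 𝒟_2 x`, `K_2 σ = x + W 𝒟_1 x`. Claim (multiply by
  `s_1 s_2 / W`): `-s_2 K_1 σ - s_1 K_2 σ + W x = s_2 k_1 - s_1 k_2`. Apply the injective operator
  `(1+W𝒟_1)(1+W𝒟_2)` (injective by `act_KK_iff`): left side:
  `-(1+W𝒟_2)(s_2 σ) - (1+W𝒟_1)(s_1 σ) + W σ = -(s_1+s_2) σ - W (s_1 D_1 σ + s_2 D_2 σ) - 2 W σ + W σ`,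
  and `s_1 D_1 σ + s_2 D_2 σ = (s_1 ∂_1 + s_2 ∂_2) σ - σ = -σ` (homogeneous of degree 0), so it is
  `-(s_1+s_2) σ = -(s_1 - s_2)`; right side: `(1+W𝒟_2) s_2 - (1+W𝒟_1) s_1 = s_2 + W/2 - s_1 - W/2`
  (`(1+W𝒟_i) k_i = 1`, and `𝒟_i` commutes with functions of the other variable, `D_i s_i = 1/2`).
  Then `𝒜_1 𝒜_2 σ = σ - W s_1^{-1} K_1 σ - W s_2^{-1} K_2 σ + W² s_1^{-1} s_2^{-1} x
  = σ + W s_1^{-1} k_1 - W s_2^{-1} k_2 = σ - U_1 + U_2`.
  Coefficientwise alternative (helper14): `(s_1+s_2) x_n = (n+1) x_{n-1} + c_n (s_1 s_2^{-n} - s_2 s_1^{-n})`.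
-/

namespace Pool.Agent.Helper90.MVD

open Finset Pool.Agent.Helper60.MV Pool.Agent.Helper52.MVD

variable {F : Type} [Field F] [Algebra ℝ F] {N : ℕ} (D : DF F N)

/-- the polynomial part of `W^n 𝒜_i κ_n` -/
noncomputable def rem (i : Fin N) (n : ℕ) : PowerSeries F :=
  PowerSeries.X ^ n * PowerSeries.C (kap D i n) - 1 +
    ∑ m ∈ range n, PowerSeries.X ^ (m + 1) * PowerSeries.C (kap D i m * (1 / D.s i))

theorem rem_deg (i : Fin N) (n k : ℕ) (hk : n < k) : PowerSeries.coeff k (rem D i n) = 0 := by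
  unfold rem
  have h1 : PowerSeries.coeff k (PowerSeries.X ^ n * PowerSeries.C (kap D i n)) = (0 : F) := by
    rw [mul_comm, PowerSeries.coeff_C_mul, PowerSeries.coeff_X_pow, if_neg (by omega), mul_zero]
  have h2 : ∀ m ∈ range n, PowerSeries.coeff k
      (PowerSeries.X ^ (m + 1) * PowerSeries.C (kap D i m * (1 / D.s i))) = (0 : F) := by
    intro m hm
    have := Finset.mem_range.1 hm
    rw [mul_comm, PowerSeries.coeff_C_mul, PowerSeries.coeff_X_pow, if_neg (by omega), mul_zero]
  rw [map_add, map_sub, h1, map_sum, Finset.sum_eq_zero h2, PowerSeries.coeff_one,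
    if_neg (by omega)]
  ring

theorem cc_succ' (n : ℕ) : cc (n + 1) = cc n * ((n : ℝ) + 1 / 2) := by
  unfold cc
  rw [Finset.prod_range_succ]

theorem kap_zero (i : Fin N) : kap D i 0 = 1 := by
  simp [kap, cc]

theorem kap_succ (i : Fin N) (n : ℕ) :
    kap D i (n + 1) = ((n : F) + 1 / 2) * (1 / D.s i) * kap D i n := by
  have := charZero_of_real F
  unfold kap
  rw [cc_succ', map_mul, map_add, map_natCast, map_div₀, map_one, map_ofNat]
  ring

theorem rem_zero (i : Fin N) : rem D i 0 = 0 := by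
  unfold rem
  rw [kap_zero]
  simp

/-! ### the operator `DD` on elements -/

theorem DD_apply' (i : Fin N) (x : F) : D.DD i x = D.d i x - 1 / (2 * D.s i) * x := rfl

theorem half_inv (i : Fin N) : 1 / (2 * D.s i) = (1 / 2 : F) * (1 / D.s i) := by
  rw [one_div_mul_one_div]

theorem d_inv (i j : Fin N) (hij : i ≠ j) : D.d i (1 / D.s j) = 0 := by
  rw [one_div, Derivation.leibniz_inv, D.ds, if_neg hij, smul_zero]

theorem d_inv_self (i : Fin N) : D.d i (1 / D.s i) = -(1 / D.s i) ^ 2 := by
  rw [one_div, Derivation.leibniz_inv, D.ds, if_pos rfl, smul_eq_mul, mul_one]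

theorem d_real (i : Fin N) (a : ℝ) : D.d i (algebraMap ℝ F a) = 0 := Derivation.map_algebraMap _ _

theorem d_half (i : Fin N) : D.d i (1 / 2 : F) = 0 := by
  have h := d_real D i (1 / 2 : ℝ)
  rw [map_div₀, map_one, map_ofNat] at h
  exact h

theorem d_inv_pow (i : Fin N) (n : ℕ) :
    D.d i ((1 / D.s i) ^ n) = -((n : F) * (1 / D.s i) ^ (n + 1)) := by
  induction n with
  | zero => simp
  | succ n ih =>
    rw [pow_succ, Derivation.leibniz, ih, d_inv_self]
    simp only [smul_eq_mul]
    push_cast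
    ring

theorem DD_kap (i : Fin N) (n : ℕ) : D.DD i (kap D i n) = - kap D i (n + 1) := by
  rw [DD_apply', kap_succ]
  unfold kap
  rw [Derivation.leibniz, d_inv_pow, d_real, half_inv]
  simp only [smul_eq_mul]
  ring

theorem DD_kap_ne (i j : Fin N) (hij : i ≠ j) (n : ℕ) :
    D.DD i (kap D j n) = - (1 / (2 * D.s i)) * kap D j n := by
  rw [DD_apply']
  have h : D.d i (kap D j n) = 0 := by
    unfold kap
    rw [Derivation.leibniz, Derivation.leibniz_pow, d_inv D i j hij, d_real]
    simp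
  rw [h]
  ring

theorem DD_comm' (i j : Fin N) (hij : i ≠ j) (x : F) :
    D.DD i (D.DD j x) = D.DD j (D.DD i x) := by
  have h1 : ∀ (a b : Fin N), a ≠ b → D.d a (1 / (2 * D.s b)) = 0 := by
    intro a b hab
    rw [half_inv, Derivation.leibniz, d_inv D a b hab, d_half]
    simp
  rw [DD_apply', DD_apply', DD_apply', DD_apply', map_sub, map_sub, Derivation.leibniz,
    Derivation.leibniz, h1 i j hij, h1 j i (Ne.symm hij), D.comm i j x]
  simp only [smul_eq_mul]
  ring

/-! ### coefficientwise -/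

theorem dD_add (i : Fin N) (g h : PowerSeries F) : dD D i (g + h) = dD D i g + dD D i h := by
  ext n
  simp only [dD, PowerSeries.coeff_mk, map_add]

theorem dD_sub (i : Fin N) (g h : PowerSeries F) : dD D i (g - h) = dD D i g - dD D i h := by
  ext n
  simp only [dD, PowerSeries.coeff_mk, map_sub]

theorem dD_neg (i : Fin N) (g : PowerSeries F) : dD D i (-g) = - dD D i g := by
  ext n
  simp only [dD, PowerSeries.coeff_mk, map_neg]

theorem dD_C (i : Fin N) (c : F) : dD D i (PowerSeries.C c) = PowerSeries.C (D.DD i c) := by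
  ext n
  simp only [dD, PowerSeries.coeff_mk, PowerSeries.coeff_C]
  split
  · rfl
  · exact map_zero _

theorem dD_X_mul (i : Fin N) (g : PowerSeries F) :
    dD D i (PowerSeries.X * g) = PowerSeries.X * dD D i g := by
  ext n
  cases n with
  | zero =>
    simp only [dD, PowerSeries.coeff_mk, PowerSeries.coeff_zero_X_mul, map_zero]
  | succ n =>
    simp only [dD, PowerSeries.coeff_mk, PowerSeries.coeff_succ_X_mul]

theorem dD_C_mul (i : Fin N) (c : F) (g : PowerSeries F) :
    dD D i (PowerSeries.C c * g) = PowerSeries.C (D.d i c) * g + PowerSeries.C c * dD D i g := by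
  ext n
  simp only [dD, PowerSeries.coeff_mk, PowerSeries.coeff_C_mul, map_add, DD_apply',
    Derivation.leibniz, smul_eq_mul]
  ring

theorem dD_comm' (i j : Fin N) (hij : i ≠ j) (g : PowerSeries F) :
    dD D i (dD D j g) = dD D j (dD D i g) := by
  ext n
  simp only [dD, PowerSeries.coeff_mk]
  exact DD_comm' D i j hij _

/-- injectivity of `1 + X dD` -/
theorem L_inj (i : Fin N) (y : PowerSeries F) (h : y + PowerSeries.X * dD D i y = 0) : y = 0 := by
  rw [← (act_KK_iff D i 0 y).2 h, act_zero]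

theorem L_kser (i : Fin N) : kser D i + PowerSeries.X * dD D i (kser D i) = 1 := by
  ext n
  cases n with
  | zero =>
    simp only [map_add, PowerSeries.coeff_zero_X_mul, kser, PowerSeries.coeff_mk, kap_zero,
      PowerSeries.coeff_one, add_zero, if_true]
  | succ n =>
    simp only [map_add, PowerSeries.coeff_succ_X_mul, kser, dD, PowerSeries.coeff_mk, DD_kap,
      PowerSeries.coeff_one]
    simp

theorem dD_kser_ne (i j : Fin N) (hij : i ≠ j) :
    dD D i (kser D j) = - (PowerSeries.C (1 / (2 * D.s i)) * kser D j) := by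
  ext n
  simp only [dD, kser, PowerSeries.coeff_mk, map_neg, PowerSeries.coeff_C_mul,
    DD_kap_ne D i j hij]
  ring

theorem act_KK_E (i : Fin N) : act (D.KK i) (2 * kser D i - 1) =
    PowerSeries.mk fun n => ((2 * (n : F) + 1) * kap D i n) := by
  rw [act_KK_iff]
  have h2 : (2 : PowerSeries F) = PowerSeries.C (2 : F) := (map_ofNat PowerSeries.C 2).symm
  ext n
  cases n with
  | zero =>
    rw [h2]
    simp only [map_add, map_sub, PowerSeries.coeff_zero_X_mul, kser, PowerSeries.coeff_mk,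
      kap_zero, PowerSeries.coeff_one, PowerSeries.coeff_C_mul, if_true]
    push_cast
    ring
  | succ n =>
    have h3 : D.DD i ((2 * (n : F) + 1) * kap D i n) = -((2 * (n : F) + 1) * kap D i (n + 1)) := by
      have h4 : (2 * (n : F) + 1) * kap D i n = (2 * (n : ℝ) + 1) • kap D i n := by
        rw [Algebra.smul_def, map_add, map_mul, map_natCast, map_ofNat, map_one]
      have h5 : (2 * (n : F) + 1) * kap D i (n + 1) = (2 * (n : ℝ) + 1) • kap D i (n + 1) := by
        rw [Algebra.smul_def, map_add, map_mul, map_natCast, map_ofNat, map_one]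
      rw [h4, map_smul, DD_kap, smul_neg, h5]
    rw [h2]
    simp only [map_add, map_sub, PowerSeries.coeff_succ_X_mul, kser, dD, PowerSeries.coeff_mk,
      PowerSeries.coeff_one, PowerSeries.coeff_C_mul, h3]
    rw [if_neg (Nat.succ_ne_zero n)]
    push_cast
    ring

theorem act_E (i : Fin N) : act (D.AA i) (2 * kser D i - 1) = 1 := by
  have := charZero_of_real F
  rw [act_AA_eq, act_KK_E]
  have h2 : (2 : PowerSeries F) = PowerSeries.C (2 : F) := (map_ofNat PowerSeries.C 2).symm
  rw [h2]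
  ext n
  cases n with
  | zero =>
    simp only [map_sub, PowerSeries.coeff_zero_X_mul, kser, PowerSeries.coeff_mk,
      kap_zero, PowerSeries.coeff_one, PowerSeries.coeff_C_mul, if_true]
    ring
  | succ n =>
    simp only [map_sub, PowerSeries.coeff_succ_X_mul, kser, PowerSeries.coeff_mk,
      PowerSeries.coeff_one, PowerSeries.coeff_C_mul]
    rw [if_neg (Nat.succ_ne_zero n), kap_succ]
    ring

theorem shift_kser (i : Fin N) (n : ℕ) :
    PowerSeries.X ^ n * (PowerSeries.mk fun m => kap D i (n + m)) +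
      ∑ m ∈ range n, PowerSeries.X ^ m * PowerSeries.C (kap D i m) = kser D i := by
  induction n with
  | zero => simp [kser]
  | succ n ih =>
    rw [← ih, Finset.sum_range_succ]
    have h1 : (PowerSeries.mk fun m => kap D i (n + m)) =
        PowerSeries.X * (PowerSeries.mk fun m => kap D i (n + 1 + m)) +
          PowerSeries.C (kap D i n) := by
      ext m
      cases m with
      | zero =>
        simp only [map_add, PowerSeries.coeff_zero_X_mul, PowerSeries.coeff_mk,
          PowerSeries.coeff_C, if_true, add_zero, zero_add]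
      | succ m =>
        simp only [map_add, PowerSeries.coeff_succ_X_mul, PowerSeries.coeff_mk,
          PowerSeries.coeff_C]
        rw [if_neg (Nat.succ_ne_zero m), add_zero]
        congr 1
        ring
    rw [h1]
    ring

theorem act_KK_kap (i : Fin N) (n : ℕ) : act (D.KK i) (PowerSeries.C (kap D i n)) =
    PowerSeries.mk fun m => kap D i (n + m) := by
  rw [act_KK_iff]
  ext m
  cases m with
  | zero =>
    simp only [map_add, PowerSeries.coeff_zero_X_mul, PowerSeries.coeff_mk,
      PowerSeries.coeff_C, if_true, add_zero]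
  | succ m =>
    simp only [map_add, PowerSeries.coeff_succ_X_mul, PowerSeries.coeff_mk, dD,
      PowerSeries.coeff_C, DD_kap]
    rw [if_neg (Nat.succ_ne_zero m)]
    have : n + (m + 1) = n + m + 1 := by ring
    rw [this]
    ring

theorem act_kap (i : Fin N) (n : ℕ) :
    PowerSeries.X ^ n * act (D.AA i) (PowerSeries.C (kap D i n)) = Us D i + rem D i n := by
  rw [act_AA_eq, act_KK_kap]
  have h := shift_kser D i n
  have h1 : ∑ m ∈ range n, (PowerSeries.X : PowerSeries F) ^ (m + 1) *
      PowerSeries.C (kap D i m * (1 / D.s i)) =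
      PowerSeries.X * (PowerSeries.C (1 / D.s i) *
        ∑ m ∈ range n, PowerSeries.X ^ m * PowerSeries.C (kap D i m)) := by
    rw [Finset.mul_sum, Finset.mul_sum]
    refine Finset.sum_congr rfl fun m _ => ?_
    rw [map_mul]
    ring
  unfold Us rem
  rw [h1, ← h]
  ring

theorem sig_eq (i j : Fin N) : (D.s i + D.s j) * sig D i j = D.s i - D.s j := by
  unfold sig
  rw [mul_div_cancel₀ _ (s_add_ne D i j)]

theorem sig_hom (i j : Fin N) (hij : i ≠ j) :
    D.s i * D.d i (sig D i j) + D.s j * D.d j (sig D i j) = 0 := by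
  have h1 := congrArg (D.d i) (sig_eq D i j)
  have h2 := congrArg (D.d j) (sig_eq D i j)
  simp only [Derivation.leibniz, map_add, map_sub, D.ds, if_neg hij, if_neg (Ne.symm hij),
    if_true, smul_eq_mul] at h1 h2
  have h3 := sig_eq D i j
  have h4 := s_add_ne D i j
  apply mul_left_cancel₀ h4
  linear_combination (D.s i) * h1 + (D.s j) * h2 - h3

theorem DD_s_sig (i j : Fin N) (hij : i ≠ j) :
    D.DD j (D.s j * sig D i j) + D.s i * D.DD i (sig D i j) = 0 := by
  have := charZero_of_real F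
  rw [DD_apply', DD_apply', Derivation.leibniz, D.ds, if_pos rfl]
  simp only [smul_eq_mul]
  have h := sig_hom D i j hij
  have hi := s_ne D i
  have hj := s_ne D j
  have h1 : 1 / (2 * D.s j) * (D.s j * sig D i j) = 1 / 2 * sig D i j := by
    field_simp
  have h2 : D.s i * (1 / (2 * D.s i) * sig D i j) = 1 / 2 * sig D i j := by
    field_simp
  rw [h1, mul_sub, h2]
  linear_combination h

theorem DD_s (j : Fin N) : D.DD j (D.s j) = 1 / 2 := by
  have := charZero_of_real F
  rw [DD_apply', D.ds, if_pos rfl]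
  have hj := s_ne D j
  field_simp
  norm_num

theorem act_sig (i j : Fin N) (hij : i ≠ j) :
    act (D.AA i) (act (D.AA j) (PowerSeries.C (sig D i j))) =
      PowerSeries.C (sig D i j) - Us D i + Us D j := by
  have := charZero_of_real F
  set σ : F := sig D i j with hσ
  set A := act (D.KK i) (PowerSeries.C σ) with hA
  set B := act (D.KK j) (PowerSeries.C σ) with hB
  set x := act (D.KK i) B with hx
  have f1 : A + PowerSeries.X * dD D i A = PowerSeries.C σ := (act_KK_iff D i _ _).1 hA.symm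
  have f2 : B + PowerSeries.X * dD D j B = PowerSeries.C σ := (act_KK_iff D j _ _).1 hB.symm
  have f3 : x + PowerSeries.X * dD D i x = B := (act_KK_iff D i _ _).1 hx.symm
  have f4 := L_kser D i
  have f5 := L_kser D j
  have f6 := dD_kser_ne D i j hij
  have f7 : dD D i B + PowerSeries.X * dD D j (dD D i B) = PowerSeries.C (D.DD i σ) := by
    have := congrArg (dD D i) f2
    rw [dD_add, dD_X_mul, dD_comm' D i j hij, dD_C] at this
    exact this
  have hsi := s_ne D i
  have hsj := s_ne D j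
  have hhalf : PowerSeries.C (D.s i) * PowerSeries.C (1 / (2 * D.s i)) =
      (PowerSeries.C (1 / 2) : PowerSeries F) := by
    rw [← map_mul]
    congr 1
    field_simp
  have hC2 : (PowerSeries.C (1 / 2) : PowerSeries F) + PowerSeries.C (1 / 2) = 1 := by
    rw [← map_add]
    norm_num
  -- the main identity
  set z : PowerSeries F := -(PowerSeries.C (D.s j * σ)) -
      PowerSeries.C (D.s i) * (B + PowerSeries.X * dD D i B) - PowerSeries.C (D.s j) +
      PowerSeries.C (D.s i) * kser D j + PowerSeries.X * (PowerSeries.C (1 / 2) * kser D j) with hz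
  have hz0 : z = 0 := by
    apply L_inj D j
    have hdz : dD D j z = -(PowerSeries.C (D.DD j (D.s j * σ))) -
        PowerSeries.C (D.s i) * (dD D j B + PowerSeries.X * dD D j (dD D i B)) -
        PowerSeries.C (1 / 2) + PowerSeries.C (D.s i) * dD D j (kser D j) +
        PowerSeries.X * (PowerSeries.C (1 / 2) * dD D j (kser D j)) := by
      rw [hz]
      simp only [dD_add, dD_sub, dD_neg, dD_X_mul, dD_C_mul, dD_C, D.ds, if_neg (Ne.symm hij),
        map_zero, zero_mul, zero_add, d_half, DD_s]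
    rw [hdz, hz]
    have e1 : (PowerSeries.C (D.s j * σ) : PowerSeries F) + PowerSeries.C (D.s i) *
        PowerSeries.C σ + PowerSeries.C (D.s j) - PowerSeries.C (D.s i) = 0 := by
      rw [← map_mul, ← map_add, ← map_add, ← map_sub]
      rw [show D.s j * σ + D.s i * σ + D.s j - D.s i = 0 by
        have := sig_eq D i j
        rw [← hσ] at this
        linear_combination this]
      exact map_zero _
    have e2 : (PowerSeries.C (D.DD j (D.s j * σ)) : PowerSeries F) +
        PowerSeries.C (D.s i) * PowerSeries.C (D.DD i σ) = 0 := by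
      rw [← map_mul, ← map_add, hσ, DD_s_sig D i j hij]
      exact map_zero _
    linear_combination (-(PowerSeries.C (D.s i))) * f2 -
      (PowerSeries.C (D.s i)) * PowerSeries.X * f7 + (PowerSeries.C (D.s i)) * f5 +
      PowerSeries.X * PowerSeries.C (1 / 2) * f5 - e1 - PowerSeries.X * e2
  have hy0 : -(PowerSeries.C (D.s j) * A) - PowerSeries.C (D.s i) * B + PowerSeries.X * x -
      PowerSeries.C (D.s j) * kser D i + PowerSeries.C (D.s i) * kser D j = 0 := by
    apply L_inj D i
    simp only [dD_add, dD_sub, dD_neg, dD_X_mul, dD_C_mul, D.ds, if_neg hij, if_true,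
      map_zero, zero_mul, zero_add, map_one, one_mul, f6]
    have hmul : (PowerSeries.C (D.s j * σ) : PowerSeries F) =
      PowerSeries.C (D.s j) * PowerSeries.C σ := map_mul _ _ _
    rw [hz, hmul] at hz0
    linear_combination hz0 - (PowerSeries.C (D.s j)) * f1 + PowerSeries.X * f3 -
      (PowerSeries.C (D.s j)) * f4 - PowerSeries.X * kser D j * hhalf +
      PowerSeries.X * kser D j * (1 - hC2)
  have hAA : act (D.AA i) (act (D.AA j) (PowerSeries.C σ)) =
      PowerSeries.C σ - PowerSeries.X * (PowerSeries.C (1 / D.s i) * A) -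
      PowerSeries.X * (PowerSeries.C (1 / D.s j) *
        (B - PowerSeries.X * (PowerSeries.C (1 / D.s i) * x))) := by
    rw [act_AA_eq D j, act_sub, act_X_mul, act_AA_cst D i _ _ (Cst.C_inv D j i (Ne.symm hij)),
      act_AA_eq D i (PowerSeries.C σ), act_AA_eq D i (act (D.KK j) (PowerSeries.C σ))]
  rw [hAA]
  unfold Us
  have hti : (PowerSeries.C (D.s i) : PowerSeries F) * PowerSeries.C (1 / D.s i) = 1 := by
    rw [← map_mul, mul_one_div, div_self hsi, map_one]
  have htj : (PowerSeries.C (D.s j) : PowerSeries F) * PowerSeries.C (1 / D.s j) = 1 := by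
    rw [← map_mul, mul_one_div, div_self hsj, map_one]
  linear_combination PowerSeries.X * PowerSeries.C (1 / D.s i) * PowerSeries.C (1 / D.s j) * hy0 +
    PowerSeries.X * PowerSeries.C (1 / D.s i) * (A + kser D i) * htj +
    PowerSeries.X * PowerSeries.C (1 / D.s j) * (B - kser D j) * hti

end Pool.Agent.Helper90.MVD
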