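import Pool.Agent.Helper90.MVD.AhatDef
import Pool.Agent.Helper90.MVD.OpB
import Pool.Agent.Helper90.MVD.ActPf
import Pool.Agent.Helper90.MVD.PfRow

/-!
Module MVD-20b (project MV, block D2): degree of `𝒜^{⊗N}` of the Pfaffian with the letter `E`
(`AhatDef.lean`).

`deg_act`: `coeff k (act AN (pfL Ahat (none :: L0.map some))) = 0` for `k > S = ns.sum`,
`L0 = psl N ++ ns.map inr`.
  `act_AN` and `act_pfL` with `v (some (inl i)) = some i`, otherwise `none` (`filterMap v` of the list is
  `List.finRange N`; the constants: `Cst.C_sig`, `Cst.kser`, `Cst.C_kap`, `Cst.X_pow`, `bc`, ...)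
  give `pfL A' (none :: ..)` with (use `act_sig`, `act_E`, `act_kap`, `act_AA_cst`, `act_neg`;
  `act (AA i) (1 - 2k_i) = -1`; `bc i n = (1 or 2) κ_n`, a factor 2 is a constant)
  `A' ψ_i ψ_j = σ_ij - U_i + U_j`, `A' E ψ_i = -1`, `A' ψ_i e_n = bt n (U_i + rem_i n)`,
  `A' E e_n = bt n`, `A' e e = 0`.
  Row operation `pfL_rowop` with `c ψ_i = U_i`, `c = 0` otherwise, and the array
  `Bf ψ_i ψ_j = C σ_ij`, `Bf ψ_i E = 1`, `Bf E ψ_i = -1`, `Bf ψ_i e_n = bt n rem_i n`, `Bf E e_n = bt n`
  (antisymmetric, zero on the diagonal): `A' a b = Bf a b + c b Bf a E + c a Bf E b`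
  (needed for `a` before `b` in the list only: `pfL_congr`). So it is `pfL Bf (none :: ..)`, and
  `pfL_deg` with `wt e_n = n`, `0` otherwise (`rem_deg`) gives the claim (`∑ wt = S`).
-/

namespace Pool.Agent.Helper90.MVD

open Finset Pool.Agent.Helper60.MV Pool.Agent.Helper52.MVD

variable {F : Type} [Field F] [Algebra ℝ F] {N : ℕ} (D : DF F N)

/-- the variable of a letter -/
private def vv {N : ℕ} : Option (Fin N ⊕ ℕ) → Option (Fin N)
  | some (Sum.inl i) => some i
  | _ => none

private theorem cst_one (k : Fin N) : Cst D k (1 : PowerSeries F) := by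
  have h := Cst.C_real D k 1
  rwa [map_one, map_one] at h

private theorem cst_zero (k : Fin N) : Cst D k (0 : PowerSeries F) := by
  have h := Cst.C_real D k 0
  rwa [map_zero, map_zero] at h

private theorem cst_two (k : Fin N) : Cst D k (2 : PowerSeries F) := by
  have h := Cst.add D (cst_one D k) (cst_one D k)
  rwa [one_add_one_eq_two] at h

private theorem cst_bt (k : Fin N) (n : ℕ) : Cst D k (bt F n) := by
  unfold bt
  split_ifs
  · exact cst_one D k
  · exact cst_two D k

private theorem C_bc (i : Fin N) (n : ℕ) :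
    PowerSeries.C (bc D i n) = bt F n * PowerSeries.C (kap D i n) := by
  unfold bc bt
  split_ifs with h
  · rw [h, kap_zero, map_one, mul_one]
  · rw [map_mul, map_ofNat]

private theorem cst_bc (i k : Fin N) (hik : i ≠ k) (n : ℕ) :
    Cst D k (PowerSeries.X ^ n * PowerSeries.C (bc D i n)) := by
  rw [C_bc]
  exact Cst.mul D (Cst.X_pow D k n) (Cst.mul D (cst_bt D k n) (Cst.C_kap D i k hik n))

private theorem cst_Ahat (a b : Option (Fin N ⊕ ℕ)) (k : Fin N) (ha : vv a ≠ some k)
    (hb : vv b ≠ some k) : Cst D k (Ahat D a b) := by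
  match a, b, ha, hb with
  | some (Sum.inl i), some (Sum.inl j), ha, hb =>
    exact Cst.C_sig D i j k (fun h => ha (by rw [vv, h])) (fun h => hb (by rw [vv, h]))
  | some (Sum.inl i), some (Sum.inr n), ha, _ =>
    exact cst_bc D i k (fun h => ha (by rw [vv, h])) n
  | some (Sum.inr n), some (Sum.inl i), _, hb =>
    exact Cst.neg D (cst_bc D i k (fun h => hb (by rw [vv, h])) n)
  | some (Sum.inr _), some (Sum.inr _), _, _ => exact cst_zero D k
  | none, some (Sum.inl i), _, hb =>
    have h1 := Cst.mul D (cst_two D k) (Cst.kser D i k (fun h => hb (by rw [vv, h])))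
    have h2 := Cst.add D (cst_one D k) (Cst.neg D h1)
    rw [← sub_eq_add_neg] at h2
    exact h2
  | some (Sum.inl i), none, ha, _ =>
    have h1 := Cst.mul D (cst_two D k) (Cst.kser D i k (fun h => ha (by rw [vv, h])))
    have h2 := Cst.add D h1 (Cst.neg D (cst_one D k))
    rw [← sub_eq_add_neg] at h2
    exact h2
  | none, some (Sum.inr n), _, _ => exact cst_bt D k n
  | some (Sum.inr n), none, _, _ => exact Cst.neg D (cst_bt D k n)
  | none, none, _, _ => exact cst_zero D k

/-- the array after the row operation -/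
private noncomputable def Bf : Option (Fin N ⊕ ℕ) → Option (Fin N ⊕ ℕ) → PowerSeries F
  | some (Sum.inl i), some (Sum.inl j) => PowerSeries.C (sig D i j)
  | some (Sum.inl i), some (Sum.inr n) => bt F n * rem D i n
  | some (Sum.inr n), some (Sum.inl i) => - (bt F n * rem D i n)
  | some (Sum.inr _), some (Sum.inr _) => 0
  | none, some (Sum.inl _) => -1
  | some (Sum.inl _), none => 1
  | none, some (Sum.inr n) => bt F n
  | some (Sum.inr n), none => - bt F n
  | none, none => 0

private noncomputable def cf : Option (Fin N ⊕ ℕ) → PowerSeries F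
  | some (Sum.inl i) => Us D i
  | _ => 0

private def wtf {N : ℕ} : Option (Fin N ⊕ ℕ) → ℕ
  | some (Sum.inr n) => n
  | _ => 0

private theorem sigd_neg (i j : Fin N) : sig D i j = - sig D j i := by
  unfold sig
  rw [← neg_div, neg_sub, add_comm (D.s j)]

private theorem sigd_self (i : Fin N) : sig D i i = 0 := by
  unfold sig
  rw [sub_self, zero_div]

private theorem Bf_diag (a : Option (Fin N ⊕ ℕ)) : Bf D a a = 0 := by
  match a with
  | some (Sum.inl i) =>
    show PowerSeries.C (sig D i i) = 0
    rw [sigd_self, map_zero]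
  | some (Sum.inr _) => rfl
  | none => rfl

private theorem Bf_anti (a b : Option (Fin N ⊕ ℕ)) : Bf D a b = - Bf D b a := by
  match a, b with
  | some (Sum.inl i), some (Sum.inl j) =>
    show PowerSeries.C (sig D i j) = - PowerSeries.C (sig D j i)
    rw [sigd_neg, map_neg]
  | some (Sum.inl i), some (Sum.inr n) => exact (neg_neg _).symm
  | some (Sum.inr n), some (Sum.inl i) => rfl
  | some (Sum.inr _), some (Sum.inr _) => exact neg_zero.symm
  | none, some (Sum.inl i) => rfl
  | some (Sum.inl i), none => exact (neg_neg _).symm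
  | none, some (Sum.inr n) => exact (neg_neg _).symm
  | some (Sum.inr n), none => rfl
  | none, none => exact neg_zero.symm

omit [Algebra ℝ F] in
private theorem coeff_one_pos (k : ℕ) (hk : 0 < k) :
    PowerSeries.coeff k (1 : PowerSeries F) = 0 := by
  rw [PowerSeries.coeff_one, if_neg hk.ne']

omit [Algebra ℝ F] in
private theorem coeff_bt_mul (n k : ℕ) (g : PowerSeries F) (hg : PowerSeries.coeff k g = 0) :
    PowerSeries.coeff k (bt F n * g) = 0 := by
  unfold bt
  split_ifs
  · rw [one_mul, hg]
  · rw [two_mul, map_add, hg, add_zero]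

private theorem Bf_deg (a b : Option (Fin N ⊕ ℕ)) (k : ℕ) (hk : wtf a + wtf b < k) :
    PowerSeries.coeff k (Bf D a b) = 0 := by
  have hk0 : 0 < k := lt_of_le_of_lt (Nat.zero_le _) hk
  match a, b, hk with
  | some (Sum.inl i), some (Sum.inl j), _ =>
    show PowerSeries.coeff k (PowerSeries.C (sig D i j)) = 0
    rw [PowerSeries.coeff_C, if_neg hk0.ne']
  | some (Sum.inl i), some (Sum.inr n), hk =>
    show PowerSeries.coeff k (bt F n * rem D i n) = 0
    apply coeff_bt_mul
    apply rem_deg
    have : wtf (some (Sum.inl i) : Option (Fin N ⊕ ℕ)) + wtf (some (Sum.inr n) :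
      Option (Fin N ⊕ ℕ)) = n := by simp [wtf]
    omega
  | some (Sum.inr n), some (Sum.inl i), hk =>
    show PowerSeries.coeff k (-(bt F n * rem D i n)) = 0
    rw [map_neg, neg_eq_zero]
    apply coeff_bt_mul
    apply rem_deg
    have : wtf (some (Sum.inr n) : Option (Fin N ⊕ ℕ)) + wtf (some (Sum.inl i) :
      Option (Fin N ⊕ ℕ)) = n := by simp [wtf]
    omega
  | some (Sum.inr _), some (Sum.inr _), _ => exact map_zero _
  | none, some (Sum.inl i), _ =>
    show PowerSeries.coeff k (-1 : PowerSeries F) = 0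
    rw [map_neg, coeff_one_pos k hk0, neg_zero]
  | some (Sum.inl i), none, _ => exact coeff_one_pos k hk0
  | none, some (Sum.inr n), _ =>
    show PowerSeries.coeff k (bt F n) = 0
    rw [← mul_one (bt F n)]
    exact coeff_bt_mul n k 1 (coeff_one_pos k hk0)
  | some (Sum.inr n), none, _ =>
    show PowerSeries.coeff k (- bt F n) = 0
    rw [map_neg, neg_eq_zero, ← mul_one (bt F n)]
    exact coeff_bt_mul n k 1 (coeff_one_pos k hk0)
  | none, none, _ => exact map_zero _

private theorem act_E' (i : Fin N) : act (D.AA i) (1 - 2 * kser D i) = -1 := by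
  rw [← neg_sub, act_neg, act_E]

private theorem act_bc (i : Fin N) (n : ℕ) :
    act (D.AA i) (PowerSeries.X ^ n * PowerSeries.C (bc D i n)) =
      bt F n * (Us D i + rem D i n) := by
  rw [act_X_pow_mul, C_bc, act_AA_cst D i _ _ (cst_bt D i n), ← act_kap]
  ring

private theorem pair_ok (ns : List ℕ) : (Elist N ns).Pairwise (fun a b =>
    opv D (vv a) (opv D (vv b) (Ahat D a b)) =
      Bf D a b + cf D b * Bf D a none + cf D a * Bf D none b) := by
  have hee : ∀ n m : ℕ, opv D (vv (some (Sum.inr n) : Option (Fin N ⊕ ℕ)))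
      (opv D (vv (some (Sum.inr m) : Option (Fin N ⊕ ℕ)))
        (Ahat D (some (Sum.inr n)) (some (Sum.inr m)))) =
      Bf D (some (Sum.inr n)) (some (Sum.inr m)) +
        cf D (some (Sum.inr m)) * Bf D (some (Sum.inr n)) none +
        cf D (some (Sum.inr n)) * Bf D none (some (Sum.inr m)) := by
    intro n m
    show (0 : PowerSeries F) = 0 + 0 * _ + 0 * _
    ring
  have hpe : ∀ (i : Fin N) (n : ℕ), opv D (vv (some (Sum.inl i) : Option (Fin N ⊕ ℕ)))
      (opv D (vv (some (Sum.inr n) : Option (Fin N ⊕ ℕ)))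
        (Ahat D (some (Sum.inl i)) (some (Sum.inr n)))) =
      Bf D (some (Sum.inl i)) (some (Sum.inr n)) +
        cf D (some (Sum.inr n)) * Bf D (some (Sum.inl i)) none +
        cf D (some (Sum.inl i)) * Bf D none (some (Sum.inr n)) := by
    intro i n
    show act (D.AA i) (PowerSeries.X ^ n * PowerSeries.C (bc D i n)) =
      bt F n * rem D i n + 0 * 1 + Us D i * bt F n
    rw [act_bc]
    ring
  have hpp : ∀ (i j : Fin N), i ≠ j → opv D (vv (some (Sum.inl i) : Option (Fin N ⊕ ℕ)))
      (opv D (vv (some (Sum.inl j) : Option (Fin N ⊕ ℕ)))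
        (Ahat D (some (Sum.inl i)) (some (Sum.inl j)))) =
      Bf D (some (Sum.inl i)) (some (Sum.inl j)) +
        cf D (some (Sum.inl j)) * Bf D (some (Sum.inl i)) none +
        cf D (some (Sum.inl i)) * Bf D none (some (Sum.inl j)) := by
    intro i j hij
    show act (D.AA i) (act (D.AA j) (PowerSeries.C (sig D i j))) =
      PowerSeries.C (sig D i j) + Us D j * 1 + Us D i * (-1)
    rw [act_sig D i j hij]
    ring
  have hEp : ∀ (i : Fin N), opv D (vv (none : Option (Fin N ⊕ ℕ)))
      (opv D (vv (some (Sum.inl i) : Option (Fin N ⊕ ℕ)))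
        (Ahat D none (some (Sum.inl i)))) =
      Bf D none (some (Sum.inl i)) +
        cf D (some (Sum.inl i)) * Bf D none none +
        cf D none * Bf D none (some (Sum.inl i)) := by
    intro i
    show act (D.AA i) (1 - 2 * kser D i) = -1 + Us D i * 0 + 0 * (-1)
    rw [act_E']
    ring
  have hEe : ∀ (n : ℕ), opv D (vv (none : Option (Fin N ⊕ ℕ)))
      (opv D (vv (some (Sum.inr n) : Option (Fin N ⊕ ℕ)))
        (Ahat D none (some (Sum.inr n)))) =
      Bf D none (some (Sum.inr n)) +
        cf D (some (Sum.inr n)) * Bf D none none +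
        cf D none * Bf D none (some (Sum.inr n)) := by
    intro n
    show bt F n = bt F n + 0 * 0 + 0 * bt F n
    ring
  unfold Elist psl
  rw [List.map_append, List.pairwise_cons]
  constructor
  · intro b hb
    rw [List.mem_append, List.mem_map, List.mem_map] at hb
    rcases hb with ⟨x, hx, rfl⟩ | ⟨x, hx, rfl⟩
    · obtain ⟨i, rfl⟩ := List.mem_ofFn.mp hx
      exact hEp i
    · obtain ⟨n, _, rfl⟩ := List.mem_map.mp hx
      exact hEe n
  · rw [List.pairwise_append]
    refine ⟨?_, ?_, ?_⟩
    · rw [List.pairwise_map, List.pairwise_ofFn]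
      intro i j hij
      exact hpp i j hij.ne
    · apply List.pairwise_of_forall_mem_list
      intro a ha b hb
      obtain ⟨x, hx, rfl⟩ := List.mem_map.mp ha
      obtain ⟨n, _, rfl⟩ := List.mem_map.mp hx
      obtain ⟨y, hy, rfl⟩ := List.mem_map.mp hb
      obtain ⟨m, _, rfl⟩ := List.mem_map.mp hy
      exact hee n m
    · intro a ha b hb
      obtain ⟨x, hx, rfl⟩ := List.mem_map.mp ha
      obtain ⟨i, rfl⟩ := List.mem_ofFn.mp hx
      obtain ⟨y, hy, rfl⟩ := List.mem_map.mp hb
      obtain ⟨n, _, rfl⟩ := List.mem_map.mp hy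
      exact hpe i n

private theorem filterMap_Elist (ns : List ℕ) :
    (Elist N ns).filterMap vv = List.finRange N := by
  unfold Elist psl
  rw [List.filterMap_cons, List.map_append, List.filterMap_append, List.filterMap_map,
    List.filterMap_map]
  have h1 : List.filterMap (vv ∘ some) (List.ofFn (fun i : Fin N => (Sum.inl i : Fin N ⊕ ℕ)))
      = List.finRange N := by
    rw [List.ofFn_eq_map, List.filterMap_map]
    exact List.filterMap_some
  have h2 : List.filterMap (vv ∘ some) (List.map Sum.inr ns : List (Fin N ⊕ ℕ)) = [] := by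
    rw [List.filterMap_map]
    apply List.filterMap_eq_nil_iff.mpr
    intro n _
    rfl
  rw [h1, h2, List.append_nil]
  rfl

theorem deg_act (ns : List ℕ) (k : ℕ) (hk : ns.sum < k) :
    PowerSeries.coeff k (act D.AN (pfL (Ahat D) (Elist N ns))) = 0 := by
  have h1 : act D.AN (pfL (Ahat D) (Elist N ns)) = pfL (Bf D) (Elist N ns) := by
    rw [act_AN]
    have h2 := act_pfL D vv (Ahat D) (fun a b => opv D (vv a) (opv D (vv b) (Ahat D a b)))
      (fun a b k ha hb => cst_Ahat D a b k ha hb) (Elist N ns)
      (by rw [filterMap_Elist]; exact List.nodup_finRange N)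
      (List.pairwise_of_forall (fun _ _ => rfl))
    rw [filterMap_Elist] at h2
    rw [h2, pfL_congr _ _ _ (pair_ok D ns)]
    exact pfL_rowop (Bf D) (Bf_diag D) (Bf_anti D) none (cf D) rfl _
  rw [h1]
  apply pfL_deg wtf (Bf D) (fun a b k h => Bf_deg D a b k h)
  have h3 : ((Elist N ns).map wtf).sum = ns.sum := by
    unfold Elist psl
    rw [List.map_cons, List.map_append, List.map_append, List.sum_cons, List.sum_append,
      List.map_map, List.map_map, List.map_map]
    have h4 : (List.map (wtf ∘ some) (List.ofFn fun i : Fin N => (Sum.inl i : Fin N ⊕ ℕ))).sum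
        = 0 := by
      apply List.sum_eq_zero
      intro x hx
      obtain ⟨y, hy, rfl⟩ := List.mem_map.mp hx
      obtain ⟨i, rfl⟩ := List.mem_ofFn.mp hy
      rfl
    have h5 : (wtf ∘ some) ∘ (Sum.inr : ℕ → Fin N ⊕ ℕ) = id := by
      funext n
      rfl
    rw [h4, h5, List.map_id]
    simp [wtf]
  rw [h3]
  exact hk

end Pool.Agent.Helper90.MVD
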