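import Pool.Agent.Helper90.MVD.Cur
import Pool.Agent.Helper90.MVD.LamEx

/-!
Module MVD-24 (project MV, block D2): vectors of Fock space with real coefficients.

The operators `An m` are only `ℝ`-linear, so D2.2 is stated for the vectors of `Fk F` which are real
linear combinations of products of basis vectors.

Closure properties, by induction on the predicate: `cr n (prb L) = prb (n :: L)` (`prb_cons`);
`an n (prb L)` is a combination with coefficients `0, ±1` (`an_prb`); `phi`: real combination of `cr`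
and `an` (`2 (-1)^n` is real); `J j x = ½ ∑ ...` (finite sum, `½` real); `Θ (map f)`:
`MvPolynomial.induction_on` (`Θ 1 = 1`, `Θ (C a) = a • Θ 1`, `Θ (f * X j) = J j (Θ f)`).
-/

namespace Pool.Agent.Helper90.MVD

open Finset Pool.Agent.Helper60.MV Pool.Agent.Helper52.MVD

/-- real linear combinations of products of basis vectors -/
inductive Rl (F : Type) [Field F] [Algebra ℝ F] : Fk F → Prop
  | prb (L : List ℕ) : Rl F (prb F L)
  | add (x y : Fk F) : Rl F x → Rl F y → Rl F (x + y)
  | smul (a : ℝ) (x : Fk F) : Rl F x → Rl F ((algebraMap ℝ F a) • x)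

section

variable {F : Type} [Field F] [Algebra ℝ F]

theorem Rl.one : Rl F (1 : Fk F) := by
  rw [← prb_nil F]
  exact Rl.prb []

theorem Rl.zero : Rl F (0 : Fk F) := by
  have h := Rl.smul (F := F) 0 1 Rl.one
  rwa [map_zero, zero_smul] at h

theorem Rl.neg {x : Fk F} (hx : Rl F x) : Rl F (-x) := by
  have h := Rl.smul (F := F) (-1) x hx
  rwa [map_neg, map_one, neg_smul, one_smul] at h

theorem Rl.sum {β : Type} (s : Finset β) (g : β → Fk F) (hg : ∀ b ∈ s, Rl F (g b)) :
    Rl F (∑ b ∈ s, g b) := by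
  classical
  induction s using Finset.induction_on with
  | empty => exact Rl.zero
  | insert a s ha ih =>
    rw [Finset.sum_insert ha]
    exact Rl.add _ _ (hg a (Finset.mem_insert_self _ _))
      (ih (fun b hb => hg b (Finset.mem_insert_of_mem hb)))

theorem Rl.cr {x : Fk F} (hx : Rl F x) (n : ℕ) : Rl F (cr F n x) := by
  induction hx with
  | prb L =>
    have h : MVD.cr F n (MVD.prb F L) = MVD.prb F (n :: L) := by
      simp [MVD.cr, MVD.prb, wdg]
    rw [h]
    exact Rl.prb _
  | add x y _ _ hx hy =>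
    rw [map_add]
    exact Rl.add _ _ hx hy
  | smul a x _ hx =>
    rw [map_smul]
    exact Rl.smul _ _ hx

theorem Rl.an {x : Fk F} (hx : Rl F x) (n : ℕ) : Rl F (an F n x) := by
  induction hx with
  | prb L =>
    rw [an_prb]
    refine Rl.sum _ _ (fun j _ => ?_)
    have h : ((-1) ^ (j : ℕ) * (if L.get j = n then 1 else 0) : F) =
        algebraMap ℝ F ((-1) ^ (j : ℕ) * (if L.get j = n then 1 else 0)) := by
      split_ifs <;> simp
    rw [h]
    exact Rl.smul _ _ (Rl.prb _)
  | add x y _ _ hx hy =>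
    rw [map_add]
    exact Rl.add _ _ hx hy
  | smul a x _ hx =>
    rw [map_smul]
    exact Rl.smul _ _ hx

theorem Rl.phi {x : Fk F} (hx : Rl F x) (n : ℤ) : Rl F (phi F n x) := by
  unfold MVD.phi
  split_ifs with h1 h2
  · exact hx.cr _
  · rw [LinearMap.add_apply]
    exact Rl.add _ _ (hx.cr _) (hx.an _)
  · rw [LinearMap.smul_apply]
    have h : (2 * (-1) ^ n.natAbs : F) = algebraMap ℝ F (2 * (-1) ^ n.natAbs) := by
      rw [map_mul, map_pow, map_neg, map_one]
      congr 1
      exact (map_ofNat _ 2).symm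
    rw [h]
    exact Rl.smul _ _ (hx.an _)

theorem Rl.cur [CharZero F] {J : ℤ → Fk F →ₗ[F] Fk F} (hJ : IsCur F J) {x : Fk F}
    (hx : Rl F x) (j : ℤ) : Rl F (J j x) := by
  obtain ⟨B₀, hB⟩ := hJ j x
  rw [hB B₀ le_rfl]
  have h : (1 / 2 : F) = algebraMap ℝ F (1 / 2) := by
    rw [map_div₀, map_one]
    congr 1
    exact (map_ofNat _ 2).symm
  rw [h]
  exact Rl.smul _ _ (Rl.sum _ _ (fun r _ => (hx.phi _).phi _))

theorem Rl.theta [CharZero F] {J : ℤ → Fk F →ₗ[F] Fk F} (hJ : IsCur F J)
    {Θ : MvPolynomial ℕ F →ₗ[F] Fk F} (hΘ : IsTheta F J Θ) (f : MvPolynomial ℕ ℝ) :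
    Rl F (Θ (MvPolynomial.map (algebraMap ℝ F) f)) := by
  induction f using MvPolynomial.induction_on with
  | C a =>
    rw [MvPolynomial.map_C]
    have h : (MvPolynomial.C (algebraMap ℝ F a) : MvPolynomial ℕ F) = (algebraMap ℝ F a) • 1 := by
      rw [MvPolynomial.smul_eq_C_mul, mul_one]
    rw [h, map_smul, hΘ.one]
    exact Rl.smul _ _ Rl.one
  | add p q hp hq =>
    rw [map_add, map_add]
    exact Rl.add _ _ hp hq
  | mul_X p n hp =>
    rw [map_mul, MvPolynomial.map_X, mul_comm, hΘ.mul]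
    exact hp.cur hJ _

end

end Pool.Agent.Helper90.MVD
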