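import Pool.Agent.Helper90.MVD.CoefA
import Pool.Agent.Helper90.MVD.DegA
import Pool.Agent.Helper90.MVD.RealV

/-!
Module MVD-20 (project MV, block D2): D2.2, `𝒜^{⊗N} Λ_s(e(w) x)` has only nonpositive powers of `w`,
for `x` with real coefficients (`Rl`; the operators `An m` are only `ℝ`-linear).

Induction on `Rl F x` (the statement is additive and `ℝ`-homogeneous in `x`; take the maximum of the
bounds `B₀`; `algebraMap ℝ F a • y = a • y` in `F`). Case `x = prb L`:
* `L` with an odd entry: all terms vanish: `Λ (φ_{2k} (prb L)) = 0` for all `k ∈ ℤ` (`cr (2k)` keeps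
  the odd entry; `an (2n)` removes an even entry only, `an_prb`; `IsLam.odd`).
* Otherwise `L = ns.map (2 * ·)`, `S = ns.sum`: for `m > R + S`, `φ_{2(R-m)} x = 0`
  (`phi_neg`, `an_prb`, `2(m-R) > 2S ≥` all entries), and by `coeff_Ahat`
  `∑_{m ≤ R+S} An m (coeff (R+S-m) (pfL Ahat ..)) = coeff (R+S) (act AN (pfL Ahat ..)) = 0` by `deg_act`
  (definition of `act`, `D.An m = coeff m D.AN`; `Finset.Nat.sum_antidiagonal_eq_sum_range_succ`).
-/

namespace Pool.Agent.Helper90.MVD

open Finset Pool.Agent.Helper60.MV Pool.Agent.Helper52.MVD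

variable {F : Type} [Field F] [Algebra ℝ F] {N : ℕ} (D : DF F N)

private theorem lam_an_odd {Λ : Fk F →ₗ[F] F} (hΛ : IsLam D Λ) (L : List ℕ)
    (hL : ∃ n ∈ L, Odd n) (k : ℕ) (hk : Even k) : Λ (an F k (prb F L)) = 0 := by
  rw [an_prb, map_sum]
  refine Finset.sum_eq_zero fun j _ => ?_
  rw [map_smul]
  by_cases hj : L.get j = k
  · rw [hΛ.odd, smul_zero]
    obtain ⟨n, hn, hodd⟩ := hL
    refine ⟨n, ?_, hodd⟩
    have hne : n ≠ L.get j := by
      intro h
      rw [h, hj] at hodd
      exact (Nat.not_odd_iff_even.2 hk) hodd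
    have hp := List.getElem_cons_eraseIdx_perm j.2
    have h2 := hp.symm.subset hn
    rcases List.mem_cons.1 h2 with h3 | h3
    · exact absurd h3 hne
    · exact h3
  · rw [if_neg hj, mul_zero, zero_smul]

private theorem lam_phi_odd {Λ : Fk F →ₗ[F] F} (hΛ : IsLam D Λ) (L : List ℕ)
    (hL : ∃ n ∈ L, Odd n) (k : ℤ) : Λ (phi F (2 * k) (prb F L)) = 0 := by
  have hcr : ∀ n, Λ (cr F n (prb F L)) = 0 := by
    intro n
    rw [← prb_cons]
    obtain ⟨a, ha, hodd⟩ := hL
    exact hΛ.odd _ ⟨a, List.mem_cons_of_mem _ ha, hodd⟩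
  rcases lt_trichotomy k 0 with h | h | h
  · obtain ⟨n, hn, rfl⟩ : ∃ n : ℕ, 0 < n ∧ k = -(n : ℤ) := ⟨k.natAbs, by omega, by omega⟩
    have h1 : (2 * -(n : ℤ)) = -((2 * n : ℕ) : ℤ) := by push_cast; ring
    rw [h1, phi_neg F (2 * n) (by omega), map_smul, lam_an_odd D hΛ L hL _ (even_two_mul n),
      smul_zero]
  · subst h
    rw [mul_zero, phi_zero, map_add, hcr, lam_an_odd D hΛ L hL 0 Even.zero, add_zero]
  · obtain ⟨n, hn, rfl⟩ : ∃ n : ℕ, 0 < n ∧ k = (n : ℤ) := ⟨k.natAbs, by omega, by omega⟩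
    have h1 : (2 * (n : ℤ)) = ((2 * n : ℕ) : ℤ) := by push_cast; ring
    rw [h1, phi_pos F (2 * n) (by omega), hcr]

private theorem coeff_act (a : PowerSeries (Module.End ℝ F)) (g : PowerSeries F) (n : ℕ) :
    PowerSeries.coeff n (act a g) = ∑ m ∈ range (n + 1),
      (PowerSeries.coeff m a : Module.End ℝ F) (PowerSeries.coeff (n - m) g) := by
  unfold act
  rw [PowerSeries.coeff_mk]
  exact Finset.Nat.sum_antidiagonal_eq_sum_range_succ
    (fun i j => (PowerSeries.coeff i a : Module.End ℝ F) (PowerSeries.coeff j g)) n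

theorem D22 (hN : Even N) {Λ : Fk F →ₗ[F] F} (hΛ : IsLam D Λ) (R : ℕ) (hR : 0 < R) (x : Fk F)
    (hx : Rl F x) :
    ∃ B₀ : ℕ, ∀ B, B₀ ≤ B →
      ∑ m ∈ range B, D.An m (Λ (phi F (2 * ((R : ℤ) - m)) x)) = 0 := by
  induction hx with
  | prb L =>
    by_cases hL : ∃ n ∈ L, Odd n
    · refine ⟨0, fun B _ => Finset.sum_eq_zero fun m _ => ?_⟩
      rw [lam_phi_odd D hΛ L hL, map_zero]
    · obtain ⟨ns, rfl⟩ : ∃ ns : List ℕ, L = ns.map fun n => 2 * n := by
        refine ⟨L.map fun n => n / 2, ?_⟩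
        rw [List.map_map]
        conv_lhs => rw [← List.map_id L]
        refine List.map_congr_left fun n hn => ?_
        have h1 : Even n := by
          by_contra h2
          exact hL ⟨n, hn, Nat.not_even_iff_odd.1 h2⟩
        obtain ⟨r, rfl⟩ := h1
        simp only [id_eq, Function.comp_apply]
        omega
      refine ⟨R + ns.sum + 1, fun B hB => ?_⟩
      have hz : ∀ m ∈ range B, m ∉ range (R + ns.sum + 1) →
          D.An m (Λ (phi F (2 * ((R : ℤ) - m)) (prb F (ns.map fun n => 2 * n)))) = 0 := by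
        intro m _ hm
        simp only [mem_range, not_lt] at hm
        have h1 : (2 * ((R : ℤ) - m)) = -((2 * (m - R) : ℕ) : ℤ) := by
          push_cast [show R ≤ m by omega]
          ring
        have h2 : an F (2 * (m - R)) (prb F (ns.map fun n => 2 * n)) = 0 := by
          rw [an_prb]
          refine Finset.sum_eq_zero fun j _ => ?_
          rw [if_neg, mul_zero, zero_smul]
          intro h3
          have h4 : (ns.map fun n => 2 * n).get j ∈ ns.map fun n => 2 * n := List.get_mem _ _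
          rw [h3] at h4
          obtain ⟨n, hn, hn2⟩ := List.mem_map.1 h4
          have h5 : n ≤ ns.sum := List.single_le_sum (by simp) n hn
          have h6 : 2 * n = 2 * (m - R) := hn2
          omega
        rw [h1, phi_neg F _ (by omega), h2, smul_zero, map_zero, map_zero]
      rw [← Finset.sum_subset (range_subset_range.2 hB) hz]
      have hdeg := deg_act D ns (R + ns.sum) (by omega)
      rw [coeff_act] at hdeg
      rw [← hdeg]
      refine Finset.sum_congr rfl fun m hm => ?_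
      have hm' := Finset.mem_range.1 hm
      rw [coeff_Ahat D hN hΛ ns ((R : ℤ) - m) (R + ns.sum - m) (by
        push_cast [show m ≤ R + ns.sum by omega]
        ring)]
      rfl
  | add x y _ _ hx hy =>
    obtain ⟨B1, h1⟩ := hx
    obtain ⟨B2, h2⟩ := hy
    refine ⟨max B1 B2, fun B hB => ?_⟩
    have h3 := h1 B (le_trans (le_max_left _ _) hB)
    have h4 := h2 B (le_trans (le_max_right _ _) hB)
    rw [← add_zero (0 : F)]
    nth_rewrite 1 [← h3]
    rw [← h4, ← Finset.sum_add_distrib]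
    refine Finset.sum_congr rfl fun m _ => ?_
    rw [map_add, map_add, map_add]
  | smul a x _ hx =>
    obtain ⟨B1, h1⟩ := hx
    refine ⟨B1, fun B hB => ?_⟩
    have h3 := h1 B hB
    have h4 : ∑ m ∈ range B, D.An m (Λ (phi F (2 * ((R : ℤ) - m)) ((algebraMap ℝ F a) • x))) =
        a • ∑ m ∈ range B, D.An m (Λ (phi F (2 * ((R : ℤ) - m)) x)) := by
      rw [Finset.smul_sum]
      refine Finset.sum_congr rfl fun m _ => ?_
      rw [map_smul, map_smul, algebraMap_smul, map_smul]
    rw [h4, h3, smul_zero]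

end Pool.Agent.Helper90.MVD
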