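import Pool.Agent.Helper90.MVD.D22

/-!
Module MVD-22 (project MV, block D2): D2.3, `𝒜^{⊗N} Λ_s(α(w) x)` has only negative powers of `w`.

* `lam_cur`: `Λ (J_j x) = ∑_{i < I} Λ (φ_{2(j+i+1)} (an_{2i+1} x))`. Proof: `κ = 2j+1`,
  `J_j x = ½ ∑_{|r| ≤ B'} φ_{κ-2r} φ_{2r} x`. If `κ - 2r > 0` then `φ_{κ-2r}` is `cr` of an odd mode and
  `Λ = 0` (`lam_cr_odd`). If `κ - 2r < 0`, `κ - 2r = -(2i+1)`, `r = j + i + 1`, `i ≥ 0`:
  `φ_{-(2i+1)} φ_{2r} x = - φ_{2r} φ_{-(2i+1)} x` (`phi_phi`, the sum of the indices is odd) and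
  `φ_{-(2i+1)} = -2 an_{2i+1}`: the term is `2 φ_{2r} an_{2i+1} x`, times `½`. `an_{2i+1} x = 0` for
  `i ≥ I`; compare for `B'` large (the range `r ∈ Icc (-B') B'` contains all `r = j + i + 1`, `i < I`).
* `D23`: take `I` with `an_{2i+1} x = 0` for `i ≥ I` (`an_fin`). Exchange the finite sums:
  `∑_{m<B} An m (Λ (J_{ν-m} x)) = ∑_{i<I} ∑_{m<B} An m (Λ (φ_{2(ν+i+1-m)} (an_{2i+1} x)))`,
  and each inner sum is `0` for `B` large by `D22` with `R = ν + i + 1` and the real vector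
  `an_{2i+1} x` (`Rl.an`).
-/

namespace Pool.Agent.Helper90.MVD

open Finset Pool.Agent.Helper60.MV Pool.Agent.Helper52.MVD

variable {F : Type} [Field F] [CharZero F] [Algebra ℝ F] {N : ℕ} {D : DF F N}

private theorem lam_term_le {Λ : Fk F →ₗ[F] F} (hΛ : IsLam D Λ) (x : Fk F) (j r : ℤ) (h : r ≤ j) :
    Λ (phi F (2 * j + 1 - 2 * r) x) = 0 := by
  obtain ⟨n, hn⟩ : ∃ n : ℕ, 2 * j + 1 - 2 * r = (n : ℤ) := ⟨(2 * j + 1 - 2 * r).toNat, by omega⟩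
  have hn0 : 0 < n := by omega
  have hodd : Odd n := by
    rw [Nat.odd_iff]
    omega
  rw [hn, phi_pos F n hn0]
  exact lam_cr_odd hΛ n hodd x

private theorem lam_term_gt {Λ : Fk F →ₗ[F] F} (x : Fk F) (j : ℤ) (i : ℕ) :
    Λ (phi F (2 * j + 1 - 2 * (j + i + 1)) (phi F (2 * (j + i + 1)) x)) =
      2 * Λ (phi F (2 * (j + i + 1)) (an F (2 * i + 1) x)) := by
  have h1 : 2 * j + 1 - 2 * (j + i + 1) = -((2 * i + 1 : ℕ) : ℤ) := by
    push_cast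
    ring
  rw [h1, phi_phi, if_neg (by push_cast; omega), zero_smul, zero_sub, phi_neg F (2 * i + 1) (by omega),
    map_smul, map_neg, map_smul, smul_eq_mul]
  have h2 : ((-1 : F)) ^ (2 * i + 1) = -1 := by
    rw [pow_succ, pow_mul]
    norm_num
  rw [h2]
  ring

theorem lam_cur {Λ : Fk F →ₗ[F] F} (hΛ : IsLam D Λ) {J : ℤ → Fk F →ₗ[F] Fk F}
    (hJ : IsCur F J) (x : Fk F) (I : ℕ) (hI : ∀ i, I ≤ i → an F (2 * i + 1) x = 0) (j : ℤ) :
    Λ (J j x) = ∑ i ∈ range I, Λ (phi F (2 * (j + i + 1)) (an F (2 * i + 1) x)) := by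
  obtain ⟨B₀, hB₀⟩ := hJ j x
  set B : ℕ := B₀ + j.natAbs + I + 1 with hB
  rw [hB₀ B (by omega), map_smul, map_sum, smul_eq_mul]
  set g : ℤ → F := fun r => Λ (phi F (2 * j + 1 - 2 * r) (phi F (2 * r) x)) with hg
  have himg : ∑ r ∈ (range I).image (fun i : ℕ => j + i + 1), g r = ∑ r ∈ Icc (-(B : ℤ)) B, g r := by
    refine Finset.sum_subset ?_ ?_
    · intro r hr
      rw [Finset.mem_image] at hr
      obtain ⟨i, hi, rfl⟩ := hr
      rw [Finset.mem_range] at hi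
      rw [Finset.mem_Icc]
      constructor <;> omega
    · intro r _ hr
      by_cases hrj : r ≤ j
      · exact lam_term_le hΛ _ j r hrj
      · obtain ⟨i, hi⟩ : ∃ i : ℕ, r = j + i + 1 := ⟨(r - j - 1).toNat, by omega⟩
        have hiI : I ≤ i := by
          by_contra hcon
          apply hr
          rw [Finset.mem_image]
          exact ⟨i, Finset.mem_range.2 (by omega), hi.symm⟩
        rw [hi]
        show Λ (phi F (2 * j + 1 - 2 * (j + i + 1)) (phi F (2 * (j + i + 1)) x)) = 0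
        rw [lam_term_gt, hI i hiI, map_zero, map_zero, mul_zero]
  show (1 / 2 : F) * ∑ r ∈ Icc (-(B : ℤ)) B, g r = _
  rw [← himg, Finset.sum_image (fun a _ b _ h => by
    have h' : j + (a : ℤ) + 1 = j + (b : ℤ) + 1 := h
    omega), Finset.mul_sum]
  refine Finset.sum_congr rfl (fun i _ => ?_)
  show (1 / 2 : F) * Λ (phi F (2 * j + 1 - 2 * (j + i + 1)) (phi F (2 * (j + i + 1)) x)) = _
  rw [lam_term_gt, ← mul_assoc]
  norm_num

theorem D23 (hN : Even N) {Λ : Fk F →ₗ[F] F} (hΛ : IsLam D Λ) {J : ℤ → Fk F →ₗ[F] Fk F}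
    (hJ : IsCur F J) (ν : ℕ) (x : Fk F) (hx : Rl F x) :
    ∃ B₀ : ℕ, ∀ B, B₀ ≤ B → ∑ m ∈ range B, D.An m (Λ (J ((ν : ℤ) - m) x)) = 0 := by
  obtain ⟨I, hI⟩ := an_fin F x
  have hI' : ∀ i, I ≤ i → an F (2 * i + 1) x = 0 := fun i hi => hI (2 * i + 1) (by omega)
  have h1 : ∀ i : ℕ, ∃ B₀ : ℕ, ∀ B, B₀ ≤ B →
      ∑ m ∈ range B, D.An m (Λ (phi F (2 * (((ν + i + 1 : ℕ) : ℤ) - m)) (an F (2 * i + 1) x))) = 0 :=
    fun i => D22 D hN hΛ (ν + i + 1) (by omega) (an F (2 * i + 1) x) (hx.an (2 * i + 1))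
  choose Bi hBi using h1
  refine ⟨(range I).sup Bi, fun B hB => ?_⟩
  have h2 : ∀ m ∈ range B, D.An m (Λ (J ((ν : ℤ) - m) x)) =
      ∑ i ∈ range I, D.An m (Λ (phi F (2 * (((ν + i + 1 : ℕ) : ℤ) - m)) (an F (2 * i + 1) x))) := by
    intro m _
    rw [lam_cur hΛ hJ x I hI' ((ν : ℤ) - m), map_sum]
    refine Finset.sum_congr rfl (fun i _ => ?_)
    have h3 : (2 : ℤ) * ((ν : ℤ) - m + i + 1) = 2 * (((ν + i + 1 : ℕ) : ℤ) - m) := by
      push_cast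
      ring
    rw [h3]
  rw [Finset.sum_congr rfl h2, Finset.sum_comm]
  refine Finset.sum_eq_zero (fun i hi => ?_)
  exact hBi i B ((Finset.le_sup hi).trans hB)

end Pool.Agent.Helper90.MVD
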