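import Pool.Agent.Helper52.MVD.DDefs

/-!
Project MV, block D2 (neutral fermions and Pfaffians): definitions.

`w² = W` is the variable of power series. The letters of Pfaffians are
`Sum.inl i` (the vector `ψ_i`, `i : Fin N`) and `Sum.inr n` (the vector `e_n`, `n : ℕ`), and `none`
is the additional letter `E`.
-/

namespace Pool.Agent.Helper90.MVD

open Finset Pool.Agent.Helper60.MV Pool.Agent.Helper52.MVD

/-! ## Exterior algebra, contraction, Pfaffian functional -/

section Ext

variable {R M : Type} [CommRing R] [AddCommGroup M] [Module R M]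

/-- contraction by a linear form (an antiderivation) -/
noncomputable def ctr (d : Module.Dual R M) : ExteriorAlgebra R M →ₗ[R] ExteriorAlgebra R M :=
  CliffordAlgebra.contractLeft d

theorem ctr_ι_mul (d : Module.Dual R M) (v : M) (x : ExteriorAlgebra R M) :
    ctr d (ExteriorAlgebra.ι R v * x) = d v • x - ExteriorAlgebra.ι R v * ctr d x :=
  CliffordAlgebra.contractLeft_ι_mul d v x

theorem ctr_one (d : Module.Dual R M) : ctr d (1 : ExteriorAlgebra R M) = 0 :=
  CliffordAlgebra.contractLeft_one _ d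

theorem ctr_ctr (d : Module.Dual R M) (x : ExteriorAlgebra R M) : ctr d (ctr d x) = 0 :=
  CliffordAlgebra.contractLeft_contractLeft d x

theorem ctr_comm (d d' : Module.Dual R M) (x : ExteriorAlgebra R M) :
    ctr d (ctr d' x) = - ctr d' (ctr d x) :=
  CliffordAlgebra.contractLeft_comm d d' x

theorem ctr_add (d d' : Module.Dual R M) (x : ExteriorAlgebra R M) :
    ctr (d + d') x = ctr d x + ctr d' x := by
  simp only [ctr, map_add, LinearMap.add_apply]

theorem ctr_smul (c : R) (d : Module.Dual R M) (x : ExteriorAlgebra R M) :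
    ctr (c • d) x = c • ctr d x := by
  simp only [ctr, map_smul, LinearMap.smul_apply]

/-- characterisation of the Pfaffian functional of an alternating form `ω` -/
structure IsPf (ω : M →ₗ[R] Module.Dual R M) (P : ExteriorAlgebra R M →ₗ[R] R) : Prop where
  one : P 1 = 1
  mul : ∀ v x, P (ExteriorAlgebra.ι R v * x) = P (ctr (ω v) x)

/-- product of the vectors of a list in the exterior algebra -/
noncomputable def wdg (L : List M) : ExteriorAlgebra R M := (L.map (ExteriorAlgebra.ι R)).prod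

end Ext

/-- the bilinear form on `α →₀ R` with array `A` -/
noncomputable def omA {α R : Type} [CommRing R] (A : α → α → R) :
    (α →₀ R) →ₗ[R] Module.Dual R (α →₀ R) :=
  Finsupp.linearCombination R (fun a => Finsupp.linearCombination R (A a))

/-! ## Fock space of the neutral fermions -/

section Fock

variable (F : Type) [Field F]

/-- Fock space -/
abbrev Fk : Type := ExteriorAlgebra F (ℕ →₀ F)

/-- creation -/
noncomputable def cr (n : ℕ) : Fk F →ₗ[F] Fk F :=
  LinearMap.mulLeft F (ExteriorAlgebra.ι F (Finsupp.single n (1 : F)))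

/-- annihilation -/
noncomputable def an (n : ℕ) : Fk F →ₗ[F] Fk F :=
  ctr (Finsupp.lapply n : (ℕ →₀ F) →ₗ[F] F)

/-- neutral fermions: `φ_n` for `n > 0` is the multiplication, `φ_0 = φ_0 ∧ + φ_0^* ⌋`,
`φ_{-n} = 2 (-1)^n φ_n^* ⌋`; then `φ_m φ_n + φ_n φ_m = 2 (-1)^m δ_{m+n,0}`. -/
noncomputable def phi (n : ℤ) : Fk F →ₗ[F] Fk F :=
  if 0 < n then cr F n.natAbs else if n = 0 then cr F 0 + an F 0
  else (2 * (-1) ^ n.natAbs : F) • an F n.natAbs

/-- vacuum expectation (scalar part) -/
noncomputable def vac : Fk F →ₗ[F] F := (ExteriorAlgebra.algebraMapInv).toLinearMap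

/-- the string `φ_{n_l} ⋯ φ_{n_1}` of a list `[n_1, ..., n_l]` (`n_1` is applied first) -/
noncomputable def str : List ℤ → Fk F →ₗ[F] Fk F
  | [] => LinearMap.id
  | n :: L => (str L).comp (phi F n)

/-- `an_{n_l} ⋯ an_{n_1}` (`n_1` is applied first) -/
noncomputable def ans : List ℕ → Fk F →ₗ[F] Fk F
  | [] => LinearMap.id
  | n :: L => (ans L).comp (an F n)

/-- two-point function over a field -/
noncomputable def zfF (m n : ℤ) : F :=
  if m + n = 0 then (if m = 0 then 1 else if 0 < m then 2 * (-1) ^ m.natAbs else 0) else 0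

/-- the product of the basis vectors of a list -/
noncomputable def prb (L : List ℕ) : Fk F := wdg (L.map fun n => Finsupp.single n (1 : F))

/-- `J` is the current `α_{-(2j+1)} = ½ ∑_{r ∈ ℤ} φ_{2j+1-2r} φ_{2r}` (`j ∈ ℤ`), the sum being
finite on every vector -/
def IsCur (J : ℤ → Fk F →ₗ[F] Fk F) : Prop :=
  ∀ (j : ℤ) (x : Fk F), ∃ B₀ : ℕ, ∀ B : ℕ, B₀ ≤ B →
    J j x = (1 / 2 : F) • ∑ r ∈ Icc (-(B : ℤ)) B, phi F (2 * j + 1 - 2 * r) (phi F (2 * r) x)

/-- bosonisation: `Θ : F[p_1, p_3, ...] → Fk`, `X j = p_{2j+1}` -/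
structure IsTheta (J : ℤ → Fk F →ₗ[F] Fk F) (Θ : MvPolynomial ℕ F →ₗ[F] Fk F) : Prop where
  one : Θ 1 = 1
  mul : ∀ (j : ℕ) f, Θ (MvPolynomial.X j * f) = J j (Θ f)
  der : ∀ (j : ℕ) f, ((2 * (j : F) + 1) / 2) • Θ (MvPolynomial.pderiv j f) =
    J (-(j : ℤ) - 1) (Θ f)

end Fock

/-! ## The functional `Λ_s` -/

section Lam

variable {F : Type} [Field F] [Algebra ℝ F] {N : ℕ} (D : DF F N)

/-- `c_n s_i^{-n}` -/
noncomputable def kap (i : Fin N) (n : ℕ) : F := algebraMap ℝ F (cc n) * (1 / D.s i) ^ n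

/-- `k_w(s_i) = ∑ W^n c_n s_i^{-n}` -/
noncomputable def kser (i : Fin N) : PowerSeries F := PowerSeries.mk (kap D i)

/-- `U_i = 1 - W s_i^{-1} k_w(s_i)` -/
noncomputable def Us (i : Fin N) : PowerSeries F :=
  1 - PowerSeries.X * (PowerSeries.C (1 / D.s i) * kser D i)

/-- `σ_ij` -/
noncomputable def sig (i j : Fin N) : F := (D.s i - D.s j) / (D.s i + D.s j)

/-- the pairing of `ψ_i` and `e_n` -/
noncomputable def bc (i : Fin N) (n : ℕ) : F := if n = 0 then 1 else 2 * kap D i n

/-- the array of `Λ_s` on the letters `ψ_i`, `e_n` -/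
noncomputable def AS : Fin N ⊕ ℕ → Fin N ⊕ ℕ → F
  | Sum.inl i, Sum.inl j => sig D i j
  | Sum.inl i, Sum.inr n => bc D i n
  | Sum.inr n, Sum.inl i => - bc D i n
  | Sum.inr _, Sum.inr _ => 0

/-- the letters `ψ_1, ..., ψ_N` -/
def psl (N : ℕ) : List (Fin N ⊕ ℕ) := List.ofFn fun i => Sum.inl i

/-- `Λ` is the functional `Λ_s`: linear, zero on products of basis vectors containing an odd mode,
and `Λ (e_{n_1} ∧ ... ∧ e_{n_m}) = Pf` for a list of even modes `e_n = φ_{2n}`. -/
structure IsLam (Λ : Fk F →ₗ[F] F) : Prop where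
  odd : ∀ L : List ℕ, (∃ n ∈ L, Odd n) → Λ (prb F L) = 0
  even : ∀ L : List ℕ, Λ (prb F (L.map fun n => 2 * n)) = pfL (AS D) (psl N ++ L.map Sum.inr)

/-- action of power series of operators on power series -/
noncomputable def act (a : PowerSeries (Module.End ℝ F)) (g : PowerSeries F) : PowerSeries F :=
  PowerSeries.mk fun n => ∑ p ∈ antidiagonal n,
    (PowerSeries.coeff p.1 a : Module.End ℝ F) (PowerSeries.coeff p.2 g)

/-- all coefficients of `g` are killed by the derivation `d i` -/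
def Cst (i : Fin N) (g : PowerSeries F) : Prop := ∀ n, D.d i (PowerSeries.coeff n g) = 0

end Lam

end Pool.Agent.Helper90.MVD
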