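import Pool.Agent.Helper90.MVD.Fock

/-!
Module MVD-15 (project MV, block D2): coefficients in Fock space.

* `eq_vac_of_an`: if `an n x = 0` for all `n` then `x = vac x • 1`. Proof: put `p n x := an n (cr n x)`
  (`p n x = x - cr n (an n x) = x` by `cr_an_decomp`). The `p n` commute with each other, `p n 1 = 1`
  and `p n (cr n y) = 0`. Claim: for every `y` there is `B₀` with `p_0 p_1 ⋯ p_{B-1} y = vac y • 1`
  for all `B ≥ B₀` (by `prb_span`: for `y = 1` clear, for `y = cr n y'` it is `0` as soon as `n < B`).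
  Apply to `x`, on which all `p n` act as the identity.
* `expand`: for `B₀` with `an n x = 0` for `n ≥ B₀` (`an_fin`). Prove by induction on `B`: if
  `an n x = 0` for all `n ≥ B` then
  `x = ∑_{T ⊆ {0..B-1}} vac (ans (sorted T) x) • prb (sorted T)`, `sorted T` decreasing.
  `B = 0`: `eq_vac_of_an`. Step: `x = cr B x' + y`, `x' = an B x`, `y = an B (cr B x)`; both are
  killed by `an n`, `n ≥ B`. Subsets of `{0..B}` (`Finset.powerset_insert`/`sum_powerset_insert`):
  those without `B`: `ans T y = ans T x - ans T (cr B x')` and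
  `vac (ans T (cr B x')) = ± vac (cr B ..) = 0`, so the coefficients of `x` and `y` agree; those with
  `B`: the decreasing list of `insert B T` is `B :: sorted T` (`Finset.sort_insert`), so the term is
  `vac (ans T x') • cr B (prb T)`.
* `eq_of_vac`: if `vac (str L x) = 0` for all lists `L` then `x = 0`: by `expand`, and for a
  strictly decreasing list `T = [t_1 > ... > t_l]` of naturals `vac (ans T x)` is a nonzero multiple
  of `vac (str [-t_1, ..., -t_l] x)` (`vac_ans`): for `t > 0`, `an t = (2 (-1)^t)^{-1} φ_{-t}`; only the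
  last entry can be `0` and `vac (an 0 y) = vac (φ_0 y)` because `vac (cr 0 y) = 0`.
-/

namespace Pool.Agent.Helper90.MVD

open Finset Pool.Agent.Helper60.MV

variable (F : Type) [Field F]

/-- the projection `p_0 p_1 ⋯ p_{B-1}` -/
private noncomputable def prj : ℕ → Fk F →ₗ[F] Fk F
  | 0 => LinearMap.id
  | B + 1 => (prj B).comp ((an F B).comp (cr F B))

private theorem prj_succ (B : ℕ) (y : Fk F) : prj F (B + 1) y = prj F B (an F B (cr F B y)) := rfl

private theorem prj_one (B : ℕ) : prj F B 1 = 1 := by
  induction B with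
  | zero => rfl
  | succ B ih => rw [prj_succ, an_cr, if_pos rfl, an_one, map_zero, sub_zero, ih]

private theorem prj_cr (B n : ℕ) (h : n < B) (y : Fk F) : prj F B (cr F n y) = 0 := by
  induction B generalizing y with
  | zero => omega
  | succ B ih =>
    rw [prj_succ]
    by_cases hn : n = B
    · subst hn
      rw [cr_cr_self, map_zero, map_zero]
    · rw [cr_cr, map_neg, an_cr, if_neg (Ne.symm hn), zero_sub, neg_neg]
      exact ih (by omega) _

private theorem prj_vac (y : Fk F) : ∃ B₀ : ℕ, ∀ B, B₀ ≤ B → prj F B y = vac F y • (1 : Fk F) := by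
  have hy : y ∈ Submodule.span F (Set.range (prb F)) := by
    rw [prb_span]
    exact Submodule.mem_top
  induction hy using Submodule.span_induction with
  | mem z hz =>
    obtain ⟨L, rfl⟩ := hz
    cases L with
    | nil => exact ⟨0, fun B _ => by rw [prb_nil, prj_one, vac_one, one_smul]⟩
    | cons k L =>
      refine ⟨k + 1, fun B hB => ?_⟩
      rw [prb_cons, prj_cr F B k (by omega), vac_cr, zero_smul]
  | zero => exact ⟨0, fun B _ => by rw [map_zero, map_zero, zero_smul]⟩
  | add a b _ _ ha hb =>
    obtain ⟨B₁, h₁⟩ := ha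
    obtain ⟨B₂, h₂⟩ := hb
    refine ⟨max B₁ B₂, fun B hB => ?_⟩
    rw [map_add, map_add, h₁ B (le_trans (le_max_left _ _) hB),
      h₂ B (le_trans (le_max_right _ _) hB), add_smul]
  | smul c a _ ha =>
    obtain ⟨B₁, h₁⟩ := ha
    refine ⟨B₁, fun B hB => ?_⟩
    rw [map_smul, map_smul, h₁ B hB, smul_eq_mul, mul_smul]

theorem eq_vac_of_an (x : Fk F) (h : ∀ n, an F n x = 0) : x = vac F x • (1 : Fk F) := by
  have h1 : ∀ B, prj F B x = x := by
    intro B
    induction B with
    | zero => rfl
    | succ B ih => rw [prj_succ, an_cr, if_pos rfl, h, map_zero, sub_zero, ih]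
  obtain ⟨B₀, hB⟩ := prj_vac F x
  rw [← hB B₀ le_rfl, h1]

private theorem vac_ans_cr (B : ℕ) (L : List ℕ) (hL : ∀ n ∈ L, n ≠ B) (z : Fk F) :
    vac F (ans F L (cr F B z)) = 0 := by
  induction L generalizing z with
  | nil => exact vac_cr F B z
  | cons n L ih =>
    change vac F (ans F L (an F n (cr F B z))) = 0
    rw [an_cr, if_neg (hL n List.mem_cons_self), zero_sub, map_neg, map_neg,
      ih (fun m hm => hL m (List.mem_cons_of_mem _ hm)), neg_zero]

private theorem expand_aux (B : ℕ) : ∀ x : Fk F, (∀ n, B ≤ n → an F n x = 0) →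
    x = ∑ T ∈ (range B).powerset,
      vac F (ans F (T.sort (· ≥ ·)) x) • prb F (T.sort (· ≥ ·)) := by
  induction B with
  | zero =>
    intro x hx
    have h := eq_vac_of_an F x (fun n => hx n (Nat.zero_le n))
    rw [range_zero, powerset_empty, sum_singleton, sort_empty, prb_nil]
    exact h
  | succ B ih =>
    intro x hx
    obtain ⟨x', hx'⟩ : ∃ x', x' = an F B x := ⟨_, rfl⟩
    obtain ⟨y, hy⟩ : ∃ y, y = an F B (cr F B x) := ⟨_, rfl⟩
    have hdec : x = cr F B x' + y := by
      rw [hx', hy]
      exact cr_an_decomp F B x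
    have h1 : ∀ n, B ≤ n → an F n x' = 0 := by
      intro n hn
      rw [hx']
      rcases Nat.eq_or_lt_of_le hn with h | h
      · rw [← h, an_an_self]
      · rw [an_an, hx n h, map_zero, neg_zero]
    have h2 : ∀ n, B ≤ n → an F n y = 0 := by
      intro n hn
      rw [hy]
      rcases Nat.eq_or_lt_of_le hn with h | h
      · rw [← h, an_an_self]
      · rw [an_an, an_cr, if_neg (by omega), hx n h, map_zero, sub_zero, map_zero, neg_zero]
    have hlt : ∀ T ∈ (range B).powerset, ∀ n ∈ T, n < B := by
      intro T hT n hn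
      exact mem_range.mp (mem_powerset.mp hT hn)
    have hy2 : ∀ T ∈ (range B).powerset,
        vac F (ans F (T.sort (· ≥ ·)) y) = vac F (ans F (T.sort (· ≥ ·)) x) := by
      intro T hT
      have hz := vac_ans_cr F B (T.sort (· ≥ ·)) (fun n hn => by
        have := hlt T hT n ((mem_sort _).mp hn)
        omega) x'
      rw [hdec, map_add, map_add, hz, zero_add]
    rw [range_add_one, sum_powerset_insert (by simp)]
    have e1 : ∑ T ∈ (range B).powerset,
        vac F (ans F (T.sort (· ≥ ·)) x) • prb F (T.sort (· ≥ ·)) = y := by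
      refine Eq.trans (sum_congr rfl (fun T hT => ?_)) (ih y h2).symm
      rw [hy2 T hT]
    have e2 : ∑ T ∈ (range B).powerset,
        vac F (ans F ((insert B T).sort (· ≥ ·)) x) • prb F ((insert B T).sort (· ≥ ·)) =
        cr F B x' := by
      refine Eq.trans ?_ (congrArg (cr F B) (ih x' h1)).symm
      rw [map_sum]
      refine sum_congr rfl (fun T hT => ?_)
      rw [sort_insert (r := (· ≥ ·)) (fun b hb => (hlt T hT b hb).le)
        (fun hB => lt_irrefl _ (hlt T hT B hB)), prb_cons, map_smul, hx']
      rfl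
    rw [e1, e2, add_comm]
    exact hdec

theorem expand (x : Fk F) : ∃ B₀ : ℕ, ∀ B, B₀ ≤ B →
    x = ∑ T ∈ (range B).powerset,
      vac F (ans F (T.sort (· ≥ ·)) x) • prb F (T.sort (· ≥ ·)) := by
  obtain ⟨B₀, hB₀⟩ := an_fin F x
  exact ⟨B₀, fun B hB => expand_aux F B x (fun n hn => hB₀ n (le_trans hB hn))⟩

private theorem vac_ans_aux [CharZero F] (T : List ℕ) (hT : T.Pairwise (· > ·)) (x : Fk F) :
    vac F (ans F T x) =
      (T.map fun t => if t = 0 then (1 : F) else (1 / 2) * (-1) ^ t).prod *
        vac F (str F (List.map (fun t : ℕ => -(t : ℤ)) T) x) := by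
  induction T generalizing x with
  | nil =>
    rw [List.map_nil, List.prod_nil, one_mul]
    rfl
  | cons t T ih =>
    rw [List.pairwise_cons] at hT
    rw [List.map_cons, List.prod_cons, List.map_cons]
    change vac F (ans F T (an F t x)) = _ * vac F (str F _ (phi F (-(t : ℤ)) x))
    rw [ih hT.2]
    rcases Nat.eq_zero_or_pos t with h | h
    · subst h
      have hnil : T = [] := by
        rcases T with _ | ⟨a, T⟩
        · rfl
        · exact absurd (hT.1 a List.mem_cons_self) (Nat.not_lt_zero a)
      subst hnil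
      rw [List.map_nil, List.map_nil, List.prod_nil, if_pos rfl, one_mul]
      change vac F (an F 0 x) = 1 * 1 * vac F (phi F (-((0 : ℕ) : ℤ)) x)
      rw [Nat.cast_zero, neg_zero, phi_zero, map_add, vac_cr, zero_add, one_mul, one_mul]
    · rw [if_neg (by omega), phi_neg F t h, map_smul, map_smul, smul_eq_mul]
      have h4 : (1 / 2 * (-1) ^ t) * (2 * (-1) ^ t) = (1 : F) := by
        have h5 : ((-1 : F) ^ t) * (-1) ^ t = 1 := by
          rw [← mul_pow]
          norm_num
        calc (1 / 2 * (-1) ^ t) * (2 * (-1) ^ t) = (1 / 2 * 2) * (((-1 : F) ^ t) * (-1) ^ t) := by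
              ring
          _ = 1 := by
              rw [h5]
              norm_num
      generalize vac F (str F (List.map (fun t : ℕ => -(t : ℤ)) T) (an F t x)) = v
      generalize (List.map (fun t => if t = 0 then (1 : F) else 1 / 2 * (-1) ^ t) T).prod = c
      calc c * v = 1 * (c * v) := by ring
        _ = ((1 / 2 * (-1) ^ t) * (2 * (-1) ^ t)) * (c * v) := by rw [h4]
        _ = _ := by ring

private theorem map_neg_aux (T : List ℕ) :
    (T.map fun t => -(t : ℤ)) = List.map (fun t : ℕ => -(t : ℤ)) T := by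
  change List.map (fun t : ℤ => -t) (List.flatMap (fun a : ℕ => [(a : ℤ)]) T) = _
  induction T with
  | nil => rfl
  | cons t T ih => rw [List.flatMap_cons, List.map_append, ih, List.map_cons]; rfl

theorem vac_ans [CharZero F] (T : List ℕ) (hT : T.Pairwise (· > ·)) (x : Fk F) :
    vac F (ans F T x) =
      (T.map fun t => if t = 0 then (1 : F) else (1 / 2) * (-1) ^ t).prod *
        vac F (str F (T.map fun t => -(t : ℤ)) x) := by
  rw [map_neg_aux]
  exact vac_ans_aux F T hT x

theorem eq_of_vac [CharZero F] (x : Fk F) (h : ∀ L : List ℤ, vac F (str F L x) = 0) : x = 0 := by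
  obtain ⟨B, hB⟩ := expand F x
  refine (hB B le_rfl).trans (sum_eq_zero (fun T _ => ?_))
  have hp : (T.sort (· ≥ ·)).Pairwise (· > ·) := by
    have h1 : (T.sort (· ≥ ·)).Pairwise (· ≥ ·) := pairwise_sort T (· ≥ ·)
    have h2 : (T.sort (· ≥ ·)).Nodup := sort_nodup T (· ≥ ·)
    refine (h1.and h2).imp ?_
    intro a b hab
    exact lt_of_le_of_ne hab.1 (Ne.symm hab.2)
  rw [vac_ans F _ hp, h, mul_zero, zero_smul]

end Pool.Agent.Helper90.MVD
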