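import Pool.Agent.Helper90.MVD.Cur
import Pool.Agent.Helper90.MVD.Expand
import Pool.Agent.Helper90.MVD.WickS

/-!
Module MVD-11 (project MV, block D2): Heisenberg relations of the currents.

Let `C := [J_i, J_j]` (as operators). From `cur_phi`,
`[C, φ_n] = [J_i, [J_j, φ_n]] - [J_j, [J_i, φ_n]] = φ_{n+κ_i+κ_j} - φ_{n+κ_j+κ_i} = 0`: `C` commutes with
every `φ_n`, hence with every string.
* `cur_comm` (`i, j ≥ 0`): for every `L`, `vac (str L (C x)) = vac (C (str L x)) =
  vac (J_i J_j z) - vac (J_j J_i z) = 0` by `vac_cur`; `eq_of_vac` gives `C x = 0`.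
* `cur_heis`: `i = -a-1`, `j = b` (`κ_i = -(2a+1)`, `κ_j = 2b+1`), `c := (2b+1)/2` if `a = b`, else `0`,
  `C' := C - c`. It commutes with all `φ_n`. By `phi_ind` it suffices that `C' 1 = 0`. `J_i 1 = 0`
  (`cur_one`), so `C' 1 = J_i J_b 1 - c 1 =: y`. By `eq_of_vac` we need `vac (str L y) = 0` for all `L`.
  `str L y = C' (str L 1)`; if `L = n :: L'` with `n < 0` then `str L y = str L' (φ_n y)` and
  `φ_n y = C' (φ_n 1) = 0`. For a general list move the negative modes to the right with `phi_phi`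
  (or: use instead `expand`/`eq_vac_of_an`: `an n y = 0` for `n > 0` because `φ_{-n} y = 0`, and
  `y = cr 0 (an 0 y) + an 0 (cr 0 y)`, with `an 0 y` and `an 0 (cr 0 y)` killed by all `an n`, hence
  multiples of `1`: so `y = p 1 + q φ_0`, `p = vac y`, `q = vac (an 0 y) = vac (φ_0 y)`; it remains
  `vac y = 0` and `vac (φ_0 y) = 0`.)
  Compute: `J_b 1 = ½ ∑_{0≤r≤b} φ_{2b+1-2r} φ_{2r} 1` (the other terms of the sum over `Icc (-B) B`
  vanish on `1`), and with `cur_phi` and `J_i 1 = 0`: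
  `J_i J_b 1 = ½ ∑_{0≤r≤b} (φ_{2b-2a-2r} φ_{2r} + φ_{2b+1-2r} φ_{2r-2a-1}) 1`.
  `vac` of a product of two modes is `zfF`: (`vac_str`) `vac (φ_n φ_m 1) = zfF m n`; so
  `vac (J_i J_b 1) = ½ ∑_r (zfF (2r) (2b-2a-2r) + zfF (2r-2a-1) (2b+1-2r))`: zero unless `a = b`; if
  `a = b` the first sum is `1 + 2b` (`r = 0`: 1, `r > 0`: 2 each), the second is `0` since
  `2r-2a-1 < 0`. So `vac y = 0`. `vac (φ_0 y)`: three modes and one mode: `vac` of an odd string is `0`
  (`vac_str` and `pfL_odd`).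
-/

namespace Pool.Agent.Helper90.MVD

open Finset Pool.Agent.Helper60.MV

variable {F : Type} [Field F] [CharZero F] {J : ℤ → Fk F →ₗ[F] Fk F}

private theorem cm_phi (hJ : IsCur F J) (i j n : ℤ) (x : Fk F) :
    J i (J j (phi F n x)) - J j (J i (phi F n x)) = phi F n (J i (J j x) - J j (J i x)) := by
  have h1 : n + (2 * j + 1) + (2 * i + 1) = n + (2 * i + 1) + (2 * j + 1) := by ring
  rw [cur_phi hJ j n x, cur_phi hJ i n x, map_add, map_add, cur_phi hJ i n (J j x),
    cur_phi hJ j n (J i x), cur_phi hJ i (n + (2 * j + 1)) x, cur_phi hJ j (n + (2 * i + 1)) x,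
    map_sub, h1]
  abel

private theorem cm_str (hJ : IsCur F J) (i j : ℤ) (L : List ℤ) (x : Fk F) :
    str F L (J i (J j x) - J j (J i x)) = J i (J j (str F L x)) - J j (J i (str F L x)) := by
  induction L generalizing x with
  | nil => rfl
  | cons k L ih =>
    change str F L (phi F k (J i (J j x) - J j (J i x))) =
      J i (J j (str F L (phi F k x))) - J j (J i (str F L (phi F k x)))
    rw [← cm_phi hJ, ih]

theorem cur_comm (hJ : IsCur F J) (i j : ℤ) (hi : 0 ≤ i) (hj : 0 ≤ j) (x : Fk F) :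
    J i (J j x) = J j (J i x) := by
  rw [← sub_eq_zero]
  apply eq_of_vac
  intro L
  rw [cm_str hJ, map_sub, vac_cur hJ i hi, vac_cur hJ j hj, sub_zero]

private theorem vac_two (m n : ℤ) : vac F (phi F n (phi F m 1)) = zfF F m n := by
  have h := vac_str F [m, n]
  rw [pfL_pair] at h
  exact h

private theorem vac_three (m n k : ℤ) : vac F (phi F k (phi F n (phi F m 1))) = 0 := by
  have h := vac_str F [m, n, k]
  rw [pfL_odd (zfF F) [m, n, k] ⟨1, rfl⟩] at h
  exact h

private theorem vac_single (m : ℤ) : vac F (phi F m 1) = 0 := by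
  have h := vac_str F [m]
  rw [pfL_odd (zfF F) [m] ⟨0, rfl⟩] at h
  exact h

private theorem two_modes (hJ : IsCur F J) (i m n : ℤ) (hi : i < 0) :
    J i (phi F n (phi F m 1)) =
      phi F n (phi F (m + (2 * i + 1)) 1) + phi F (n + (2 * i + 1)) (phi F m 1) := by
  rw [cur_phi hJ, cur_phi hJ, cur_one hJ i hi, map_zero, zero_add]

private theorem JJ_one (hJ : IsCur F J) (a b : ℕ) : ∃ B₀ : ℕ, ∀ B : ℕ, B₀ ≤ B →
    J (-(a : ℤ) - 1) (J b 1) = (1 / 2 : F) • ∑ r ∈ Icc (-(B : ℤ)) B,
      (phi F (2 * (b : ℤ) + 1 - 2 * r) (phi F (2 * r + (2 * (-(a : ℤ) - 1) + 1)) 1) +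
        phi F (2 * (b : ℤ) + 1 - 2 * r + (2 * (-(a : ℤ) - 1) + 1)) (phi F (2 * r) 1)) := by
  obtain ⟨B₀, h0⟩ := hJ b 1
  refine ⟨B₀, fun B hB => ?_⟩
  rw [h0 B hB, map_smul, map_sum]
  congr 1
  refine Finset.sum_congr rfl fun r _ => ?_
  rw [two_modes hJ _ _ _ (by omega)]

private theorem term_eq (a : ℕ) (r : ℤ) :
    zfF F (2 * r + (2 * (-(a : ℤ) - 1) + 1)) (2 * (a : ℤ) + 1 - 2 * r) +
      zfF F (2 * r) (2 * (a : ℤ) + 1 - 2 * r + (2 * (-(a : ℤ) - 1) + 1)) =
      if 0 ≤ r ∧ r ≤ a then (2 - (if r = 0 then 1 else 0) : F) else 0 := by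
  have hodd : (-1 : F) ^ (2 * r + (2 * (-(a : ℤ) - 1) + 1)).natAbs = -1 := by
    have : Odd (2 * r + (2 * (-(a : ℤ) - 1) + 1)).natAbs := by
      rw [Int.natAbs_odd]
      exact ⟨r - a - 1, by omega⟩
    exact this.neg_one_pow
  have heven : (-1 : F) ^ (2 * r).natAbs = 1 := by
    have : Even (2 * r).natAbs := by
      rw [Int.natAbs_even]
      exact even_two_mul r
    exact this.neg_one_pow
  have e1 : zfF F (2 * r + (2 * (-(a : ℤ) - 1) + 1)) (2 * (a : ℤ) + 1 - 2 * r) =
      if (a : ℤ) < r then -2 else 0 := by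
    unfold zfF
    rw [if_pos (by omega), if_neg (by omega), hodd]
    by_cases h : (a : ℤ) < r
    · rw [if_pos (by omega), if_pos h]
      norm_num
    · rw [if_neg (by omega), if_neg h]
  have e2 : zfF F (2 * r) (2 * (a : ℤ) + 1 - 2 * r + (2 * (-(a : ℤ) - 1) + 1)) =
      if r = 0 then 1 else if 0 < r then 2 else 0 := by
    unfold zfF
    rw [if_pos (by omega), heven]
    rcases lt_trichotomy r 0 with h | h | h
    · rw [if_neg (by omega), if_neg (by omega), if_neg (by omega), if_neg (by omega)]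
    · rw [if_pos (by omega), if_pos (by omega)]
    · rw [if_neg (by omega), if_pos (by omega), if_neg (by omega), if_pos (by omega)]
      norm_num
  rw [e1, e2]
  rcases lt_trichotomy r 0 with h | h | h
  · rw [if_neg (by omega), if_neg (by omega), if_neg (by omega), if_neg (by omega), add_zero]
  · subst h
    rw [if_neg (by omega), if_pos rfl, if_pos ⟨le_rfl, by omega⟩, if_pos rfl]
    norm_num
  · by_cases h2 : r ≤ a
    · rw [if_neg (by omega), if_neg (by omega), if_pos h, if_pos ⟨h.le, h2⟩,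
        if_neg (by omega)]
      norm_num
    · rw [if_pos (by omega), if_neg (by omega), if_pos h, if_neg (by omega)]
      norm_num

omit [CharZero F] in
private theorem sum_term (a B : ℕ) (hB : a ≤ B) :
    ∑ r ∈ Icc (-(B : ℤ)) B, (if 0 ≤ r ∧ r ≤ a then (2 - (if r = 0 then 1 else 0) : F) else 0) =
      2 * (a : F) + 1 := by
  have h1 : ∑ r ∈ Icc (-(B : ℤ)) B,
      (if 0 ≤ r ∧ r ≤ a then (2 - (if r = 0 then 1 else 0) : F) else 0) =
      ∑ r ∈ Icc (0 : ℤ) a, (2 - (if r = 0 then 1 else 0) : F) := by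
    rw [← Finset.sum_filter]
    refine Finset.sum_congr ?_ fun _ _ => rfl
    ext r
    rw [Finset.mem_filter, Finset.mem_Icc, Finset.mem_Icc]
    omega
  rw [h1, Finset.sum_sub_distrib, Finset.sum_const, Finset.sum_ite_eq' (Icc (0 : ℤ) a) 0,
    if_pos (Finset.mem_Icc.2 ⟨le_rfl, by omega⟩), Int.card_Icc]
  have h2 : ((a : ℤ) + 1 - 0).toNat = a + 1 := by omega
  rw [h2, nsmul_eq_mul]
  push_cast
  ring

private theorem vac_JJ (hJ : IsCur F J) (a b : ℕ) :
    vac F (J (-(a : ℤ) - 1) (J b 1)) = if a = b then (2 * (b : F) + 1) / 2 else 0 := by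
  obtain ⟨B₀, h0⟩ := JJ_one hJ a b
  rw [h0 (B₀ + a) (by omega), map_smul, map_sum]
  have h1 : ∀ r : ℤ, vac F (phi F (2 * (b : ℤ) + 1 - 2 * r)
      (phi F (2 * r + (2 * (-(a : ℤ) - 1) + 1)) 1) +
        phi F (2 * (b : ℤ) + 1 - 2 * r + (2 * (-(a : ℤ) - 1) + 1)) (phi F (2 * r) 1)) =
      zfF F (2 * r + (2 * (-(a : ℤ) - 1) + 1)) (2 * (b : ℤ) + 1 - 2 * r) +
      zfF F (2 * r) (2 * (b : ℤ) + 1 - 2 * r + (2 * (-(a : ℤ) - 1) + 1)) := by
    intro r
    rw [map_add, vac_two, vac_two]
  rw [Finset.sum_congr rfl fun r _ => h1 r]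
  by_cases hab : a = b
  · subst hab
    rw [if_pos rfl, Finset.sum_congr rfl fun r _ => term_eq a r, sum_term a (B₀ + a) (by omega),
      smul_eq_mul]
    ring
  · rw [if_neg hab, Finset.sum_eq_zero, smul_zero]
    intro r _
    unfold zfF
    rw [if_neg (by omega), if_neg (by omega), add_zero]

private theorem vac_phiJJ (hJ : IsCur F J) (a b : ℕ) :
    vac F (phi F 0 (J (-(a : ℤ) - 1) (J b 1))) = 0 := by
  obtain ⟨B₀, h0⟩ := JJ_one hJ a b
  rw [h0 B₀ le_rfl, map_smul, map_smul, map_sum, map_sum, Finset.sum_eq_zero, smul_zero]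
  intro r _
  rw [map_add, map_add, vac_three, vac_three, add_zero]

theorem cur_heis (hJ : IsCur F J) (a b : ℕ) (x : Fk F) :
    J (-(a : ℤ) - 1) (J b x) = J b (J (-(a : ℤ) - 1) x) +
      (if a = b then (2 * (b : F) + 1) / 2 else 0) • x := by
  set c : F := if a = b then (2 * (b : F) + 1) / 2 else 0 with hc
  set i : ℤ := -(a : ℤ) - 1 with hi
  have hphi : ∀ (n : ℤ) (x : Fk F),
      J i (J b (phi F n x)) - J b (J i (phi F n x)) - c • phi F n x =
        phi F n (J i (J b x) - J b (J i x) - c • x) := by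
    intro n x
    rw [cm_phi hJ, map_sub (phi F n) (J i (J b x) - J b (J i x)), map_smul]
  -- the value at the vacuum
  set y : Fk F := J i (J b 1) - J b (J i 1) - c • (1 : Fk F) with hy
  have hJi : J i (1 : Fk F) = 0 := cur_one hJ i (by omega)
  have hy' : y = J i (J b 1) - c • (1 : Fk F) := by
    rw [hy, hJi, map_zero, sub_zero]
  have han : ∀ n : ℕ, 0 < n → an F n y = 0 := by
    intro n hn
    have h1 : phi F (-(n : ℤ)) y = 0 := by
      rw [hy, ← hphi, phi_one_neg F _ (by omega)]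
      simp only [map_zero, smul_zero, sub_zero]
    rw [phi_neg F n hn] at h1
    rcases smul_eq_zero.1 h1 with h2 | h2
    · exfalso
      have : (-1 : F) ^ n ≠ 0 := pow_ne_zero _ (by norm_num)
      have h3 : (2 : F) ≠ 0 := two_ne_zero
      exact (mul_ne_zero h3 this) h2
    · exact h2
  have hvac : vac F y = 0 := by
    rw [hy', map_sub, map_smul, vac_one, vac_JJ hJ, smul_eq_mul, mul_one, hc, sub_self]
  have hvac0 : vac F (an F 0 y) = 0 := by
    have h1 : vac F (phi F 0 y) = 0 := by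
      rw [hy', map_sub, map_sub, vac_phiJJ hJ, map_smul, map_smul, vac_single, smul_zero, sub_zero]
    rw [phi_zero, map_add, vac_cr, zero_add] at h1
    exact h1
  have hu : an F 0 y = 0 := by
    have h1 := eq_vac_of_an F (an F 0 y) (fun n => by
      rcases Nat.eq_zero_or_pos n with h | h
      · subst h
        exact an_an_self F 0 y
      · rw [an_an, han n h, map_zero, neg_zero])
    rw [h1, hvac0, zero_smul]
  have hy0 : y = 0 := by
    have h1 := eq_vac_of_an F y (fun n => by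
      rcases Nat.eq_zero_or_pos n with h | h
      · subst h
        exact hu
      · exact han n h)
    rw [h1, hvac, zero_smul]
  have key : ∀ x : Fk F, J i (J b x) - J b (J i x) - c • x = 0 := by
    refine phi_ind F _ ?_ ?_ ?_ ?_
    · exact hy0
    · intro x z hx hz
      have : J i (J b (x + z)) - J b (J i (x + z)) - c • (x + z) =
          (J i (J b x) - J b (J i x) - c • x) + (J i (J b z) - J b (J i z) - c • z) := by
        simp only [map_add, smul_add]
        abel
      rw [this, hx, hz, add_zero]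
    · intro d x hx
      have : J i (J b (d • x)) - J b (J i (d • x)) - c • (d • x) =
          d • (J i (J b x) - J b (J i x) - c • x) := by
        simp only [map_smul, smul_sub]
        rw [smul_comm c d x]
      rw [this, hx, smul_zero]
    · intro n x hx
      rw [hphi, hx, map_zero]
  have h := key x
  rw [sub_eq_zero, sub_eq_iff_eq_add] at h
  rw [h, add_comm]

end Pool.Agent.Helper90.MVD
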