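import Pool.Agent.Helper90.MVD.Defs

/-!
Module MVD-6 (project MV, block D2): the generating function of the `q_n`.

`qfac x = (1 + x u)/(1 - x u) = 1 + 2 ∑_{n≥1} x^n u^n` (power series in `u = PowerSeries.X`).
`coeff_qprod`: `q := ∏_i qfac (x i)`. Let `d` be the derivative of power series
(`PowerSeries.derivative`/`PowerSeries.derivativeFun`). `qfac x * (1 - xu) = 1 + xu` gives
`d (qfac x) = qfac x * (∑_{k≥0} 2 x^{2k+1} u^{2k})` (both sides times `(1-xu)^2`:
`d((1+xu)/(1-xu)) = 2x/(1-xu)^2` and `2x/((1-xu)(1+xu)) = ∑ 2 x^{2k+1} u^{2k}`; or coefficientwise: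
`(n+1) 2 x^{n+1} = ∑_{2k≤n} 2 x^{2k+1} b_{n-2k}(x)`, `b_0 = 1`, `b_m = 2x^m`, true because the right
side is `∑_{2k<n} 4x^{n+1} + [n even] 2 x^{n+1}`). By the product rule (induction over the index
set) `d q = q * ∑_k 2 t_k u^{2k}`, `t_k = ∑_i x_i^{2k+1}`, that is
`(n+1) q_{n+1} = ∑_{k ≤ n/2} 2 t_k q_{n-2k}`, the recursion which defines `qP` (characteristic 0),
and `q_0 = 1`. Strong induction.
-/

namespace Pool.Agent.Helper90.MVD

open Finset Pool.Agent.Helper60.MV Pool.Agent.Helper52.MVD

/-- coefficients of `(1 + x u)/(1 - x u)` -/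
noncomputable def bco {R : Type} [CommRing R] (n : ℕ) (x : R) : R := if n = 0 then 1 else 2 * x ^ n

/-- `(1 + x u)/(1 - x u)` -/
noncomputable def qfac {R : Type} [CommRing R] (x : R) : PowerSeries R :=
  PowerSeries.mk fun n => bco n x

theorem qfac_mul {R : Type} [CommRing R] (x : R) :
    qfac x * (1 - PowerSeries.C x * PowerSeries.X) = 1 + PowerSeries.C x * PowerSeries.X := by
  have h1 : qfac x * (1 - PowerSeries.C x * PowerSeries.X) =
      qfac x - PowerSeries.C x * (qfac x * PowerSeries.X) := by ring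
  rw [h1]
  ext n
  rw [map_sub, map_add, PowerSeries.coeff_C_mul, PowerSeries.coeff_C_mul]
  cases n with
  | zero =>
    simp [qfac, bco]
  | succ n =>
    rw [PowerSeries.coeff_succ_mul_X]
    unfold qfac
    rw [PowerSeries.coeff_mk, PowerSeries.coeff_mk]
    cases n with
    | zero =>
      simp [bco, PowerSeries.coeff_one, PowerSeries.coeff_X]
      ring
    | succ n =>
      simp only [bco, PowerSeries.coeff_one, PowerSeries.coeff_X]
      simp only [Nat.add_eq_zero_iff, one_ne_zero, and_false, if_false, Nat.add_eq_right,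
        mul_zero, add_zero]
      ring

/-- `∑_k 2 x^(2k+1) u^(2k)` -/
noncomputable def lser {R : Type} [CommRing R] (x : R) : PowerSeries R :=
  PowerSeries.mk fun m => if Even m then 2 * x ^ (m + 1) else 0

theorem lser_mul {R : Type} [CommRing R] (x : R) :
    lser x * (1 - PowerSeries.C (x ^ 2) * PowerSeries.X ^ 2) = PowerSeries.C (2 * x) := by
  have h1 : lser x * (1 - PowerSeries.C (x ^ 2) * PowerSeries.X ^ 2) =
      lser x - PowerSeries.C (x ^ 2) * (lser x * PowerSeries.X * PowerSeries.X) := by ring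
  rw [h1]
  ext n
  rw [map_sub, PowerSeries.coeff_C_mul, PowerSeries.coeff_C]
  cases n with
  | zero => simp [lser]
  | succ n =>
    rw [PowerSeries.coeff_succ_mul_X]
    cases n with
    | zero => simp [lser]
    | succ n =>
      rw [PowerSeries.coeff_succ_mul_X]
      unfold lser
      rw [PowerSeries.coeff_mk, PowerSeries.coeff_mk]
      have hz : (if n + 1 + 1 = 0 then 2 * x else 0) = 0 := if_neg (by omega)
      rw [hz]
      have he : Even (n + 1 + 1) ↔ Even n := by
        constructor
        · intro h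
          rw [Nat.even_iff] at h ⊢
          omega
        · intro h
          rw [Nat.even_iff] at h ⊢
          omega
      by_cases hn : Even n
      · rw [if_pos (he.mpr hn), if_pos hn]
        ring
      · rw [if_neg (fun h => hn (he.mp h)), if_neg hn]
        ring

theorem deriv_qfac {F : Type} [Field F] (x : F) :
    PowerSeries.derivative F (qfac x) = qfac x * lser x := by
  set u : PowerSeries F := PowerSeries.X with hu
  set c : PowerSeries F := PowerSeries.C x with hc
  have h1 : qfac x * (1 - c * u) = 1 + c * u := qfac_mul x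
  have hdc : PowerSeries.derivative F c = 0 := by
    rw [hc]
    exact PowerSeries.derivative_C
  have hdu : PowerSeries.derivative F u = 1 := PowerSeries.derivative_X
  have h2 := congrArg (PowerSeries.derivative F) h1
  have hd1 : PowerSeries.derivative F (1 : PowerSeries F) = 0 :=
    (PowerSeries.derivative F).map_one_eq_zero
  rw [Derivation.leibniz, map_sub, map_add, Derivation.leibniz, hdc, hdu, hd1] at h2
  simp only [smul_eq_mul, mul_zero, add_zero, mul_one, zero_sub, zero_add] at h2
  have h3 : lser x * (1 - c ^ 2 * u ^ 2) = 2 * c := by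
    have := lser_mul x
    rw [map_pow, map_mul] at this
    rw [this]
    rfl
  have hne1 : (1 - c * u : PowerSeries F) ≠ 0 := by
    intro h
    have := congrArg (PowerSeries.coeff 0) h
    simp [hu, hc] at this
  have hne2 : (1 - c ^ 2 * u ^ 2 : PowerSeries F) ≠ 0 := by
    intro h
    have := congrArg (PowerSeries.coeff 0) h
    simp [hu, hc] at this
  have hne3 : (1 - c * u) * ((1 - c * u) * (1 - c ^ 2 * u ^ 2)) ≠ 0 :=
    mul_ne_zero hne1 (mul_ne_zero hne1 hne2)
  refine mul_right_cancel₀ hne3 ?_
  have e1 : PowerSeries.derivative F (qfac x) * (1 - c * u) = c * (1 + qfac x) := by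
    linear_combination h2
  have e2 : (1 + qfac x) * (1 - c * u) = 2 := by
    linear_combination h1
  calc PowerSeries.derivative F (qfac x) * ((1 - c * u) * ((1 - c * u) * (1 - c ^ 2 * u ^ 2)))
      = (PowerSeries.derivative F (qfac x) * (1 - c * u)) * ((1 - c * u) * (1 - c ^ 2 * u ^ 2)) := by
        ring
    _ = c * ((1 + qfac x) * (1 - c * u)) * (1 - c ^ 2 * u ^ 2) := by rw [e1]; ring
    _ = 2 * c * (1 + c * u) * (1 - c * u) := by rw [e2]; ring
    _ = (qfac x * (1 - c * u)) * (lser x * (1 - c ^ 2 * u ^ 2)) * (1 - c * u) := by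
        rw [h1, h3]; ring
    _ = qfac x * lser x * ((1 - c * u) * ((1 - c * u) * (1 - c ^ 2 * u ^ 2))) := by ring

theorem deriv_qprod {F : Type} [Field F] {N : ℕ} (x : Fin N → F) (s : Finset (Fin N)) :
    PowerSeries.derivative F (∏ i ∈ s, qfac (x i)) =
      (∏ i ∈ s, qfac (x i)) * ∑ i ∈ s, lser (x i) := by
  classical
  induction s using Finset.induction_on with
  | empty =>
    rw [Finset.prod_empty, Finset.sum_empty, mul_zero]
    exact (PowerSeries.derivative F).map_one_eq_zero
  | insert a s ha ih =>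
    rw [Finset.prod_insert ha, Finset.sum_insert ha, Derivation.leibniz, ih, deriv_qfac,
      smul_eq_mul, smul_eq_mul]
    ring

theorem qprod_rec {F : Type} [Field F] {N : ℕ} (x : Fin N → F) (n : ℕ) :
    PowerSeries.coeff (n + 1) (∏ i, qfac (x i)) * ((n : F) + 1) =
      ∑ k ∈ range (n / 2 + 1), 2 * (∑ i, (x i) ^ (2 * k + 1)) *
        PowerSeries.coeff (n - 2 * k) (∏ i, qfac (x i)) := by
  classical
  set q : PowerSeries F := ∏ i, qfac (x i) with hq
  have h1 := congrArg (PowerSeries.coeff n) (deriv_qprod x Finset.univ)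
  rw [PowerSeries.coeff_derivative, ← hq] at h1
  rw [h1, mul_comm q, PowerSeries.coeff_mul,
    Finset.Nat.sum_antidiagonal_eq_sum_range_succ
      (fun a b => PowerSeries.coeff a (∑ i, lser (x i)) * PowerSeries.coeff b q) n]
  have h2 : ∀ m : ℕ, PowerSeries.coeff m (∑ i, lser (x i)) =
      if Even m then 2 * ∑ i, (x i) ^ (m + 1) else 0 := by
    intro m
    rw [map_sum]
    unfold lser
    simp only [PowerSeries.coeff_mk]
    split_ifs
    · rw [Finset.mul_sum]
    · rw [Finset.sum_const_zero]
  simp only [h2, ite_mul, zero_mul]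
  rw [← Finset.sum_filter]
  symm
  refine Finset.sum_nbij' (fun k => 2 * k) (fun m => m / 2) ?_ ?_ ?_ ?_ ?_
  · intro k hk
    rw [Finset.mem_range] at hk
    rw [Finset.mem_filter, Finset.mem_range]
    exact ⟨by omega, even_two_mul k⟩
  · intro m hm
    rw [Finset.mem_filter, Finset.mem_range] at hm
    rw [Finset.mem_range]
    omega
  · intro k _
    omega
  · intro m hm
    rw [Finset.mem_filter] at hm
    have := Nat.even_iff.mp hm.2
    omega
  · intro k _
    rfl

theorem coeff_qprod {F : Type} [Field F] [Algebra ℝ F] {N : ℕ} (x : Fin N → F) (n : ℕ) :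
    PowerSeries.coeff n (∏ i, qfac (x i)) =
      MvPolynomial.aeval (fun k => ∑ i, (x i) ^ (2 * k + 1)) (qP n) := by
  classical
  haveI : CharZero F := charZero_of_injective_algebraMap (algebraMap ℝ F).injective
  induction n using Nat.strong_induction_on with
  | _ n ih =>
    cases n with
    | zero =>
      rw [PowerSeries.coeff_zero_eq_constantCoeff_apply, map_prod]
      have h0 : ∀ i : Fin N, PowerSeries.constantCoeff (qfac (x i)) = 1 := by
        intro i
        rw [← PowerSeries.coeff_zero_eq_constantCoeff_apply]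
        simp [qfac, bco]
      simp only [h0, Finset.prod_const_one]
      rw [qP, map_one]
    | succ n =>
      have hn : ((n : F) + 1) ≠ 0 := by exact_mod_cast Nat.succ_ne_zero n
      refine mul_right_cancel₀ hn ?_
      rw [qprod_rec, qP, map_sum, Finset.sum_mul, Finset.sum_range]
      refine Finset.sum_congr rfl (fun k _ => ?_)
      rw [ih (n - 2 * (k : ℕ)) (by omega), map_mul, map_mul, MvPolynomial.aeval_C,
        MvPolynomial.aeval_X, map_div₀]
      have e1 : (algebraMap ℝ F) ((n : ℝ) + 1) = (n : F) + 1 := by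
        rw [map_add, map_natCast, map_one]
      have e2 : (algebraMap ℝ F) 2 = 2 := map_ofNat _ 2
      rw [e1, e2]
      field_simp

/-- the recursion of `QQ` -/
theorem QQ_rec (a b : ℕ) (hb : 1 ≤ b) :
    QQ a b + QQ (a + 1) (b - 1) = qP a * qP b - qP (a + 1) * qP (b - 1) := by
  obtain ⟨c, rfl⟩ : ∃ c, b = c + 1 := ⟨b - 1, by omega⟩
  unfold QQ
  rw [Nat.add_sub_cancel, Finset.sum_range_succ']
  have h1 : ∑ k ∈ range c, ((-1 : MvPolynomial ℕ ℝ) ^ (k + 1 + 1) *
      (qP (a + (k + 1 + 1)) * qP (c + 1 - (k + 1 + 1)))) =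
      - ∑ j ∈ range c, ((-1 : MvPolynomial ℕ ℝ) ^ (j + 1) *
        (qP (a + 1 + (j + 1)) * qP (c - (j + 1)))) := by
    rw [← Finset.sum_neg_distrib]
    refine Finset.sum_congr rfl (fun k _ => ?_)
    have e1 : a + (k + 1 + 1) = a + 1 + (k + 1) := by omega
    have e2 : c + 1 - (k + 1 + 1) = c - (k + 1) := by omega
    rw [e1, e2, pow_succ (-1 : MvPolynomial ℕ ℝ) (k + 1)]
    ring
  rw [h1]
  have e3 : c + 1 - (0 + 1) = c := by omega
  rw [e3]
  simp only [zero_add, pow_one]
  ring

theorem QQ_zero (a : ℕ) : QQ a 0 = qP a := by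
  unfold QQ
  rw [Finset.sum_range_zero, mul_zero, add_zero]
  have : qP 0 = 1 := by rw [qP]
  rw [this, mul_one]

/-- an array with the recursion of `QQ` is `QQ` -/
theorem eq_QQ {F : Type} [Field F] [Algebra ℝ F] (t : ℕ → F) (M : ℕ → ℕ → F)
    (h0 : ∀ a, 1 ≤ a → M a 0 = MvPolynomial.aeval t (qP a))
    (h : ∀ a b, 1 ≤ b → M a b + M (a + 1) (b - 1) =
      MvPolynomial.aeval t (qP a) * MvPolynomial.aeval t (qP b) -
        MvPolynomial.aeval t (qP (a + 1)) * MvPolynomial.aeval t (qP (b - 1)))
    (a b : ℕ) (hab : b < a) : M a b = MvPolynomial.aeval t (QQ a b) := by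
  induction b generalizing a with
  | zero =>
    rw [h0 a hab, QQ_zero]
  | succ b ih =>
    have h1 := h a (b + 1) (by omega)
    have h2 := congrArg (MvPolynomial.aeval t) (QQ_rec a (b + 1) (by omega))
    rw [map_add, map_sub, map_mul, map_mul] at h2
    rw [Nat.add_sub_cancel] at h1 h2
    rw [ih (a + 1) (by omega)] at h1
    linear_combination h1 - h2

end Pool.Agent.Helper90.MVD
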