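import Pool.Agent.Helper90.MVD.PfL

/-!
Module MVD-4 (project MV, block D2): Schur's Pfaffian identity.

`pfL σ L = ∏_{i<j} σ(L_i, L_j)`, `σ(x,y) = (x-y)/(x+y)`, for a list of even length with distinct
nonzero entries of nonzero sums.

Proof. Induction on the length (two by two). `L = x :: xs`, `n = |xs|` odd. By the recursion and the
induction hypothesis (`xs.eraseIdx j` has even length `n - 1`)
`pfL σ (x::xs) = ∑_j (-1)^j σ(x,x_j) ∏_{i<k; i,k≠j} σ(x_i,x_k)`. All `σ(x_i,x_k)`, `i ≠ k`, are
nonzero and `∏_{i<k} σ_ik = ∏_{i<k;i,k≠j} σ_ik * (-1)^j ∏_{k≠j} σ(x_j,x_k)` (`σ(x_i,x_j) =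
-σ(x_j,x_i)` for the `j` indices `i<j`; prove this for lists by induction, e.g. with the list split
`xs = l₁ ++ x_j :: l₂`). So the identity is
(1) `∑_j c_j σ(x,x_j) = ∏_j σ(x,x_j)`, `c_j := ∏_{k≠j} (x_j+x_k)/(x_j-x_k)`, `n` odd.
Lagrange: the polynomial `Q(T) := ∏_k (T-x_k) - ∏_k (T+x_k)` has degree `< n` and
`Q(-x_j) = ∏_k (-x_j-x_k) = - 2 x_j ∏_{k≠j} (-(x_j+x_k))`; Lagrange interpolation at the `n`
distinct nodes `-x_j` (Mathlib: `Lagrange.sum_basis`, `Lagrange.eq_interpolate_of_eval_eq`,
`Lagrange.eval_basis`...) gives for every `T` with all `T + x_k ≠ 0`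
(2) `∏_k (T-x_k)/(T+x_k) = 1 - ∑_j c_j * 2 x_j/(T+x_j)`.
[`Q(T)/∏_k(T+x_k) = ∑_j Q(-x_j) / (∏_{k≠j}(x_k-x_j)) / (T+x_j)`, and
`-2x_j ∏_{k≠j} (-(x_j+x_k))/(x_k-x_j) = -2x_j ∏_{k≠j} (x_j+x_k)/(x_j-x_k)`.]
`T = 0`: `(-1)^n = 1 - 2 ∑_j c_j`, so `∑_j c_j = 1` (n odd; characteristic 0). `T = x`:
`2x_j/(x+x_j) = 1 - σ(x,x_j)`, so `∏_j σ(x,x_j) = 1 - ∑ c_j + ∑ c_j σ(x,x_j)`, which is (1).
(It may be more convenient to prove (1) for a `Finset`/`Fin n` indexed family and to convert.)
-/

namespace Pool.Agent.Helper90.MVD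

open Finset Pool.Agent.Helper60.MV

/-- `∏_{i<j} σ(L_i, L_j)` -/
noncomputable def prs {K : Type} [Field K] : List K → K
  | [] => 1
  | x :: xs => (xs.map fun y => (x - y) / (x + y)).prod * prs xs

theorem prs_antisymm {K : Type} [Field K] (a b : K) :
    (b - a) / (b + a) = - ((a - b) / (a + b)) := by
  rw [← neg_div, neg_sub, add_comm b a]

theorem prod_map_eraseIdx {K R : Type} [CommMonoid R] (f : K → R) (xs : List K)
    (j : Fin xs.length) :
    (xs.map f).prod = f (xs.get j) * ((xs.eraseIdx j).map f).prod := by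
  have h := List.getElem_cons_eraseIdx_perm (l := xs) (n := (j : ℕ)) j.2
  have h2 := (h.map f).prod_eq
  rw [List.map_cons, List.prod_cons] at h2
  rw [← h2]
  rfl

/-- Moving the entry `j` to the front. -/
theorem prs_erase {K : Type} [Field K] (xs : List K) (j : Fin xs.length) :
    prs xs = (-1) ^ (j : ℕ) *
      ((xs.eraseIdx j).map fun y => (xs.get j - y) / (xs.get j + y)).prod *
      prs (xs.eraseIdx j) := by
  induction xs with
  | nil => exact j.elim0
  | cons y ys ih =>
    rcases j with ⟨j, hj⟩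
    cases j with
    | zero => simp [prs]
    | succ j =>
      have hj' : j < ys.length := by simpa using hj
      have h1 := ih ⟨j, hj'⟩
      have h2 := prod_map_eraseIdx (fun z => (y - z) / (y + z)) ys ⟨j, hj'⟩
      have h3 := prs_antisymm y (ys.get ⟨j, hj'⟩)
      simp only [List.eraseIdx_cons_succ, List.get_eq_getElem, List.getElem_cons_succ,
        List.map_cons, List.prod_cons, prs, pow_succ] at h1 h2 h3 ⊢
      rw [h2, h1, h3]
      ring

theorem erase_multiset {K : Type} (xs : List K) (j : Fin xs.length) :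
    ((xs.eraseIdx j : List K) : Multiset K) = (univ.erase j).val.map xs.get := by
  have h1 : xs.get j ::ₘ ((xs.eraseIdx j : List K) : Multiset K) = (xs : Multiset K) := by
    rw [Multiset.cons_coe]
    exact Multiset.coe_eq_coe.2 (List.getElem_cons_eraseIdx_perm (l := xs) (n := (j : ℕ)) j.2)
  have h2 : xs.get j ::ₘ (univ.erase j).val.map xs.get = (xs : Multiset K) := by
    rw [← Multiset.map_cons xs.get]
    have h3 : j ::ₘ (univ.erase j).val = (univ : Finset (Fin xs.length)).val := by
      rw [Finset.erase_val]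
      exact Multiset.cons_erase (Finset.mem_univ j)
    rw [h3, Fin.univ_val_map]
    simp
  exact (Multiset.cons_inj_right _).1 (h1.trans h2.symm)

theorem prod_erase_list {K R : Type} [CommMonoid R] (f : K → R) (xs : List K)
    (j : Fin xs.length) :
    ((xs.eraseIdx j).map f).prod = ∏ k ∈ univ.erase j, f (xs.get k) := by
  rw [← Multiset.prod_coe, ← Multiset.map_coe, erase_multiset, Multiset.map_map]
  rfl

/-- (2) of the header -/
theorem lagr_two {K : Type} [Field K] {n : ℕ} (v : Fin n → K)
    (hv : Function.Injective v) (T : K) (hT : ∀ k, T + v k ≠ 0) :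
    ∏ k, (T - v k) / (T + v k) = 1 - ∑ j, (∏ k ∈ univ.erase j, (v j + v k) / (v j - v k)) *
      (2 * v j / (T + v j)) := by
  classical
  rcases Nat.eq_zero_or_pos n with h0 | hn
  · subst h0; simp
  set w : Fin n → K := fun i => - v i with hw
  have hwi : Set.InjOn w (univ : Finset (Fin n)) := by
    intro a _ b _ hab
    exact hv (neg_injective hab)
  have hne : Nonempty (Fin n) := ⟨⟨0, hn⟩⟩
  set Q : Polynomial K := Lagrange.nodal univ w - Lagrange.nodal univ v with hQ
  have hdeg : Q.degree < (univ : Finset (Fin n)).card := by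
    have h1 : (Lagrange.nodal univ w).degree = ((univ : Finset (Fin n)).card : ℕ) :=
      Lagrange.degree_nodal
    have h2 : (Lagrange.nodal univ v).degree = ((univ : Finset (Fin n)).card : ℕ) :=
      Lagrange.degree_nodal
    rw [hQ, ← h1]
    refine Polynomial.degree_sub_lt_left (h1.trans h2.symm) Lagrange.nodal_ne_zero ?_
    rw [(Lagrange.nodal_monic (s := univ) (v := w)).leadingCoeff,
      (Lagrange.nodal_monic (s := univ) (v := v)).leadingCoeff]
  have hint := Lagrange.eq_interpolate hwi hdeg
  have hTw : ∀ i ∈ (univ : Finset (Fin n)), T ≠ w i := by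
    intro i _ h
    apply hT i
    rw [h, hw]; simp
  have hev := congrArg (Polynomial.eval T) hint
  rw [Lagrange.eval_interpolate_not_at_node _ hTw] at hev
  have hN : Polynomial.eval T (Lagrange.nodal univ w) = ∏ k, (T + v k) := by
    rw [Lagrange.eval_nodal]
    exact Finset.prod_congr rfl fun k _ => by rw [hw]; ring
  have hN2 : Polynomial.eval T (Lagrange.nodal univ v) = ∏ k, (T - v k) :=
    Lagrange.eval_nodal
  have hNne : ∏ k, (T + v k) ≠ 0 := Finset.prod_ne_zero_iff.2 fun k _ => hT k
  have hQT : Polynomial.eval T Q = ∏ k, (T + v k) - ∏ k, (T - v k) := by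
    rw [hQ, Polynomial.eval_sub, hN, hN2]
  have hterm : ∀ i, Lagrange.nodalWeight univ w i * (T - w i)⁻¹ * Polynomial.eval (w i) Q =
      (∏ k ∈ univ.erase i, (v i + v k) / (v i - v k)) * (2 * v i / (T + v i)) := by
    intro i
    have h1 : Polynomial.eval (w i) Q = 2 * v i * ∏ k ∈ univ.erase i, (-(v i + v k)) := by
      rw [hQ, Polynomial.eval_sub, Lagrange.eval_nodal_at_node (Finset.mem_univ i), zero_sub,
        Lagrange.eval_nodal, ← Finset.mul_prod_erase univ _ (Finset.mem_univ i)]
      have h2 : ∀ k, w i - v k = -(v i + v k) := fun k => by rw [hw]; ring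
      rw [Finset.prod_congr rfl fun k _ => h2 k, h2 i]
      ring
    have h3 : Lagrange.nodalWeight univ w i = ∏ k ∈ univ.erase i, (-(v i - v k))⁻¹ := by
      rw [Lagrange.nodalWeight]
      exact Finset.prod_congr rfl fun k _ => by rw [hw]; ring
    have h4 : T - w i = T + v i := by rw [hw]; ring
    rw [h1, h3, h4]
    have h5 : (∏ k ∈ univ.erase i, (-(v i - v k))⁻¹) * ∏ k ∈ univ.erase i, (-(v i + v k)) =
        ∏ k ∈ univ.erase i, (v i + v k) / (v i - v k) := by
      rw [← Finset.prod_mul_distrib]
      refine Finset.prod_congr rfl fun k _ => ?_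
      rw [inv_neg, neg_mul_neg, div_eq_mul_inv, mul_comm]
    rw [← h5, div_eq_mul_inv]
    ring
  rw [hQT, hN, Finset.sum_congr rfl fun i _ => hterm i] at hev
  rw [Finset.prod_div_distrib]
  have h6 : ∏ k, (T - v k) = ∏ k, (T + v k) - (∏ k, (T + v k)) *
      ∑ j, (∏ k ∈ univ.erase j, (v j + v k) / (v j - v k)) * (2 * v j / (T + v j)) := by
    rw [← hev]; ring
  rw [h6, sub_div, div_self hNne, mul_div_cancel_left₀ _ hNne]

/-- (1) of the header -/
theorem lagr_one {K : Type} [Field K] [CharZero K] {n : ℕ} (hn : Odd n) (v : Fin n → K)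
    (hv : Function.Injective v) (h0 : ∀ k, v k ≠ 0) (x : K) (hx : ∀ k, x + v k ≠ 0) :
    ∑ j, (∏ k ∈ univ.erase j, (v j + v k) / (v j - v k)) * ((x - v j) / (x + v j)) =
      ∏ k, (x - v k) / (x + v k) := by
  have h1 := lagr_two v hv x hx
  have h2 := lagr_two v hv 0 (fun k => by rw [zero_add]; exact h0 k)
  have h3 : ∏ k, ((0:K) - v k) / (0 + v k) = -1 := by
    have h4 : ∀ k, ((0:K) - v k) / (0 + v k) = -1 := by
      intro k
      rw [zero_sub, zero_add, neg_div, div_self (h0 k)]
    rw [Finset.prod_congr rfl fun k _ => h4 k, Finset.prod_const, Finset.card_univ,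
      Fintype.card_fin, hn.neg_one_pow]
  have h5 : ∑ j, (∏ k ∈ univ.erase j, (v j + v k) / (v j - v k)) *
      (2 * v j / ((0:K) + v j)) = 2 * ∑ j, (∏ k ∈ univ.erase j, (v j + v k) / (v j - v k)) := by
    rw [Finset.mul_sum]
    refine Finset.sum_congr rfl fun j _ => ?_
    rw [zero_add, mul_div_cancel_right₀ _ (h0 j), mul_comm]
  rw [h3, h5] at h2
  have h6 : ∑ j, (∏ k ∈ univ.erase j, (v j + v k) / (v j - v k)) = 1 := by
    have h7 : (2:K) ≠ 0 := two_ne_zero
    apply mul_left_cancel₀ h7
    linear_combination h2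
  rw [h1]
  have h8 : ∀ j, (∏ k ∈ univ.erase j, (v j + v k) / (v j - v k)) * ((x - v j) / (x + v j)) =
      (∏ k ∈ univ.erase j, (v j + v k) / (v j - v k)) -
      (∏ k ∈ univ.erase j, (v j + v k) / (v j - v k)) * (2 * v j / (x + v j)) := by
    intro j
    have h9 : (x - v j) / (x + v j) = 1 - 2 * v j / (x + v j) := by
      rw [eq_sub_iff_add_eq, ← add_div, div_eq_one_iff_eq (hx j)]
      ring
    rw [h9, mul_sub, mul_one]
  rw [Finset.sum_congr rfl fun j _ => h8 j, Finset.sum_sub_distrib, h6]

theorem schur_pf {K : Type} [Field K] [CharZero K] (L : List K) (hL : Even L.length)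
    (hd : L.Nodup) (h0 : ∀ x ∈ L, x ≠ 0) (hs : ∀ x ∈ L, ∀ y ∈ L, x + y ≠ 0) :
    pfL (fun x y => (x - y) / (x + y)) L = prs L := by
  induction hn : L.length using Nat.strong_induction_on generalizing L with
  | _ n ih =>
    cases L with
    | nil => rw [pfL_nil, prs]
    | cons x xs =>
      have hodd : Odd xs.length := by
        rw [List.length_cons] at hL
        exact Nat.not_even_iff_odd.1 (fun h => (Nat.not_even_iff_odd.2 h.add_one) hL)
      have hxs : xs.Nodup := (List.nodup_cons.1 hd).2
      have hmem : ∀ k : Fin xs.length, xs.get k ∈ xs := fun k => List.get_mem xs k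
      have hinj : Function.Injective xs.get := List.nodup_iff_injective_get.1 hxs
      rw [pfL_cons, prs]
      have hterm : ∀ j : Fin xs.length,
          (-1) ^ (j : ℕ) * ((x - xs.get j) / (x + xs.get j)) *
            pfL (fun x y => (x - y) / (x + y)) (xs.eraseIdx j) =
          (∏ k ∈ univ.erase j, (xs.get j + xs.get k) / (xs.get j - xs.get k)) *
            ((x - xs.get j) / (x + xs.get j)) * prs xs := by
        intro j
        have hsub : List.Sublist (xs.eraseIdx j) xs := List.eraseIdx_sublist xs j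
        have hlen : (xs.eraseIdx j).length + 1 = xs.length := by
          rw [List.length_eraseIdx_of_lt j.2]
          have := j.2
          omega
        have hIH : pfL (fun x y => (x - y) / (x + y)) (xs.eraseIdx j) = prs (xs.eraseIdx j) := by
          refine ih (xs.eraseIdx j).length ?_ (xs.eraseIdx j) ?_ (hxs.sublist hsub) ?_ ?_ rfl
          · rw [← hn, List.length_cons]; omega
          · rw [← hlen] at hodd
            exact Nat.not_odd_iff_even.1 (fun h => (Nat.not_odd_iff_even.2 h.add_one) hodd)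
          · intro z hz
            exact h0 z (List.mem_cons_of_mem _ (hsub.subset hz))
          · intro y hy z hz
            exact hs y (List.mem_cons_of_mem _ (hsub.subset hy)) z
              (List.mem_cons_of_mem _ (hsub.subset hz))
        have hA := prs_erase xs j
        rw [prod_erase_list (fun y => (xs.get j - y) / (xs.get j + y)) xs j] at hA
        have hne : (∏ k ∈ univ.erase j, (xs.get j + xs.get k) / (xs.get j - xs.get k)) *
            (∏ k ∈ univ.erase j, (xs.get j - xs.get k) / (xs.get j + xs.get k)) = 1 := by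
          rw [← Finset.prod_mul_distrib]
          refine Finset.prod_eq_one fun k hk => ?_
          have hkj : xs.get j - xs.get k ≠ 0 := by
            intro h
            exact (Finset.mem_erase.1 hk).1 (hinj (sub_eq_zero.1 h)).symm
          have hkj2 : xs.get j + xs.get k ≠ 0 :=
            hs _ (List.mem_cons_of_mem _ (hmem j)) _ (List.mem_cons_of_mem _ (hmem k))
          field_simp
        have hsq : ((-1 : K) ^ (j : ℕ)) * (-1) ^ (j : ℕ) = 1 := by
          rw [← mul_pow]; simp
        rw [hIH]
        calc (-1) ^ (j : ℕ) * ((x - xs.get j) / (x + xs.get j)) * prs (xs.eraseIdx j)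
            = ((∏ k ∈ univ.erase j, (xs.get j + xs.get k) / (xs.get j - xs.get k)) *
              (∏ k ∈ univ.erase j, (xs.get j - xs.get k) / (xs.get j + xs.get k))) *
              ((-1) ^ (j : ℕ) * ((x - xs.get j) / (x + xs.get j)) * prs (xs.eraseIdx j)) := by
                rw [hne, one_mul]
          _ = _ := by
                rw [hA]
                ring
      have hterm' : ∀ j : Fin xs.length,
          (-1) ^ (j : ℕ) * (fun x y : K => (x - y) / (x + y)) x (xs.get j) *
            pfL (fun x y => (x - y) / (x + y)) (xs.eraseIdx j) =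
          (∏ k ∈ univ.erase j, (xs.get j + xs.get k) / (xs.get j - xs.get k)) *
            ((x - xs.get j) / (x + xs.get j)) * prs xs := fun j => hterm j
      rw [Finset.sum_congr rfl fun j _ => hterm' j, ← Finset.sum_mul,
        lagr_one hodd xs.get hinj (fun k => h0 _ (List.mem_cons_of_mem _ (hmem k))) x
          (fun k => hs x List.mem_cons_self _ (List.mem_cons_of_mem _ (hmem k)))]
      congr 1
      rw [← Multiset.prod_coe, ← Multiset.map_coe]
      have h9 : (xs : Multiset K) = univ.val.map xs.get := by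
        rw [Fin.univ_val_map]; simp
      rw [h9, Multiset.map_map]
      rfl

theorem prs_append {K : Type} [Field K] (L L' : List K) :
    prs (L ++ L') = prs L * (L.map fun x => (L'.map fun y => (x - y) / (x + y)).prod).prod *
      prs L' := by
  induction L with
  | nil => simp [prs]
  | cons x L ih =>
    rw [List.cons_append, prs, prs, ih, List.map_append, List.prod_append, List.map_cons,
      List.prod_cons]
    ring

theorem prs_ofFn {K : Type} [Field K] {N : ℕ} (s : Fin N → K) :
    prs (List.ofFn s) = ∏ i, ∏ j ∈ Ioi i, (s i - s j) / (s i + s j) := by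
  induction N with
  | zero => simp [prs]
  | succ N ih =>
    rw [List.ofFn_succ, prs, ih, Fin.prod_univ_succ, Fin.prod_Ioi_zero, List.map_ofFn,
      List.prod_ofFn]
    congr 1
    refine Finset.prod_congr rfl fun i _ => ?_
    rw [Fin.prod_Ioi_succ]

end Pool.Agent.Helper90.MVD
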