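import Pool.Agent.Helper90.MVD.PfRow
import Pool.Agent.Helper90.MVD.SchurId
import Pool.Agent.Helper90.MVD.Inv
import Pool.Agent.Helper90.MVD.QGen

/-!
Module MVD-7 (project MV, block D2): the Schur complement of `σ` is `QQ`.

Let `x_i = 1/s_i`, `Q` an inverse of the matrix `σ = (sig i j)` over `F`, and
`M a b := - ∑_{k,j} Q k j * bco a (x_j) * bco b (x_k)`. Claim: `M a b = QQ a b (t)` for `a > b`.

Proof. Let `P2 := PowerSeries (PowerSeries F)` (a domain), `u := C X`, `v := X`,
`K := FractionRing P2` (a field of characteristic 0), `ι : F → K`. In `K` consider the list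
`L = [s_1, ..., s_N, -u, -v]` (even length): the entries are distinct, nonzero, all sums are nonzero
(`s_i + s_j ≠ 0`, `s_i - u ≠ 0`, `s_i - v ≠ 0`, `u + v ≠ 0`, `2u ≠ 0`, `2v ≠ 0`: compare coefficients
in `P2`). Schur's identity `schur_pf` for `L` and for `[s_1..s_N]`, with `prs_append`:
  `pfL σ L = pfL σ [s] * ∏_i σ(s_i,-u) * ∏_i σ(s_i,-v) * σ(-u,-v)`.
`pfL_schur` with `α = K`, `A = σ` (`A x y = (x-y)/(x+y)` is alternating on the whole field, also with
`y/0 = 0`), `ψ i = s_i`, `y a k = ∑_j Q k j * σ(s_j, a)`, list `[-u,-v]`, and `pfL_pair`: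
  `pfL σ L = pfL σ [s] * (σ(-u,-v) - ∑_{k,j} Q k j σ(s_j,-u) σ(s_k,-v))`.
`pfL σ [s] = ι G ≠ 0`. `σ(-u,-v) = (u-v)/(u+v)`. `σ(s_i,-u) = (s_i+u)/(s_i-u)` is the image of
`qfac (x_i)` in the variable `u` (`qfac_mul`), same for `v`. Multiply by `u+v` and come back to `P2`
(`P2 → K` injective): with `q(u) = ∏_i qfac (x_i)(u)` and `M(u,v) := -∑ Q k j qfac(x_j)(u) qfac(x_k)(v)`
  `(u-v) + (u+v) M(u,v) = (u-v) q(u) q(v)`.
Coefficient of `u^{a+1} v^b` (`PowerSeries.coeff (a+1) (PowerSeries.coeff b ·)`): for `b ≥ 1`: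
`M a b + M (a+1) (b-1) = q_a q_b - q_{a+1} q_{b-1}`; for `b = 0`, `a ≥ 1`: `M a 0 = q_a q_0 = q_a`.
Conclude with `eq_QQ` (and `coeff_qprod`, `tval D.s k = ∑_i x_i^{2k+1}`).
-/

namespace Pool.Agent.Helper90.MVD

open Finset Pool.Agent.Helper60.MV Pool.Agent.Helper52.MVD

private theorem schur2 {K : Type} [Field K] [CharZero K] {N : ℕ} (hN : Even N) (s : Fin N → K)
    (u v : K) (hinj : Function.Injective s) (hs0 : ∀ i, s i ≠ 0) (hss : ∀ i j, s i + s j ≠ 0)
    (hu0 : u ≠ 0) (hv0 : v ≠ 0) (huv : u ≠ v) (huv' : u + v ≠ 0)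
    (hsu : ∀ i, s i - u ≠ 0) (hsv : ∀ i, s i - v ≠ 0)
    (hsu' : ∀ i, s i ≠ -u) (hsv' : ∀ i, s i ≠ -v)
    (Q : Fin N → Fin N → K)
    (hQ : ∀ i j, ∑ k, (s i - s k) / (s i + s k) * Q k j = if i = j then 1 else 0) :
    (u - v) * ((∏ i, (s i + u) / (s i - u)) * ∏ i, (s i + v) / (s i - v)) =
      (u - v) + (u + v) *
        (- ∑ k, ∑ j, Q k j * ((s j + u) / (s j - u)) * ((s k + v) / (s k - v))) := by
  classical
  set A : K → K → K := fun x y => (x - y) / (x + y) with hA
  have hA0 : ∀ a, A a a = 0 := by
    intro a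
    simp [hA]
  have hA1 : ∀ a b, A a b = - A b a := by
    intro a b
    simp only [hA]
    rw [← neg_div, neg_sub, add_comm a b]
  have hlen : (List.ofFn s).length = N := List.length_ofFn
  have hu2 : -u + -u ≠ 0 := by
    intro h
    apply hu0
    have : (2 : K) * u = 0 := by linear_combination -h
    rcases mul_eq_zero.1 this with h1 | h1
    · exact absurd h1 two_ne_zero
    · exact h1
  have hv2 : -v + -v ≠ 0 := by
    intro h
    apply hv0
    have : (2 : K) * v = 0 := by linear_combination -h
    rcases mul_eq_zero.1 this with h1 | h1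
    · exact absurd h1 two_ne_zero
    · exact h1
  have huv2 : -u + -v ≠ 0 := by
    intro h
    apply huv'
    linear_combination -h
  have hsu2 : ∀ i, s i + -u ≠ 0 := fun i => by rw [← sub_eq_add_neg]; exact hsu i
  have hsv2 : ∀ i, s i + -v ≠ 0 := fun i => by rw [← sub_eq_add_neg]; exact hsv i
  have e1 : pfL A (List.ofFn s) = prs (List.ofFn s) := by
    refine schur_pf _ ?_ ?_ ?_ ?_
    · rw [hlen]
      exact hN
    · rw [List.nodup_ofFn]
      exact hinj
    · intro x hx
      obtain ⟨i, rfl⟩ := (List.mem_ofFn' _ _).1 hx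
      exact hs0 i
    · intro x hx y hy
      obtain ⟨i, rfl⟩ := (List.mem_ofFn' _ _).1 hx
      obtain ⟨j, rfl⟩ := (List.mem_ofFn' _ _).1 hy
      exact hss i j
  have e2 : pfL A (List.ofFn s ++ [-u, -v]) = prs (List.ofFn s ++ [-u, -v]) := by
    refine schur_pf _ ?_ ?_ ?_ ?_
    · rw [List.length_append, hlen]
      exact hN.add ⟨1, rfl⟩
    · rw [List.nodup_append]
      refine ⟨by rw [List.nodup_ofFn]; exact hinj, ?_, ?_⟩
      · simp [huv]
      · intro x hx y hy
        obtain ⟨i, rfl⟩ := (List.mem_ofFn' _ _).1 hx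
        simp only [List.mem_cons, List.not_mem_nil, or_false] at hy
        rcases hy with rfl | rfl
        · exact hsu' i
        · exact hsv' i
    · intro x hx
      rw [List.mem_append] at hx
      rcases hx with hx | hx
      · obtain ⟨i, rfl⟩ := (List.mem_ofFn' _ _).1 hx
        exact hs0 i
      · simp only [List.mem_cons, List.not_mem_nil, or_false] at hx
        rcases hx with rfl | rfl
        · exact neg_ne_zero.2 hu0
        · exact neg_ne_zero.2 hv0
    · intro x hx y hy
      rw [List.mem_append] at hx hy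
      rcases hx with hx | hx
      · obtain ⟨i, rfl⟩ := (List.mem_ofFn' _ _).1 hx
        rcases hy with hy | hy
        · obtain ⟨j, rfl⟩ := (List.mem_ofFn' _ _).1 hy
          exact hss i j
        · simp only [List.mem_cons, List.not_mem_nil, or_false] at hy
          rcases hy with rfl | rfl
          · exact hsu2 i
          · exact hsv2 i
      · simp only [List.mem_cons, List.not_mem_nil, or_false] at hx
        rcases hy with hy | hy
        · obtain ⟨j, rfl⟩ := (List.mem_ofFn' _ _).1 hy
          rcases hx with rfl | rfl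
          · rw [add_comm]
            exact hsu2 j
          · rw [add_comm]
            exact hsv2 j
        · simp only [List.mem_cons, List.not_mem_nil, or_false] at hy
          rcases hx with rfl | rfl <;> rcases hy with rfl | rfl
          · exact hu2
          · exact huv2
          · rw [add_comm]
            exact huv2
          · exact hv2
  have hne : prs (List.ofFn s) ≠ 0 := by
    rw [prs_ofFn]
    refine Finset.prod_ne_zero_iff.2 fun i _ => Finset.prod_ne_zero_iff.2 fun j hj => ?_
    refine div_ne_zero ?_ (hss i j)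
    rw [sub_ne_zero]
    intro h
    have h1 := hinj h
    rw [Finset.mem_Ioi] at hj
    exact (ne_of_lt hj) h1
  have e3 := pfL_schur A hA0 hA1 s (fun a k => ∑ j, Q k j * A (s j) a) [-u, -v] (by
    intro a _ i
    have h1 : ∀ k ∈ (Finset.univ : Finset (Fin N)), (∑ j, Q k j * A (s j) a) * A (s i) (s k) =
        ∑ j, (A (s i) (s k) * Q k j) * A (s j) a := by
      intro k _
      rw [Finset.sum_mul]
      refine Finset.sum_congr rfl fun j _ => ?_
      ring
    rw [Finset.sum_congr rfl h1, Finset.sum_comm]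
    have h2 : ∀ j ∈ (Finset.univ : Finset (Fin N)), ∑ k, (A (s i) (s k) * Q k j) * A (s j) a =
        (if i = j then 1 else 0) * A (s j) a := by
      intro j _
      rw [← Finset.sum_mul, ← hQ i j]
    rw [Finset.sum_congr rfl h2]
    simp)
  rw [e2, e1, pfL_pair, prs_append, mul_assoc] at e3
  have e4 := mul_left_cancel₀ hne e3
  have e5 : prs [-u, -v] = (u - v) / (u + v) := by
    simp only [prs, List.map_cons, List.map_nil, List.prod_cons, List.prod_nil, mul_one]
    rw [div_eq_div_iff huv2 huv']
    ring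
  have e6 : ((List.ofFn s).map fun x => ([-u, -v].map fun y => (x - y) / (x + y)).prod).prod =
      (∏ i, (s i + u) / (s i - u)) * ∏ i, (s i + v) / (s i - v) := by
    rw [List.map_ofFn, List.prod_ofFn, ← Finset.prod_mul_distrib]
    refine Finset.prod_congr rfl fun i _ => ?_
    simp only [Function.comp_apply, List.map_cons, List.map_nil, List.prod_cons, List.prod_nil,
      mul_one, sub_neg_eq_add]
    rw [← sub_eq_add_neg, ← sub_eq_add_neg]
  rw [e5, e6] at e4
  have e7 : A (-u) (-v) = (u - v) / (u + v) := by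
    simp only [hA]
    rw [div_eq_div_iff huv2 huv']
    ring
  have e8 : ∑ k, (∑ j, Q k j * A (s j) (-u)) * A (s k) (-v) =
      ∑ k, ∑ j, Q k j * ((s j + u) / (s j - u)) * ((s k + v) / (s k - v)) := by
    refine Finset.sum_congr rfl fun k _ => ?_
    rw [Finset.sum_mul]
    refine Finset.sum_congr rfl fun j _ => ?_
    simp only [hA, sub_neg_eq_add]
    rw [← sub_eq_add_neg, ← sub_eq_add_neg]
  rw [e7, e8] at e4
  have e9 : _ * (u + v) = _ * (u + v) := congrArg (fun z => z * (u + v)) e4
  rw [sub_mul, mul_assoc, div_mul_cancel₀ _ huv'] at e9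
  linear_combination e9

private noncomputable def cst (F : Type) [Field F] : F →+* PowerSeries (PowerSeries F) :=
  (PowerSeries.C (R := PowerSeries F)).comp (PowerSeries.C (R := F))

private noncomputable def c00 (F : Type) [Field F] : PowerSeries (PowerSeries F) →+* F :=
  (PowerSeries.constantCoeff (R := F)).comp (PowerSeries.constantCoeff (R := PowerSeries F))

private noncomputable def uu (F : Type) [Field F] : PowerSeries (PowerSeries F) :=
  PowerSeries.C PowerSeries.X

private noncomputable def vv (F : Type) [Field F] : PowerSeries (PowerSeries F) :=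
  PowerSeries.X

private noncomputable def inu (F : Type) [Field F] : PowerSeries F →+* PowerSeries (PowerSeries F) :=
  PowerSeries.C (R := PowerSeries F)

private noncomputable def inv (F : Type) [Field F] : PowerSeries F →+* PowerSeries (PowerSeries F) :=
  PowerSeries.map (PowerSeries.C (R := F))

section

variable {F : Type} [Field F]

private theorem c00_cst (x : F) : c00 F (cst F x) = x := by
  simp [c00, cst]

private theorem c00_uu : c00 F (uu F) = 0 := by
  simp [c00, uu]

private theorem c00_vv : c00 F (vv F) = 0 := by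
  simp [c00, vv]

private theorem co1_uu : PowerSeries.coeff 1 (uu F) = 0 := by
  rw [uu, PowerSeries.coeff_C, if_neg one_ne_zero]

private theorem co1_vv : PowerSeries.coeff 1 (vv F) = 1 := by
  rw [vv, PowerSeries.coeff_one_X]

private theorem uu_ne : uu F ≠ 0 := by
  intro h
  have h1 := congrArg (PowerSeries.coeff 0) h
  rw [uu, PowerSeries.coeff_zero_C, map_zero] at h1
  exact PowerSeries.X_ne_zero h1

private theorem vv_ne : vv F ≠ 0 := PowerSeries.X_ne_zero

private theorem uu_ne_vv : uu F ≠ vv F := by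
  intro h
  have h1 := congrArg (PowerSeries.coeff 1) h
  rw [co1_uu, co1_vv] at h1
  exact zero_ne_one h1

private theorem uu_add_vv : uu F + vv F ≠ 0 := by
  intro h
  have h1 := congrArg (PowerSeries.coeff 1) h
  rw [map_add, co1_uu, co1_vv, map_zero, zero_add] at h1
  exact one_ne_zero h1

private theorem inu_qfac (x : F) (hx : x ≠ 0) :
    inu F (qfac (1 / x)) * (cst F x - uu F) = cst F x + uu F := by
  have h := congrArg (inu F) (qfac_mul (1 / x))
  rw [map_mul, map_sub, map_add, map_one, map_mul] at h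
  have h1 : cst F x * inu F (PowerSeries.C (1 / x)) = 1 := by
    have h2 : inu F (PowerSeries.C (1 / x)) = cst F (1 / x) := rfl
    rw [h2, ← map_mul, mul_one_div_cancel hx, map_one]
  have h3 : inu F PowerSeries.X = uu F := rfl
  rw [h3] at h
  linear_combination (cst F x) * h + (inu F (qfac (1 / x)) * uu F + uu F) * h1

private theorem inv_qfac (x : F) (hx : x ≠ 0) :
    inv F (qfac (1 / x)) * (cst F x - vv F) = cst F x + vv F := by
  have h := congrArg (inv F) (qfac_mul (1 / x))
  rw [map_mul, map_sub, map_add, map_one, map_mul] at h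
  have h1 : cst F x * inv F (PowerSeries.C (1 / x)) = 1 := by
    have h2 : inv F (PowerSeries.C (1 / x)) = cst F (1 / x) := by
      rw [inv, PowerSeries.map_C]
      rfl
    rw [h2, ← map_mul, mul_one_div_cancel hx, map_one]
  have h3 : inv F PowerSeries.X = vv F := by
    rw [inv, PowerSeries.map_X]
    rfl
  rw [h3] at h
  linear_combination (cst F x) * h + (inv F (qfac (1 / x)) * vv F + vv F) * h1

end

private theorem ident {F : Type} [Field F] [Algebra ℝ F] {N : ℕ} (D : DF F N) (hN : Even N)
    (Q : Fin N → Fin N → F)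
    (hQ : ∀ i j, ∑ k, sig D i k * Q k j = if i = j then 1 else 0) :
    (uu F - vv F) * (inu F (∏ i, qfac (1 / D.s i)) * inv F (∏ i, qfac (1 / D.s i))) =
      (uu F - vv F) + (uu F + vv F) *
        (- ∑ k, ∑ j, cst F (Q k j) * inu F (qfac (1 / D.s j)) * inv F (qfac (1 / D.s k))) := by
  classical
  let K := FractionRing (PowerSeries (PowerSeries F))
  let φ : PowerSeries (PowerSeries F) →+* K := algebraMap _ _
  have hφ : Function.Injective φ := IsFractionRing.injective _ _
  have hφ0 : ∀ x, x ≠ 0 → φ x ≠ 0 := fun x hx => (map_ne_zero_iff φ hφ).2 hx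
  have : CharZero F := charZero_of_real F
  have : CharZero K := charZero_of_injective_ringHom (f := φ.comp (cst F)) (φ.comp (cst F)).injective
  have hs : ∀ i, D.s i ≠ 0 := s_ne D
  have hsu : ∀ i, cst F (D.s i) - uu F ≠ 0 := by
    intro i h
    have h1 := congrArg (c00 F) h
    rw [map_sub, c00_cst, c00_uu, map_zero, sub_zero] at h1
    exact hs i h1
  have hsv : ∀ i, cst F (D.s i) - vv F ≠ 0 := by
    intro i h
    have h1 := congrArg (c00 F) h
    rw [map_sub, c00_cst, c00_vv, map_zero, sub_zero] at h1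
    exact hs i h1
  have hsu' : ∀ i, cst F (D.s i) + uu F ≠ 0 := by
    intro i h
    have h1 := congrArg (c00 F) h
    rw [map_add, c00_cst, c00_uu, map_zero, add_zero] at h1
    exact hs i h1
  have hsv' : ∀ i, cst F (D.s i) + vv F ≠ 0 := by
    intro i h
    have h1 := congrArg (c00 F) h
    rw [map_add, c00_cst, c00_vv, map_zero, add_zero] at h1
    exact hs i h1
  have key := schur2 (K := K) hN (fun i => φ (cst F (D.s i))) (φ (uu F)) (φ (vv F))
    (fun i j h => s_inj D ((cst F).injective (hφ h)))
    (fun i => hφ0 _ (fun h => hs i (by rw [← c00_cst (D.s i), h, map_zero])))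
    (fun i j => by
      rw [← map_add, ← map_add]
      refine hφ0 _ fun h => s_add_ne D i j ?_
      rw [← c00_cst (D.s i + D.s j), h, map_zero])
    (hφ0 _ uu_ne) (hφ0 _ vv_ne) (fun h => uu_ne_vv (hφ h))
    (by rw [← map_add]; exact hφ0 _ uu_add_vv)
    (fun i => by rw [← map_sub]; exact hφ0 _ (hsu i))
    (fun i => by rw [← map_sub]; exact hφ0 _ (hsv i))
    (fun i h => by
      have h1 : φ (cst F (D.s i) + uu F) = 0 := by rw [map_add, h]; ring
      exact hφ0 _ (hsu' i) h1)
    (fun i h => by
      have h1 : φ (cst F (D.s i) + vv F) = 0 := by rw [map_add, h]; ring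
      exact hφ0 _ (hsv' i) h1)
    (fun k j => φ (cst F (Q k j)))
    (fun i j => by
      have h1 := congrArg (fun z => φ (cst F z)) (hQ i j)
      simp only [map_sum, map_mul] at h1
      have h2 : ∀ k, φ (cst F (sig D i k)) = (φ (cst F (D.s i)) - φ (cst F (D.s k))) /
          (φ (cst F (D.s i)) + φ (cst F (D.s k))) := by
        intro k
        have h3 : (φ.comp (cst F)) (sig D i k) = ((φ.comp (cst F)) (D.s i) -
            (φ.comp (cst F)) (D.s k)) / ((φ.comp (cst F)) (D.s i) + (φ.comp (cst F)) (D.s k)) := by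
          rw [sig, map_div₀, map_sub, map_add]
        exact h3
      simp only [h2] at h1
      rw [h1]
      split_ifs <;> simp)
  have hU : ∀ i, (φ (cst F (D.s i)) + φ (uu F)) / (φ (cst F (D.s i)) - φ (uu F)) =
      φ (inu F (qfac (1 / D.s i))) := by
    intro i
    rw [← map_add, ← map_sub, div_eq_iff (hφ0 _ (hsu i)), ← map_mul, inu_qfac _ (hs i)]
  have hV : ∀ i, (φ (cst F (D.s i)) + φ (vv F)) / (φ (cst F (D.s i)) - φ (vv F)) =
      φ (inv F (qfac (1 / D.s i))) := by
    intro i
    rw [← map_add, ← map_sub, div_eq_iff (hφ0 _ (hsv i)), ← map_mul, inv_qfac _ (hs i)]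
  simp only [hU, hV] at key
  apply hφ
  simp only [map_mul, map_add, map_sub, map_neg, map_sum, map_prod]
  exact key

private theorem co_prod {F : Type} [Field F] (a b : ℕ) (f g : PowerSeries F) :
    PowerSeries.coeff a (PowerSeries.coeff b (inu F f * inv F g)) =
      PowerSeries.coeff a f * PowerSeries.coeff b g := by
  rw [inu, inv, PowerSeries.coeff_C_mul, PowerSeries.coeff_map, PowerSeries.coeff_mul_C]

private theorem co_uu_succ {F : Type} [Field F] (a b : ℕ) (g : PowerSeries (PowerSeries F)) :
    PowerSeries.coeff (a + 1) (PowerSeries.coeff b (uu F * g)) =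
      PowerSeries.coeff a (PowerSeries.coeff b g) := by
  rw [uu, PowerSeries.coeff_C_mul, PowerSeries.coeff_succ_X_mul]

private theorem co_vv_succ {F : Type} [Field F] (a b : ℕ) (g : PowerSeries (PowerSeries F)) :
    PowerSeries.coeff a (PowerSeries.coeff (b + 1) (vv F * g)) =
      PowerSeries.coeff a (PowerSeries.coeff b g) := by
  rw [vv, PowerSeries.coeff_succ_X_mul]

private theorem co_vv_zero {F : Type} [Field F] (a : ℕ) (g : PowerSeries (PowerSeries F)) :
    PowerSeries.coeff a (PowerSeries.coeff 0 (vv F * g)) = 0 := by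
  rw [vv, PowerSeries.coeff_zero_X_mul, map_zero]

private theorem co_cst {F : Type} [Field F] (a b : ℕ) (c : F) (g : PowerSeries (PowerSeries F)) :
    PowerSeries.coeff a (PowerSeries.coeff b (cst F c * g)) =
      c * PowerSeries.coeff a (PowerSeries.coeff b g) := by
  have h : cst F c = PowerSeries.C (PowerSeries.C c) := rfl
  rw [h, PowerSeries.coeff_C_mul, PowerSeries.coeff_C_mul]

theorem M_eq_QQ {F : Type} [Field F] [Algebra ℝ F] {N : ℕ} (D : DF F N) (hN : Even N)
    (Q : Fin N → Fin N → F)
    (hQ : ∀ i j, ∑ k, sig D i k * Q k j = if i = j then 1 else 0) (a b : ℕ) (hab : b < a) :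
    - ∑ k, ∑ j, Q k j * bco a (1 / D.s j) * bco b (1 / D.s k) =
      MvPolynomial.aeval (tval D.s) (QQ a b) := by
  have hid := ident D hN Q hQ
  set q : PowerSeries F := ∏ i, qfac (1 / D.s i) with hq
  set M2 : PowerSeries (PowerSeries F) :=
    - ∑ k, ∑ j, cst F (Q k j) * inu F (qfac (1 / D.s j)) * inv F (qfac (1 / D.s k)) with hM2
  have hM : ∀ a b, PowerSeries.coeff a (PowerSeries.coeff b M2) =
      - ∑ k, ∑ j, Q k j * bco a (1 / D.s j) * bco b (1 / D.s k) := by
    intro a b
    rw [hM2, map_neg, map_neg, map_sum, map_sum]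
    congr 1
    refine Finset.sum_congr rfl fun k _ => ?_
    rw [map_sum, map_sum]
    refine Finset.sum_congr rfl fun j _ => ?_
    rw [mul_assoc (cst F (Q k j)), co_cst, co_prod, qfac, qfac, PowerSeries.coeff_mk,
      PowerSeries.coeff_mk, mul_assoc]
  have hqc : ∀ n, PowerSeries.coeff n q = MvPolynomial.aeval (tval D.s) (qP n) := by
    intro n
    exact coeff_qprod (fun i => 1 / D.s i) n
  have hq0 : PowerSeries.coeff 0 q = 1 := by
    rw [hqc, qP, map_one]
  have hco : ∀ a b, PowerSeries.coeff (a + 1) (PowerSeries.coeff b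
      ((uu F - vv F) * (inu F q * inv F q))) = PowerSeries.coeff (a + 1) (PowerSeries.coeff b
      ((uu F - vv F) + (uu F + vv F) * M2)) := fun a b => by rw [hid]
  refine eq_QQ (tval D.s) (fun a b => - ∑ k, ∑ j, Q k j * bco a (1 / D.s j) * bco b (1 / D.s k))
    ?_ ?_ a b hab
  · intro a ha
    have h := hco a 0
    rw [sub_mul, add_mul] at h
    simp only [map_sub, map_add] at h
    rw [co_uu_succ, co_vv_zero, co_uu_succ, co_vv_zero, co_prod, hM, hq0, hqc] at h
    have h1 : PowerSeries.coeff (a + 1) (PowerSeries.coeff 0 (uu F)) = 0 := by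
      rw [uu, PowerSeries.coeff_zero_C, PowerSeries.coeff_X, if_neg (by omega)]
    have h2 : PowerSeries.coeff (a + 1) (PowerSeries.coeff 0 (vv F)) = 0 := by
      rw [vv, PowerSeries.coeff_zero_X, map_zero]
    rw [h1, h2] at h
    linear_combination -h
  · intro a b hb
    obtain ⟨b, rfl⟩ : ∃ b', b = b' + 1 := ⟨b - 1, by omega⟩
    have h := hco a (b + 1)
    rw [sub_mul, add_mul] at h
    simp only [map_sub, map_add] at h
    rw [co_uu_succ, co_vv_succ, co_uu_succ, co_vv_succ, co_prod, co_prod, hM, hM, hqc, hqc, hqc,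
      hqc] at h
    have h1 : PowerSeries.coeff (a + 1) (PowerSeries.coeff (b + 1) (uu F)) = 0 := by
      rw [uu, PowerSeries.coeff_C, if_neg (by omega), map_zero]
    have h2 : PowerSeries.coeff (a + 1) (PowerSeries.coeff (b + 1) (vv F)) = 0 := by
      rw [vv, PowerSeries.coeff_X]
      split_ifs
      · rw [PowerSeries.coeff_one, if_neg (by omega)]
      · rw [map_zero]
    rw [h1, h2] at h
    simp only [Nat.add_sub_cancel]
    linear_combination -h

end Pool.Agent.Helper90.MVD
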