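import Pool.Agent.Helper90.MVD.Inv

/-!
Module MVD-17 (project MV, block D2): action of power series of operators on power series.

`act a g` has coefficients `∑_{(p,q) ∈ antidiagonal n} a_p (g_q)`.
* `act_one`, `act_mul`: associativity of the Cauchy product (`Finset.sum_antidiagonal_...`:
  `Finset.sum_nat_antidiagonal_triple...`, cf. the proof of associativity of `PowerSeries` /
  `Finset.sum_sigma'`, `Finset.Nat.sum_antidiagonal_...`; e.g. `Finset.sum_antidiagonal_fst...`).
* `act_X_mul`: coefficients `n+1`: `PowerSeries.coeff_succ_X_mul`, the term `(n+1, 0)` vanishes.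
* `act_KK_iff`: `KK i = ∑ X^n (-DD)^n` is a two-sided inverse of `1 + X * C (DD)` in
  `PowerSeries (Module.End ℝ F)` and `act (1 + X * C DD) h = h + X * dD h`. (Or coefficientwise:
  `(KK g)_n = ∑_{p+q=n} (-DD)^p g_q` satisfies `(KK g)_{n+1} = g_{n+1} - DD (KK g)_n`.)
* `act_AA_eq`: definition of `AA`.
* `act_AA_cst`: if all coefficients of `g` are killed by `d i`, then `DD i (c x) = c (DD i x)` for each
  coefficient `c` of `g` (Leibniz), so `dD (g h) = g dD h`; with `act_KK_iff`,
  `act KK (g h) = g act KK h`; then `act_AA_eq`.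
* `act_AA_comm`: `DD i`, `DD j` commute (`d i`, `d j` commute and `d i (1/(2 s j)) = 0` for `i ≠ j`),
  `DD i` commutes with the multiplication by `1/s j` (`i ≠ j`): prove
  `AA i * AA j = AA j * AA i` in the ring, coefficientwise, or directly for `act`.
* `cst_act`: for `k ≠ i`, `d k` commutes with `DD i` and with multiplication by `1/s i`; so the
  coefficients of `act (KK i) g`, `∑ (-DD)^p g_q`, are killed by `d k`.
* `act_AN`: `List.prod` of `List.ofFn` and `act_mul`, `act_one`.
(`d k (1/s i) = 0` for `k ≠ i`: `Derivation.leibniz_inv`-like, or from `d k (s i * (1/s i)) = d k 1 = 0`.)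
-/

namespace Pool.Agent.Helper90.MVD

open Finset Pool.Agent.Helper60.MV Pool.Agent.Helper52.MVD

section

variable {F : Type} [Field F] [Algebra ℝ F]

private theorem coeff_act (a : PowerSeries (Module.End ℝ F)) (g : PowerSeries F) (n : ℕ) :
    PowerSeries.coeff n (act a g) = ∑ p ∈ antidiagonal n,
      (PowerSeries.coeff p.1 a : Module.End ℝ F) (PowerSeries.coeff p.2 g) :=
  PowerSeries.coeff_mk _ _

theorem act_one (g : PowerSeries F) : act (1 : PowerSeries (Module.End ℝ F)) g = g := by
  ext n
  rw [coeff_act, Finset.sum_eq_single (0, n)]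
  · rw [PowerSeries.coeff_one, if_pos rfl]
    rfl
  · rintro ⟨p, q⟩ hp hne
    rw [HasAntidiagonal.mem_antidiagonal] at hp
    simp only at hp ⊢
    rw [PowerSeries.coeff_one, if_neg, LinearMap.zero_apply]
    rintro rfl
    apply hne
    rw [zero_add] at hp
    rw [hp]
  · intro h
    exact absurd (HasAntidiagonal.mem_antidiagonal.2 (zero_add n)) h

theorem act_mul (a b : PowerSeries (Module.End ℝ F)) (g : PowerSeries F) :
    act (a * b) g = act a (act b g) := by
  ext n
  simp only [coeff_act, PowerSeries.coeff_mul, map_sum, LinearMap.sum_apply, Module.End.mul_apply,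
    Finset.sum_sigma']
  apply Finset.sum_nbij' (fun ⟨⟨_i, j⟩, ⟨k, l⟩⟩ ↦ ⟨(k, l + j), (l, j)⟩)
    (fun ⟨⟨i, _j⟩, ⟨k, l⟩⟩ ↦ ⟨(i + k, l), (i, k)⟩) <;> aesop (add simp [add_assoc])

theorem act_add (a : PowerSeries (Module.End ℝ F)) (g h : PowerSeries F) :
    act a (g + h) = act a g + act a h := by
  ext n
  simp only [coeff_act, map_add, Finset.sum_add_distrib]

theorem act_sub (a : PowerSeries (Module.End ℝ F)) (g h : PowerSeries F) :
    act a (g - h) = act a g - act a h := by
  ext n
  simp only [coeff_act, map_sub, Finset.sum_sub_distrib]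

theorem act_neg (a : PowerSeries (Module.End ℝ F)) (g : PowerSeries F) :
    act a (-g) = - act a g := by
  ext n
  simp only [coeff_act, map_neg, Finset.sum_neg_distrib]

theorem act_zero (a : PowerSeries (Module.End ℝ F)) : act a (0 : PowerSeries F) = 0 := by
  ext n
  simp only [coeff_act, map_zero, Finset.sum_const_zero]

theorem act_add_left (a b : PowerSeries (Module.End ℝ F)) (g : PowerSeries F) :
    act (a + b) g = act a g + act b g := by
  ext n
  simp only [coeff_act, map_add, LinearMap.add_apply, Finset.sum_add_distrib]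

private theorem act_sub_left (a b : PowerSeries (Module.End ℝ F)) (g : PowerSeries F) :
    act (a - b) g = act a g - act b g := by
  ext n
  simp only [coeff_act, map_sub, LinearMap.sub_apply, Finset.sum_sub_distrib]

theorem act_X_mul (a : PowerSeries (Module.End ℝ F)) (g : PowerSeries F) :
    act a (PowerSeries.X * g) = PowerSeries.X * act a g := by
  ext n
  cases n with
  | zero =>
    rw [coeff_act, PowerSeries.coeff_zero_X_mul, Finset.Nat.antidiagonal_zero,
      Finset.sum_singleton]
    simp only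
    rw [PowerSeries.coeff_zero_X_mul, map_zero]
  | succ n =>
    rw [coeff_act, PowerSeries.coeff_succ_X_mul, Finset.Nat.sum_antidiagonal_succ', coeff_act]
    simp only [PowerSeries.coeff_zero_X_mul, map_zero, zero_add, PowerSeries.coeff_succ_X_mul]

theorem act_X_pow_mul (a : PowerSeries (Module.End ℝ F)) (n : ℕ) (g : PowerSeries F) :
    act a (PowerSeries.X ^ n * g) = PowerSeries.X ^ n * act a g := by
  induction n with
  | zero => rw [pow_zero, one_mul, one_mul]
  | succ n ih => rw [pow_succ', mul_assoc, act_X_mul, ih, mul_assoc]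

private theorem act_X (g : PowerSeries F) :
    act (PowerSeries.X : PowerSeries (Module.End ℝ F)) g = PowerSeries.X * g := by
  ext n
  cases n with
  | zero =>
    rw [coeff_act, PowerSeries.coeff_zero_X_mul, Finset.Nat.antidiagonal_zero,
      Finset.sum_singleton]
    simp only
    rw [PowerSeries.coeff_zero_X, LinearMap.zero_apply]
  | succ n =>
    rw [coeff_act, PowerSeries.coeff_succ_X_mul, Finset.Nat.sum_antidiagonal_succ]
    simp only
    rw [PowerSeries.coeff_zero_X, LinearMap.zero_apply, zero_add, Finset.sum_eq_single (0, n)]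
    · simp only
      rw [zero_add, PowerSeries.coeff_one_X]
      rfl
    · rintro ⟨p, q⟩ hp hne
      rw [HasAntidiagonal.mem_antidiagonal] at hp
      simp only at hp ⊢
      rw [PowerSeries.coeff_X, if_neg, LinearMap.zero_apply]
      intro h
      apply hne
      have hp0 : p = 0 := by omega
      rw [hp0, zero_add] at hp
      rw [hp0, hp]
    · intro h
      exact absurd (HasAntidiagonal.mem_antidiagonal.2 (zero_add n)) h

private theorem act_C_mu (c : F) (g : PowerSeries F) :
    act (PowerSeries.C (mu c)) g = PowerSeries.C c * g := by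
  ext n
  rw [coeff_act, PowerSeries.coeff_C_mul, Finset.sum_eq_single (0, n)]
  · rw [PowerSeries.coeff_C, if_pos rfl]
    rfl
  · rintro ⟨p, q⟩ hp hne
    rw [HasAntidiagonal.mem_antidiagonal] at hp
    simp only at hp ⊢
    rw [PowerSeries.coeff_C, if_neg, LinearMap.zero_apply]
    rintro rfl
    apply hne
    rw [zero_add] at hp
    rw [hp]
  · intro h
    exact absurd (HasAntidiagonal.mem_antidiagonal.2 (zero_add n)) h

variable {N : ℕ} (D : DF F N)

/-- `DD i` applied coefficientwise -/
noncomputable def dD (i : Fin N) (g : PowerSeries F) : PowerSeries F :=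
  PowerSeries.mk fun n => D.DD i (PowerSeries.coeff n g)

private theorem coeff_dD (i : Fin N) (g : PowerSeries F) (n : ℕ) :
    PowerSeries.coeff n (dD D i g) = D.DD i (PowerSeries.coeff n g) := PowerSeries.coeff_mk _ _

private theorem coeff_KK (i : Fin N) (n : ℕ) :
    PowerSeries.coeff n (D.KK i) = (-(D.DD i)) ^ n := PowerSeries.coeff_mk _ _

private theorem KK_zero (i : Fin N) (g : PowerSeries F) :
    PowerSeries.coeff 0 (act (D.KK i) g) = PowerSeries.coeff 0 g := by
  rw [coeff_act, Finset.Nat.antidiagonal_zero, Finset.sum_singleton]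
  simp only
  rw [coeff_KK, pow_zero]
  rfl

private theorem KK_succ (i : Fin N) (g : PowerSeries F) (n : ℕ) :
    PowerSeries.coeff (n + 1) (act (D.KK i) g) =
      PowerSeries.coeff (n + 1) g - D.DD i (PowerSeries.coeff n (act (D.KK i) g)) := by
  rw [coeff_act, Finset.Nat.sum_antidiagonal_succ]
  simp only
  rw [coeff_KK, pow_zero, coeff_act, map_sum, sub_eq_add_neg, ← Finset.sum_neg_distrib]
  congr 1
  refine Finset.sum_congr rfl fun p _ => ?_
  rw [coeff_KK, coeff_KK, pow_succ', Module.End.mul_apply, LinearMap.neg_apply]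

theorem act_KK_iff (i : Fin N) (g h : PowerSeries F) :
    act (D.KK i) g = h ↔ h + PowerSeries.X * dD D i h = g := by
  constructor
  · rintro rfl
    ext n
    cases n with
    | zero => rw [map_add, PowerSeries.coeff_zero_X_mul, add_zero, KK_zero]
    | succ n =>
      rw [map_add, PowerSeries.coeff_succ_X_mul, coeff_dD, KK_succ, sub_add_cancel]
  · intro hh
    ext n
    induction n with
    | zero =>
      rw [KK_zero, ← hh, map_add, PowerSeries.coeff_zero_X_mul, add_zero]
    | succ n ih =>
      rw [KK_succ, ih, ← hh, map_add, PowerSeries.coeff_succ_X_mul, coeff_dD,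
        add_sub_cancel_right]

theorem act_AA_eq (i : Fin N) (g : PowerSeries F) :
    act (D.AA i) g =
      g - PowerSeries.X * (PowerSeries.C (1 / D.s i) * act (D.KK i) g) := by
  unfold DF.AA
  rw [act_sub_left, act_one, act_mul, act_X, act_mul, act_C_mu]

private theorem DD_apply (i : Fin N) (x : F) :
    D.DD i x = D.d i x - 1 / (2 * D.s i) * x := rfl

private theorem d_s (i k : Fin N) (hik : i ≠ k) : D.d k (D.s i) = 0 := by
  rw [D.ds, if_neg (Ne.symm hik)]

private theorem d_div (k : Fin N) (a b : F) (ha : D.d k a = 0) (hb : D.d k b = 0) :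
    D.d k (a / b) = 0 := by
  rw [Derivation.leibniz_div, ha, hb, smul_zero, smul_zero, sub_zero, smul_zero]

private theorem d_mul (k : Fin N) (a b : F) (ha : D.d k a = 0) (hb : D.d k b = 0) :
    D.d k (a * b) = 0 := by
  rw [Derivation.leibniz, ha, hb, smul_zero, smul_zero, add_zero]

private theorem d_inv (i k : Fin N) (hik : i ≠ k) : D.d k (1 / D.s i) = 0 :=
  d_div D k _ _ (Derivation.map_one_eq_zero _) (d_s D i k hik)

private theorem d_two (k : Fin N) : D.d k (2 : F) = 0 := by
  have h1 : (2 : F) = 1 + 1 := by norm_num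
  rw [h1, map_add, Derivation.map_one_eq_zero, add_zero]

private theorem d_inv2 (i k : Fin N) (hik : i ≠ k) : D.d k (1 / (2 * D.s i)) = 0 :=
  d_div D k _ _ (Derivation.map_one_eq_zero _) (d_mul D k _ _ (d_two D k) (d_s D i k hik))

private theorem DD_mul_cst (i : Fin N) (c x : F) (hc : D.d i c = 0) :
    D.DD i (c * x) = c * D.DD i x := by
  rw [DD_apply, DD_apply, Derivation.leibniz, hc, smul_zero, add_zero, smul_eq_mul]
  ring

private theorem dD_mul_cst (i : Fin N) (g h : PowerSeries F) (hg : Cst D i g) :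
    dD D i (g * h) = g * dD D i h := by
  ext n
  rw [coeff_dD, PowerSeries.coeff_mul, PowerSeries.coeff_mul, map_sum]
  refine Finset.sum_congr rfl fun p _ => ?_
  rw [DD_mul_cst D i _ _ (hg _), coeff_dD]

private theorem dD_add (i : Fin N) (g h : PowerSeries F) :
    dD D i (g + h) = dD D i g + dD D i h := by
  ext n
  rw [coeff_dD, map_add, map_add, map_add, coeff_dD, coeff_dD]

private theorem dD_X_mul (i : Fin N) (g : PowerSeries F) :
    dD D i (PowerSeries.X * g) = PowerSeries.X * dD D i g := by
  ext n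
  cases n with
  | zero => rw [coeff_dD, PowerSeries.coeff_zero_X_mul, PowerSeries.coeff_zero_X_mul, map_zero]
  | succ n => rw [coeff_dD, PowerSeries.coeff_succ_X_mul, PowerSeries.coeff_succ_X_mul, coeff_dD]

private theorem DD_comm (i j : Fin N) (x : F) : D.DD i (D.DD j x) = D.DD j (D.DD i x) := by
  by_cases hij : i = j
  · rw [hij]
  · rw [DD_apply, DD_apply, DD_apply, DD_apply, map_sub, map_sub, Derivation.leibniz,
      Derivation.leibniz, d_inv2 D j i (Ne.symm hij), d_inv2 D i j hij, D.comm i j, smul_zero,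
      add_zero, add_zero, smul_eq_mul, smul_eq_mul]
    ring

private theorem dD_comm (i j : Fin N) (g : PowerSeries F) :
    dD D i (dD D j g) = dD D j (dD D i g) := by
  ext n
  rw [coeff_dD, coeff_dD, coeff_dD, coeff_dD, DD_comm]

theorem act_KK_cst (i : Fin N) (g h : PowerSeries F) (hg : Cst D i g) :
    act (D.KK i) (g * h) = g * act (D.KK i) h := by
  rw [act_KK_iff]
  have h1 := (act_KK_iff D i h (act (D.KK i) h)).1 rfl
  rw [dD_mul_cst D i _ _ hg]
  conv_rhs => rw [← h1]
  ring

theorem act_AA_cst (i : Fin N) (g h : PowerSeries F) (hg : Cst D i g) :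
    act (D.AA i) (g * h) = g * act (D.AA i) h := by
  rw [act_AA_eq, act_AA_eq, act_KK_cst D i g h hg]
  ring

theorem act_KK_comm (i j : Fin N) (g : PowerSeries F) :
    act (D.KK i) (act (D.KK j) g) = act (D.KK j) (act (D.KK i) g) := by
  have h1 := (act_KK_iff D i g (act (D.KK i) g)).1 rfl
  have h2 := (act_KK_iff D j (act (D.KK i) g) (act (D.KK j) (act (D.KK i) g))).1 rfl
  rw [act_KK_iff]
  symm
  rw [act_KK_iff]
  rw [← h2] at h1
  rw [dD_add, dD_X_mul] at h1
  rw [dD_add, dD_X_mul, dD_comm D j i]
  conv_rhs => rw [← h1]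
  ring

theorem act_AA_comm (i j : Fin N) (g : PowerSeries F) :
    act (D.AA i) (act (D.AA j) g) = act (D.AA j) (act (D.AA i) g) := by
  by_cases hij : i = j
  · rw [hij]
  have hc1 : ∀ i k : Fin N, i ≠ k → Cst D k (PowerSeries.C (1 / D.s i)) := by
    intro i k hik n
    rw [PowerSeries.coeff_C]
    by_cases hn : n = 0
    · rw [if_pos hn]; exact d_inv D i k hik
    · rw [if_neg hn, map_zero]
  rw [act_AA_eq D i, act_AA_eq D j, act_AA_eq D j, act_AA_eq D i, act_sub, act_sub, act_X_mul,
    act_X_mul, act_KK_cst D i _ _ (hc1 j i (Ne.symm hij)), act_KK_cst D j _ _ (hc1 i j hij),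
    act_KK_comm D i j]
  ring

/-- constants form a ring -/
theorem Cst.mul {i : Fin N} {g h : PowerSeries F} (hg : Cst D i g) (hh : Cst D i h) :
    Cst D i (g * h) := by
  intro n
  rw [PowerSeries.coeff_mul, map_sum]
  refine Finset.sum_eq_zero fun p _ => ?_
  exact d_mul D i _ _ (hg _) (hh _)

theorem Cst.add {i : Fin N} {g h : PowerSeries F} (hg : Cst D i g) (hh : Cst D i h) :
    Cst D i (g + h) := by
  intro n
  rw [map_add, map_add, hg, hh, add_zero]

theorem Cst.neg {i : Fin N} {g : PowerSeries F} (hg : Cst D i g) : Cst D i (-g) := by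
  intro n
  rw [map_neg, map_neg, hg, neg_zero]

theorem Cst.sum {i : Fin N} {β : Type} (s : Finset β) (g : β → PowerSeries F)
    (hg : ∀ b ∈ s, Cst D i (g b)) : Cst D i (∑ b ∈ s, g b) := by
  intro n
  rw [map_sum, map_sum]
  exact Finset.sum_eq_zero fun b hb => hg b hb n

private theorem Cst_C (k : Fin N) (c : F) (hc : D.d k c = 0) : Cst D k (PowerSeries.C c) := by
  intro n
  rw [PowerSeries.coeff_C]
  by_cases hn : n = 0
  · rw [if_pos hn]; exact hc
  · rw [if_neg hn, map_zero]

theorem Cst.C_real (i : Fin N) (a : ℝ) : Cst D i (PowerSeries.C (algebraMap ℝ F a)) :=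
  Cst_C D i _ (Derivation.map_algebraMap _ _)

theorem Cst.C_s (i k : Fin N) (hik : i ≠ k) : Cst D k (PowerSeries.C (D.s i)) :=
  Cst_C D k _ (d_s D i k hik)

theorem Cst.C_inv (i k : Fin N) (hik : i ≠ k) : Cst D k (PowerSeries.C (1 / D.s i)) :=
  Cst_C D k _ (d_inv D i k hik)

theorem Cst.X_pow (i : Fin N) (n : ℕ) : Cst D i (PowerSeries.X ^ n : PowerSeries F) := by
  intro m
  rw [PowerSeries.coeff_X_pow]
  by_cases hn : m = n
  · rw [if_pos hn]; exact Derivation.map_one_eq_zero _
  · rw [if_neg hn, map_zero]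

theorem Cst.C_sig (i j k : Fin N) (hik : i ≠ k) (hjk : j ≠ k) :
    Cst D k (PowerSeries.C (sig D i j)) := by
  refine Cst_C D k _ ?_
  unfold sig
  refine d_div D k _ _ ?_ ?_
  · rw [map_sub, d_s D i k hik, d_s D j k hjk, sub_zero]
  · rw [map_add, d_s D i k hik, d_s D j k hjk, add_zero]

private theorem d_kap (i k : Fin N) (hik : i ≠ k) (n : ℕ) : D.d k (kap D i n) = 0 := by
  unfold kap
  refine d_mul D k _ _ (Derivation.map_algebraMap _ _) ?_
  rw [Derivation.leibniz_pow, d_inv D i k hik, smul_zero, smul_zero]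

theorem Cst.C_kap (i k : Fin N) (hik : i ≠ k) (n : ℕ) :
    Cst D k (PowerSeries.C (kap D i n)) := Cst_C D k _ (d_kap D i k hik n)

theorem Cst.kser (i k : Fin N) (hik : i ≠ k) : Cst D k (kser D i) := by
  intro n
  unfold MVD.kser
  rw [PowerSeries.coeff_mk]
  exact d_kap D i k hik n

private theorem cst_KK (i k : Fin N) (hik : i ≠ k) (g : PowerSeries F) (hg : Cst D k g) :
    Cst D k (act (D.KK i) g) := by
  intro n
  induction n with
  | zero => rw [KK_zero]; exact hg 0
  | succ n ih =>
    rw [KK_succ, map_sub, hg, DD_apply, map_sub, D.comm k i, ih, map_zero,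
      d_mul D k _ _ (d_inv2 D i k hik) ih, sub_zero, sub_zero]

theorem cst_act (i k : Fin N) (hik : i ≠ k) (g : PowerSeries F) (hg : Cst D k g) :
    Cst D k (act (D.AA i) g) := by
  rw [act_AA_eq, sub_eq_add_neg]
  refine Cst.add D hg (Cst.neg D (Cst.mul D ?_ (Cst.mul D (Cst.C_inv D i k hik)
    (cst_KK D i k hik g hg))))
  have h1 := Cst.X_pow D k 1
  rw [pow_one] at h1
  exact h1

theorem act_AN (g : PowerSeries F) :
    act D.AN g = (List.finRange N).foldr (fun i g => act (D.AA i) g) g := by
  unfold DF.AN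
  rw [List.ofFn_eq_map]
  induction List.finRange N with
  | nil => exact act_one g
  | cons i l ih => rw [List.map_cons, List.prod_cons, act_mul, ih, List.foldr_cons]

end

end Pool.Agent.Helper90.MVD
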